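import Pool.Agent.Lib.MP_efdbfd_co.Defs

-- part Pool.Agent.Lib.MP_efdbfd_co.Base
section

/-! Weighted closed walks, small events, oriented 2-trees. -/

set_option autoImplicit false

open Finset
open scoped Classical

noncomputable section

namespace Pool.Agent.Lib.MP_efdbfd_co

/-- Weight of a closed walk of length `n`. -/
def wt {V : Type} {n : ℕ} [NeZero n] (M : V → V → ℝ) (c : ZMod n → V) : ℝ :=
  ∏ i, M (c i) (c (i + 1))

/-- The event `E` (a property of the periodic lift of a closed walk) fails with probability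
at most `η`. -/
def Sm {V : Type} [Fintype V] (n : ℕ) [NeZero n] (M : V → V → ℝ) (η : ℝ)
    (E : (ℤ → V) → Prop) : Prop :=
  ∑ c : ZMod n → V, (if E (fun i : ℤ => c i) then 0 else wt M c) ≤ η * ∑ c : ZMod n → V, wt M c

/-- A symmetric kernel whose closed walks of length `n` rarely repeat a vertex. -/
structure Host {V : Type} [Fintype V] (n : ℕ) [NeZero n] (M : V → V → ℝ) (ε : ℝ) : Prop where
  symm : ∀ u w, M u w = M w u
  nonneg : ∀ u w, 0 ≤ M u w
  pos : 0 < ∑ c : ZMod n → V, wt M c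
  eps_nonneg : 0 ≤ ε
  eps_le : ε ≤ 1
  coll : ∀ i j : ℤ, i ≠ j → |i - j| < (n : ℤ) → Sm n M (ε ^ 2) fun c => c i ≠ c j

/-- The periodic sequence `c` is a genuine cycle of length `n` in the support of `M`. -/
structure Cyc {V : Type} (n : ℕ) (M : V → V → ℝ) (c : ℤ → V) : Prop where
  per : ∀ i : ℤ, c (i + n) = c i
  inj : ∀ i j : ℤ, |i - j| < (n : ℤ) → c i = c j → i = j
  adj : ∀ i, M (c i) (c (i + 1)) ≠ 0

/-- Oriented 2-trees, built by joining a new vertex `z` to both ends of an edge `u w`; the edge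
used is not dead, and one of the new edges is small or dead. -/
inductive TT {W : Type} (Sml D : W → W → Prop) : Finset W → (W → W → Prop) → Prop
  | base {u w : W} : u ≠ w → TT Sml D {u, w} fun p q => p = u ∧ q = w
  | step {S : Finset W} {E : W → W → Prop} {u w z : W} : TT Sml D S E → E u w → z ∉ S →
      ¬ D u w → (Sml u z ∨ Sml w z ∨ D u z ∨ D w z) →
      TT Sml D (insert z S) fun p q => E p q ∨ ((p = u ∨ p = w) ∧ q = z)

/-- `t` is an admissible type for an edge of weight `b`. -/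
def Ty (k b t : ℕ) : Prop :=
  1 ≤ t ∧ t ≤ k ∧ t % 2 = b % 2 ∧ (t + b < 2 * k → t = b)

/-- The reserved vertices of an edge of weight `b` and type `t` drawn on the cycle `c`. -/
def Res {V : Type} (k b t : ℕ) (c : ℤ → V) : Finset V :=
  if t + b < 2 * k then (Ioo (0 : ℤ) t).image c else ∅

end Pool.Agent.Lib.MP_efdbfd_co
end
end

-- part Pool.Agent.Lib.MP_efdbfd_co.Cyc
section

/-! Calculus of small events. -/

set_option autoImplicit false

open Finset
open scoped Classical

noncomputable section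

namespace Pool.Agent.Lib.MP_efdbfd_co

variable {V : Type} [Fintype V] {n : ℕ} [NeZero n] {M : V → V → ℝ} {ε η η' : ℝ}
  {E E' : (ℤ → V) → Prop}

omit [Fintype V] in
lemma wt_nonneg (h : ∀ u w, 0 ≤ M u w) (c : ZMod n → V) : 0 ≤ wt M c :=
  prod_nonneg fun _ _ => h _ _

lemma Sm.mono (H : Host n M ε) (h : Sm n M η E) (hη : η ≤ η') (hE : ∀ c, E c → E' c) :
    Sm n M η' E' := by
  refine le_trans (sum_le_sum fun c _ => ?_) (le_trans h (mul_le_mul_of_nonneg_right hη H.pos.le))
  have := wt_nonneg H.nonneg c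
  split_ifs with h1 h2 h2 <;> first | rfl | assumption | exact absurd (hE _ h2) h1

lemma Sm.of_forall (H : Host n M ε) (hη : 0 ≤ η) (hE : ∀ c, E c) : Sm n M η E := by
  simp only [Sm, hE, if_true, sum_const_zero]
  exact mul_nonneg hη H.pos.le

lemma Sm.and (H : Host n M ε) (h : Sm n M η E) (h' : Sm n M η' E') :
    Sm n M (η + η') fun c => E c ∧ E' c := by
  unfold Sm at *
  rw [add_mul]
  refine le_trans ?_ (add_le_add h h')
  rw [← sum_add_distrib]
  refine sum_le_sum fun c _ => ?_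
  have := wt_nonneg H.nonneg c
  by_cases h1 : E fun i : ℤ => c i <;> by_cases h2 : E' fun i : ℤ => c i <;> simp [h1, h2, this]

lemma Sm.reindex (h : Sm n M η E) (σ : ZMod n ≃ ZMod n) (hσ : ∀ c, wt M (c ∘ σ) = wt M c) :
    ∑ c : ZMod n → V, (if E (fun i : ℤ => c (σ i)) then 0 else wt M c) ≤
      η * ∑ c : ZMod n → V, wt M c :=
  le_of_eq_of_le (Fintype.sum_equiv (σ.arrowCongr (Equiv.refl V)).symm _ _ fun c => by
    rw [← hσ c]; rfl) h

lemma Sm.rot (h : Sm n M η E) (s : ℤ) : Sm n M η fun c => E fun j => c (s + j) := by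
  have := h.reindex (Equiv.addLeft (s : ZMod n)) fun c =>
    Fintype.prod_equiv (Equiv.addLeft (s : ZMod n)) _ _ fun i => by simp [add_assoc]
  refine le_of_eq_of_le (sum_congr rfl fun c _ => if_congr (iff_of_eq ?_) rfl rfl) this
  simp

lemma Sm.refl (H : Host n M ε) (h : Sm n M η E) (s : ℤ) :
    Sm n M η fun c => E fun j => c (s - j) := by
  have := h.reindex (Equiv.subLeft (s : ZMod n)) fun c =>
    Fintype.prod_equiv (Equiv.subLeft ((s : ZMod n) - 1)) _ _ fun i => by
      simp only [Function.comp, Equiv.subLeft_apply]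
      rw [H.symm]
      congr 2 <;> ring
  simpa [Sm] using this

lemma Sm.exists (H : Host n M ε) (h : Sm n M η E) (hη : η < 1) : ∃ c, E c := by
  by_contra h0
  push Not at h0
  simp only [Sm, h0, if_false] at h
  nlinarith [H.pos]

lemma Sm.forall (H : Host n M ε) {ι : Type} (s : Finset ι) {F : ι → (ℤ → V) → Prop}
    (h : ∀ i ∈ s, Sm n M η (F i)) : Sm n M (s.card * η) fun c => ∀ i ∈ s, F i c := by
  induction s using Finset.induction_on with
  | empty => exact Sm.of_forall H (by simp) (by simp)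
  | insert a s ha ih =>
    refine ((h a (by simp)).and H (ih fun i hi => h i (by simp [hi]))).mono H ?_ (by simp)
    rw [card_insert_of_notMem ha]; push_cast; linarith

lemma sm_cyc (H : Host n M ε) : Sm n M (n ^ 2 * ε) (Cyc n M) := by
  have hn : (0 : ℤ) < n := by exact_mod_cast NeZero.pos n
  have h1 : Sm n M 0 fun c => (∀ i : ℤ, c (i + n) = c i) ∧ ∀ i, M (c i) (c (i + 1)) ≠ 0 := by
    refine (sum_eq_zero fun c _ => ?_).le.trans (zero_mul _).ge
    split_ifs with h
    · rfl
    · simp only [Int.cast_add, Int.cast_natCast, ZMod.natCast_self, add_zero, implies_true,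
        true_and, Int.cast_one, not_forall, not_not] at h
      obtain ⟨i, hi⟩ := h
      exact prod_eq_zero (mem_univ _) hi
  have h2 := Sm.forall H (η := ε) (Ico (0 : ℤ) n ×ˢ Ico (0 : ℤ) n)
    (F := fun p c => p.1 ≠ p.2 → c p.1 ≠ c p.2) fun p hp => by
      simp only [mem_product, mem_Ico] at hp
      by_cases h : p.1 = p.2
      · exact Sm.of_forall H H.eps_nonneg fun c h' => absurd h h'
      · exact (H.coll _ _ h (abs_lt.2 ⟨by omega, by omega⟩)).mono H
          (by nlinarith [H.eps_nonneg, H.eps_le]) fun c hc _ => hc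
  refine (h1.and H h2).mono H (by simp [sq]) fun c hc => ⟨hc.1.1, fun i j hij h => ?_, hc.1.2⟩
  have hp : Function.Periodic c n := hc.1.1
  have h3 : ∀ i : ℤ, c (i % n) = c i := fun i => by
    rw [Int.emod_def, mul_comm]; exact hp.sub_int_mul_eq _
  have h4 : i % n = j % n := by
    by_contra h4
    refine hc.2 (i % n, j % n) ?_ h4 (by simp only [h3, h])
    simp [Int.emod_nonneg _ hn.ne', Int.emod_lt_of_pos _ hn]
  have := Int.eq_zero_of_abs_lt_dvd (Int.ModEq.dvd h4.symm) hij
  omega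

end Pool.Agent.Lib.MP_efdbfd_co
end
end

-- part Pool.Agent.Lib.MP_efdbfd_co.Theta
section

/-! Resampling one half of a closed walk; dense graphs are hosts. -/

set_option autoImplicit false

open Finset
open scoped Classical

noncomputable section

namespace Pool.Agent.Lib.MP_efdbfd_co

variable {V : Type} [Fintype V] {n : ℕ} [NeZero n] {M : V → V → ℝ} {ε η η' : ℝ}
  {E E' : (ℤ → V) → Prop}

lemma theta_fib {P X : Type} [Fintype P] (a : P → ℝ) (ha : ∀ x, 0 ≤ a x) (J : Finset X)
    (v : X → P → V) (N : ℕ) (G G1 G2 : P → P → Prop) (G3 : X → P → P → Prop)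
    (h3 : ∀ j ∈ J, ∀ x y, a x ≠ 0 → a y ≠ 0 → v j x = v j y → ¬ G3 j x y)
    (hG : ∀ x y, a x ≠ 0 → a y ≠ 0 → ¬ G x y → ∃ Z : Finset V, Z.card ≤ N ∧
      ∀ z, a z ≠ 0 → G1 x z → G2 y z → ∃ j ∈ J, v j z ∈ Z) :
    ∑ x, ∑ y, (if G x y then 0 else a x * a y) ≤
      ∑ x, ∑ y, (if G1 x y then 0 else a x * a y) + ∑ x, ∑ y, (if G2 x y then 0 else a x * a y) +
        N * ∑ j ∈ J, (∑ x, a x) * √(∑ x, ∑ y, (if G3 j x y then 0 else a x * a y)) := by
  set K := ∑ x, a x with hK
  set s : X → ℝ := fun j => √(∑ x, ∑ y, (if G3 j x y then 0 else a x * a y)) with hs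
  set b1 : P → ℝ := fun x => ∑ y, if G1 x y then 0 else a y with hb1
  set b2 : P → ℝ := fun x => ∑ y, if G2 x y then 0 else a y with hb2
  have i0 : ∀ (Q : Prop) (x : P), 0 ≤ if Q then 0 else a x := fun Q x => by
    split_ifs
    exacts [le_rfl, ha x]
  have b10 : ∀ x, 0 ≤ b1 x := fun x => sum_nonneg fun y _ => i0 _ y
  have b20 : ∀ x, 0 ≤ b2 x := fun x => sum_nonneg fun y _ => i0 _ y
  have s0 : 0 ≤ ∑ j ∈ J, s j := sum_nonneg fun j _ => Real.sqrt_nonneg _
  have e1 : ∑ x, ∑ y, (if G1 x y then 0 else a x * a y) = ∑ x, a x * b1 x :=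
    sum_congr rfl fun x _ => by
      rw [hb1, mul_sum]
      exact sum_congr rfl fun y _ => by split_ifs <;> simp
  have e2 : ∑ x, ∑ y, (if G2 x y then 0 else a x * a y) = ∑ x, a x * b2 x :=
    sum_congr rfl fun x _ => by
      rw [hb2, mul_sum]
      exact sum_congr rfl fun y _ => by split_ifs <;> simp
  have q : ∀ j ∈ J, ∀ w : V, ∑ z, (if v j z = w then a z else 0) ≤ s j := fun j hj w => by
    refine Real.le_sqrt_of_sq_le ?_
    rw [sq, sum_mul_sum]
    refine sum_le_sum fun x _ => sum_le_sum fun y _ => ?_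
    have := mul_nonneg (ha x) (ha y)
    by_cases hx : a x = 0
    · simp [hx]
    by_cases hy : a y = 0
    · simp [hy]
    split_ifs with k1 k2 k3 <;> try simp [this]
    exact absurd k3 (h3 j hj x y hx hy (k1.trans k2.symm))
  have key : ∀ x y, a x ≠ 0 → a y ≠ 0 → ¬ G x y → K ≤ b1 x + b2 y + N * ∑ j ∈ J, s j := by
    intro x y hx hy hxy
    obtain ⟨Z, hZ, hz⟩ := hG x y hx hy hxy
    have i1 : ∀ (j : X) (w : V) (z : P), 0 ≤ if v j z = w then a z else 0 := fun j w z => by
      split_ifs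
      exacts [ha z, le_rfl]
    calc K ≤ ∑ z, ((if G1 x z then 0 else a z) + (if G2 y z then 0 else a z) +
          ∑ j ∈ J, ∑ w ∈ Z, if v j z = w then a z else 0) := by
          refine sum_le_sum fun z _ => ?_
          have t0 : 0 ≤ ∑ j ∈ J, ∑ w ∈ Z, if v j z = w then a z else 0 :=
            sum_nonneg fun j _ => sum_nonneg fun w _ => i1 j w z
          have t1 := i0 (G1 x z) z
          have t2 := i0 (G2 y z) z
          by_cases k0 : a z = 0
          · linarith
          by_cases k1 : G1 x z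
          swap
          · rw [if_neg k1]
            linarith
          by_cases k2 : G2 y z
          swap
          · rw [if_neg k2]
            linarith
          obtain ⟨j, hj, hw⟩ := hz z k0 k1 k2
          have t3 : ∑ w ∈ Z, (if v j z = w then a z else 0) ≤
              ∑ j ∈ J, ∑ w ∈ Z, if v j z = w then a z else 0 :=
            single_le_sum (f := fun j => ∑ w ∈ Z, if v j z = w then a z else 0)
              (fun j _ => sum_nonneg fun w _ => i1 j w z) hj
          rw [sum_ite_eq, if_pos hw] at t3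
          linarith
      _ = b1 x + b2 y + ∑ j ∈ J, ∑ w ∈ Z, ∑ z, if v j z = w then a z else 0 := by
          rw [sum_add_distrib, sum_add_distrib, sum_comm (s := univ) (t := J)]
          congr 1
          exact sum_congr rfl fun j _ => sum_comm
      _ ≤ b1 x + b2 y + ∑ j ∈ J, N * s j := by
          gcongr with j hj
          calc _ ≤ ∑ _w ∈ Z, s j := sum_le_sum fun w _ => q j hj w
            _ = Z.card * s j := by rw [sum_const, nsmul_eq_mul]
            _ ≤ N * s j := by gcongr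
      _ = _ := by rw [mul_sum]
  rw [e1, e2, ← mul_sum]
  change _ ≤ _ + N * (K * ∑ j ∈ J, s j)
  set S := N * ∑ j ∈ J, s j with hS
  have S0 : 0 ≤ S := mul_nonneg (Nat.cast_nonneg _) s0
  rcases (show 0 ≤ K from sum_nonneg fun x _ => ha x).eq_or_lt with K0 | K0
  · have : ∀ x, a x = 0 := fun x =>
      (sum_eq_zero_iff_of_nonneg fun x _ => ha x).mp K0.symm x (mem_univ x)
    simp [this, ← K0]
  refine le_of_mul_le_mul_left ?_ K0
  calc K * ∑ x, ∑ y, (if G x y then 0 else a x * a y)
      ≤ ∑ x, ∑ y, (a x * b1 x * a y + a x * (a y * b2 y) + S * (a x * a y)) := by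
        rw [mul_sum]
        refine sum_le_sum fun x _ => ?_
        rw [mul_sum]
        refine sum_le_sum fun y _ => ?_
        have t := mul_nonneg (ha x) (ha y)
        by_cases hx : a x = 0
        · simp [hx]
        by_cases hy : a y = 0
        · simp [hy]
        split_ifs with k
        · have := mul_nonneg t (add_nonneg (add_nonneg (b10 x) (b20 y)) S0)
          linarith
        · have := mul_le_mul_of_nonneg_left (key x y hx hy k) t
          linarith
    _ = _ := by
        simp only [sum_add_distrib, ← mul_sum, ← sum_mul, ← hK, hS]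
        ring

/-- Weight of a path of length `k`. -/
def thPw (M : V → V → ℝ) {k : ℕ} (α : Fin (k + 1) → V) : ℝ :=
  ∏ j : Fin k, M (α j.castSucc) (α j.succ)

/-- Weight of a path of length `k` with prescribed ends. -/
def thA (M : V → V → ℝ) {k : ℕ} (p : V × V) (α : Fin (k + 1) → V) : ℝ :=
  if (α 0, α (Fin.last k)) = p then thPw M α else 0

/-- The closed walk made of two paths. -/
def thJn (n : ℕ) {k : ℕ} (α β : Fin (k + 1) → V) : ZMod n → V := fun i =>
  if h : i.val ≤ k then α ⟨i.val, by omega⟩ else β ⟨min (n - i.val) k, by omega⟩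

omit [Fintype V] in
lemma theta_pos {k : ℕ} (hk : n = 2 * k) (α β : Fin (k + 1) → V) (j : Fin (k + 1)) :
    thJn n α β ((j : ℕ) : ZMod n) = α j := by
  have := NeZero.ne n
  have hj := j.2
  have e : ((j : ℕ) : ZMod n).val = j := ZMod.val_natCast_of_lt (by omega)
  unfold thJn
  rw [dif_pos (by omega)]
  exact congrArg α (Fin.ext e)

omit [Fintype V] in
lemma theta_neg {k : ℕ} (hk : n = 2 * k) {α β : Fin (k + 1) → V}
    (he : (α 0, α (Fin.last k)) = (β 0, β (Fin.last k))) (j : Fin (k + 1)) :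
    thJn n α β (-((j : ℕ) : ZMod n)) = β j := by
  have := NeZero.ne n
  have hj := j.2
  have e : ((j : ℕ) : ZMod n).val = j := ZMod.val_natCast_of_lt (by omega)
  rw [Prod.mk.injEq] at he
  by_cases j0 : j = 0
  · subst j0
    have := theta_pos hk α β 0
    simp only [Fin.val_zero, Nat.cast_zero, neg_zero] at this ⊢
    rw [this, he.1]
  have j1 : (j : ℕ) ≠ 0 := fun h => j0 (Fin.ext h)
  have e2 : (-((j : ℕ) : ZMod n)).val = n - j := by
    rw [ZMod.neg_val, if_neg (fun h => j1 (by rw [← e, h, ZMod.val_zero])), e]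
  unfold thJn
  split_ifs with h
  · exact (congrArg α (Fin.ext (by simp only [Fin.val_last]; omega))).trans
      (he.2.trans (congrArg β (Fin.ext (by simp only [Fin.val_last]; omega))))
  · exact congrArg β (Fin.ext (by simp only; omega))

omit [Fintype V] in
lemma theta_jn {k : ℕ} (hk : n = 2 * k) (c : ZMod n → V) :
    thJn n (fun j : Fin (k + 1) => c ((j : ℕ) : ZMod n)) (fun j => c (-((j : ℕ) : ZMod n))) = c := by
  funext i
  have := ZMod.val_lt i
  unfold thJn
  split_ifs with h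
  · simp
  · simp only
    rw [min_eq_left (by omega), Nat.cast_sub this.le]
    simp

omit [Fintype V] in
lemma theta_wt (hs : ∀ u w, M u w = M w u) {k : ℕ} (hk : n = 2 * k) (c : ZMod n → V) :
    wt M c = thPw M (fun j : Fin (k + 1) => c ((j : ℕ) : ZMod n)) *
      thPw M (fun j : Fin (k + 1) => c (-((j : ℕ) : ZMod n))) := by
  have e : wt M c = ∏ i ∈ range n, M (c (i : ℕ)) (c ((i + 1 : ℕ))) := by
    unfold wt
    symm
    refine prod_nbij' (fun i => (i : ZMod n)) (fun i => i.val) (by simp)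
      (fun i _ => mem_range.mpr (ZMod.val_lt i))
      (fun i hi => ZMod.val_natCast_of_lt (mem_range.mp hi)) (by simp) (by simp)
  unfold thPw
  simp only [Fin.val_castSucc, Fin.val_succ]
  rw [e, Fin.prod_univ_eq_prod_range (fun j => M (c (j : ℕ)) (c ((j + 1 : ℕ)))) k,
    Fin.prod_univ_eq_prod_range (fun j => M (c (-(j : ℕ))) (c (-((j + 1 : ℕ))))) k]
  have e3 : range n = range (k + k) := by rw [hk, two_mul]
  rw [e3, prod_range_add, ← prod_range_reflect (fun j => M (c (-(j : ℕ))) (c (-((j + 1 : ℕ))))) k]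
  congr 1
  refine prod_congr rfl fun j hj => ?_
  have := mem_range.mp hj
  have z : ∀ x y : ℕ, x + y = n → (x : ZMod n) = -(y : ZMod n) := fun x y h =>
    eq_neg_of_add_eq_zero_left (by rw [← Nat.cast_add, h, ZMod.natCast_self])
  rw [hs, z (k + j) (k - 1 - j + 1) (by omega), z (k + j + 1) (k - 1 - j) (by omega)]

lemma theta_sum (hs : ∀ u w, M u w = M w u) {k : ℕ} (hk : n = 2 * k) (G : (ZMod n → V) → Prop) :
    ∑ c : ZMod n → V, (if G c then 0 else wt M c) = ∑ p : V × V, ∑ α : Fin (k + 1) → V,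
      ∑ β : Fin (k + 1) → V, if G (thJn n α β) then 0 else thA M p α * thA M p β := by
  rw [sum_comm]
  simp_rw [sum_comm (s := (univ : Finset (V × V)))]
  have e : ∀ α β : Fin (k + 1) → V,
      ∑ p : V × V, (if G (thJn n α β) then 0 else thA M p α * thA M p β) =
        if (α 0, α (Fin.last k)) = (β 0, β (Fin.last k)) then
          (if G (thJn n α β) then 0 else thPw M α * thPw M β) else 0 := fun α β => by
    by_cases hG : G (thJn n α β)
    · simp [hG]
    simp only [hG, if_false, thA, ite_mul, zero_mul, sum_ite_eq, mem_univ, if_true, mul_ite,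
      mul_zero]
  simp_rw [e]
  rw [← sum_product', ← sum_filter]
  refine sum_nbij' (fun c => (fun j => c ((j : ℕ) : ZMod n), fun j => c (-((j : ℕ) : ZMod n))))
    (fun x => thJn n x.1 x.2) (fun c _ => ?_) (by simp) (fun c _ => theta_jn hk c)
    (fun x hx => ?_) (fun c _ => by simp only [theta_jn hk c, theta_wt hs hk c])
  · have z : (k : ZMod n) = -(k : ZMod n) :=
      eq_neg_of_add_eq_zero_left (by rw [← Nat.cast_add, ← two_mul, ← hk, ZMod.natCast_self])
    simp [← z]
  · exact Prod.ext (funext (theta_pos hk _ _)) (funext (theta_neg hk (mem_filter.mp hx).2))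

/-- Resample the half `c 0, c (-1), ..., c (-k)`: the new half avoids `Z`, and it forms good cycles
with both old halves. -/
lemma sm_theta (H : Host n M ε) {k : ℕ} (hk : n = 2 * k) (N : ℕ) (h : Sm n M η E)
    (h' : Sm n M η' E') :
    Sm n M (η + η' + N * k * ε) fun c => ∀ Z : Finset V, Z.card ≤ N → ∃ d e : ℤ → V,
      E d ∧ E' e ∧ (∀ j : ℤ, 0 ≤ j → j ≤ k → d j = c j ∧ e j = c (-j) ∧ e (-j) = d (-j)) ∧
        ∀ j : ℤ, 0 < j → j < k → d (-j) ∉ Z := by
  have hn := NeZero.ne n
  have a0 : ∀ (p : V × V) (α : Fin (k + 1) → V), 0 ≤ thA M p α := fun p α => by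
    unfold thA
    split_ifs
    exacts [prod_nonneg fun j _ => H.nonneg _ _, le_rfl]
  have en : ∀ {p : V × V} {α β : Fin (k + 1) → V}, thA M p α ≠ 0 → thA M p β ≠ 0 →
      (α 0, α (Fin.last k)) = (β 0, β (Fin.last k)) := fun {p α β} h1 h2 =>
    (by_contra fun e => h1 (if_neg e) : _ = p).trans (by_contra fun e => h2 (if_neg e) : _ = p).symm
  set T := ∑ c : ZMod n → V, wt M c with hT
  have eT : T = ∑ p : V × V, (∑ α : Fin (k + 1) → V, thA M p α) ^ 2 := by
    have := theta_sum H.symm hk fun _ => False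
    simp only [if_false] at this
    rw [hT, this]
    exact sum_congr rfl fun p _ => by rw [sq, sum_mul_sum]
  let J : Finset (Fin (k + 1)) := univ.filter fun j => 0 < (j : ℕ) ∧ (j : ℕ) < k
  have cJ : J.card ≤ k := by
    have : J.card < (univ : Finset (Fin (k + 1))).card :=
      card_lt_card (filter_ssubset.mpr ⟨0, mem_univ _, by simp⟩)
    simp only [card_univ, Fintype.card_fin] at this
    omega
  have ix : ∀ j : ℤ, 0 ≤ j → j ≤ k → ∃ i : Fin (k + 1), j = (i : ℕ) := fun j h0 h1 =>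
    ⟨⟨j.toNat, by omega⟩, by simp only; omega⟩
  unfold Sm at h h' ⊢
  rw [theta_sum H.symm hk fun c => E fun i : ℤ => c i] at h
  rw [theta_sum H.symm hk fun c => E' fun i : ℤ => c i] at h'
  rw [theta_sum H.symm hk]
  refine (sum_le_sum fun p _ => theta_fib (thA M p) (a0 p) J (fun j α => α j) N _
    (fun α β => E fun i : ℤ => thJn n α β i) (fun α β => E' fun i : ℤ => thJn n α β i)
    (fun j α β => thJn n α β (((j : ℕ) : ℤ) : ZMod n) ≠ thJn n α β ((-((j : ℕ) : ℤ) : ℤ) : ZMod n))
    (fun j _ α β h1 h2 e => ?_) (fun α β h1 h2 hG => ?_)).trans ?_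
  · rw [not_not, Int.cast_neg, Int.cast_natCast, theta_pos hk, theta_neg hk (en h1 h2), e]
  · push Not at hG
    obtain ⟨Z, hZ, hG⟩ := hG
    refine ⟨Z, hZ, fun γ h3 g1 g2 => ?_⟩
    obtain ⟨j, j0, j1, hj⟩ := hG _ _ g1 g2 fun j j0 j1 => by
      obtain ⟨i, rfl⟩ := ix j j0 j1
      simp only [Int.cast_neg, Int.cast_natCast, theta_pos hk, theta_neg hk (en h1 h2),
        theta_neg hk (en h1 h3), theta_neg hk (en h2 h3), and_self]
    obtain ⟨i, rfl⟩ := ix j j0.le j1.le
    refine ⟨i, mem_filter.mpr ⟨mem_univ _, by omega, by omega⟩, ?_⟩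
    simpa only [Int.cast_neg, Int.cast_natCast, theta_neg hk (en h1 h3)] using hj
  rw [sum_add_distrib, sum_add_distrib, ← mul_sum, sum_comm (t := J), add_mul, add_mul]
  refine add_le_add (add_le_add h h') ?_
  rw [mul_assoc, mul_assoc]
  refine mul_le_mul_of_nonneg_left ?_ (Nat.cast_nonneg _)
  have T0 : 0 ≤ T := H.pos.le
  refine (sum_le_card_nsmul _ _ (ε * T) fun j hj => ?_).trans ?_
  · obtain ⟨j0, j1⟩ := (mem_filter.mp hj).2
    have hc := H.coll (j : ℕ) (-((j : ℕ) : ℤ)) (by omega) (abs_lt.mpr ⟨by omega, by omega⟩)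
    unfold Sm at hc
    rw [theta_sum H.symm hk fun c => c (((j : ℕ) : ℤ) : ZMod n) ≠ c ((-((j : ℕ) : ℤ) : ℤ) : ZMod n)]
      at hc
    refine (Real.sum_mul_le_sqrt_mul_sqrt _ _ _).trans ?_
    rw [← eT]
    calc _ ≤ √T * √(ε ^ 2 * T) := by
          refine mul_le_mul_of_nonneg_left (Real.sqrt_le_sqrt (le_trans (le_of_eq ?_) hc))
            (Real.sqrt_nonneg _)
          refine sum_congr rfl fun p _ => Real.sq_sqrt (sum_nonneg fun α _ => sum_nonneg fun β _ => ?_)
          split_ifs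
          exacts [le_rfl, mul_nonneg (a0 p α) (a0 p β)]
      _ = ε * T := by
          rw [Real.sqrt_mul (sq_nonneg _), Real.sqrt_sq H.eps_nonneg, mul_left_comm,
            Real.mul_self_sqrt T0]
  · rw [nsmul_eq_mul]
    exact mul_le_mul_of_nonneg_right (Nat.cast_le.mpr cJ) (mul_nonneg H.eps_nonneg T0)

end Pool.Agent.Lib.MP_efdbfd_co
end
end

-- part Pool.Agent.Lib.MP_efdbfd_co.Local
section

/-! Adding a new vertex on an edge: the local extension lemma. -/

set_option autoImplicit false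

open Finset
open scoped Classical

noncomputable section

namespace Pool.Agent.Lib.MP_efdbfd_co

variable {V : Type} [Fintype V] {n : ℕ} [NeZero n] {M : V → V → ℝ} {ε η : ℝ}
  {E F G : (ℤ → V) → Prop} {k : ℕ}

lemma fresh_half (H : Host n M ε) (hk : n = 2 * k) (N : ℕ) (h : Sm n M η E) (s : ℤ) :
    Sm n M (η + n ^ 2 * ε + N * k * ε) fun x => ∀ Z : Finset V, Z.card ≤ N → ∃ y : ℤ → V,
      E y ∧ (∀ j : ℤ, y (j + 2 * k) = y j) ∧ (∀ j : ℤ, s ≤ j → j ≤ s + k → y j = x j) ∧
        ∀ j : ℤ, s - k < j → j < s → y j ∉ Z := by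
  refine ((sm_theta H hk N ((h.and H (sm_cyc H)).rot (-s))
    (Sm.of_forall H le_rfl (E := fun _ => True) fun _ => trivial)).rot s).mono H (by simp)
    fun x hx Z hZ => ?_
  obtain ⟨d, e, ⟨h1, h2⟩, -, h3, h4⟩ := hx Z hZ
  refine ⟨_, h1, fun j => by simpa [hk] using h2.per j, fun j a b => ?_, fun j a b => ?_⟩
  · simpa using (h3 (-s + j) (by omega) (by omega)).1
  · have := h4 (s - j) (by omega) (by omega)
    rwa [show -(s - j) = -s + j by ring] at this

lemma fresh_arc (H : Host n M ε) (hk : n = 2 * k) (N : ℕ) (h : Sm n M η E) {a : ℕ} (h1 : 1 ≤ a)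
    (h2 : a ≤ k) :
    Sm n M (η + 2 * n ^ 2 * ε + 2 * N * k * ε) fun x => ∀ Z : Finset V, Z.card ≤ N → ∃ y : ℤ → V,
      E y ∧ y 0 = x 0 ∧ y a = x a ∧ (∀ j : ℤ, a < j → j < 2 * k → y j ∉ Z) ∧
        (a = k → ∀ j : ℤ, 0 < j → j < k → y j ∉ Z) := by
  refine (fresh_half H hk N (fresh_half H hk N h (if a = k then k else a + k)) 0).mono H
    (le_of_eq (by ring)) fun x hx Z hZ => ?_
  obtain ⟨y₁, hy, p1, k1, f1⟩ := hx Z hZ
  obtain ⟨y, hy, p2, k2, f2⟩ := hy Z hZ
  have f3 : ∀ j : ℤ, k < j → j < 2 * k → y₁ j ∉ Z := fun j a b => by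
    have := f1 (j - 2 * k) (by omega) (by omega)
    rwa [← p1, sub_add_cancel] at this
  refine ⟨y, hy, ?_, ?_, fun j _ b => ?_, fun e j _ b => ?_⟩
  · rw [← p2, k2 _ (by split_ifs <;> omega) (by split_ifs <;> omega), p1,
      k1 _ (by omega) (by omega)]
  · split_ifs at k2 with e
    · rw [k2 _ (by omega) (by omega), k1 _ (by omega) (by omega)]
    · rw [← p2, k2 _ (by omega) (by omega), p1, k1 _ (by omega) (by omega)]
  · split_ifs at k2 f2 with e
    · rw [k2 _ (by omega) (by omega)]; exact f3 _ (by omega) b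
    · by_cases h3 : j < a + k
      · exact f2 _ (by omega) (by omega)
      · rw [k2 _ (by omega) (by omega)]; exact f3 _ (by omega) b
  · rw [if_pos e] at f2
    exact f2 _ (by omega) b

omit [Fintype V] in
lemma mem_Res {b t : ℕ} {c : ℤ → V} {y : V} :
    y ∈ Res k b t c ↔ t + b < 2 * k ∧ ∃ j : ℤ, 0 < j ∧ j < t ∧ c j = y := by
  unfold Res
  split_ifs with h <;> simp [h, and_assoc]

/-- The ends `x 0`, `x a` of an edge can be joined to a new vertex, avoiding any small set `Z`. -/
def Ext {V : Type} (k N a b c s t : ℕ) (F G : (ℤ → V) → Prop) (x : ℤ → V) : Prop :=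
  ∀ Z : Finset V, Z.card ≤ N → ∃ f g : ℤ → V, F f ∧ G g ∧ f 0 = x 0 ∧ g 0 = x a ∧ f s = g t ∧
    f s ∉ Z ∧ (∀ y ∈ Res k c s f, y ∉ Z ∧ y ≠ f s ∧ y ∉ Res k b t g) ∧
      ∀ y ∈ Res k b t g, y ∉ Z ∧ y ≠ f s

omit [Fintype V] in
lemma Ext.symm {N a b c s t : ℕ} {x : ℤ → V} (h : Ext k N a b c s t F G fun j => x (a - j)) :
    Ext k N a c b t s G F x := fun Z hZ => by
  obtain ⟨f, g, h1, h2, h3, h4, h5, h6, h7, h8⟩ := h Z hZ
  exact ⟨g, f, h2, h1, by simpa using h4, by simpa using h3, h5.symm, h5 ▸ h6,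
    fun y hy => ⟨(h8 y hy).1, h5 ▸ (h8 y hy).2, fun h => (h7 y h).2.2 hy⟩,
    fun y hy => ⟨(h7 y hy).1, h5 ▸ (h7 y hy).2.1⟩⟩

lemma ext_one (H : Host n M ε) (hk : n = 2 * k) (N : ℕ) (hF : Sm n M η F) (hG : Sm n M η G)
    {a b c : ℕ} (ha : 1 ≤ a) (hb : 1 ≤ b) (hab : a + b ≤ k) (hc : 2 * k ≤ a + b + c) :
    Sm n M (2 * η + (20 * k ^ 2 + 3 * N * k) * ε) (Ext k N a b c (a + b) b F G) := by
  have := H.eps_nonneg
  refine (fresh_arc H hk N ((hF.and H (hG.rot a)).and H (sm_cyc H)) ha (by omega)).mono H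
    (by subst hk; push_cast; nlinarith [mul_nonneg (sq_nonneg (k : ℝ)) this,
      (by positivity : 0 ≤ (N : ℝ) * k * ε)]) fun x hx Z hZ => ?_
  obtain ⟨y, ⟨⟨h1, h2⟩, h3⟩, h4, h5, h6, -⟩ := hx Z hZ
  refine ⟨y, _, h1, h2, h4, by simpa using h5, by simp, h6 _ (by omega) (by omega),
    fun v hv => absurd (mem_Res.1 hv).1 (by omega), fun v hv => ?_⟩
  obtain ⟨-, j, j1, j2, rfl⟩ := mem_Res.1 hv
  exact ⟨h6 _ (by omega) (by omega), fun e => by
    have := h3.inj _ _ (abs_lt.2 ⟨by omega, by omega⟩) e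
    omega⟩

lemma ext_two (H : Host n M ε) (hk : n = 2 * k) (N : ℕ) (hF : Sm n M η F) (hG : Sm n M η G)
    {a b c s t r : ℕ} (ha : 1 ≤ a) (ha' : a ≤ k) (hs : 1 ≤ s) (hs' : s ≤ k) (ht : 1 ≤ t)
    (ht' : t ≤ k) (hr : a + s + t = 2 * k + 2 * r) (hb : t + b < 2 * k → r = 0 ∨ a = k) :
    Sm n M (2 * η + (20 * k ^ 2 + 3 * N * k) * ε) (Ext k N a b c s t F G) := by
  refine (fresh_arc H hk N (((sm_theta H hk N ((hG.refl H r).and H (sm_cyc H))
    ((hF.rot (a - r)).and H (sm_cyc H))).rot (a - r)).and H (sm_cyc H)) ha ha').mono H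
    (le_of_eq (by subst hk; push_cast; ring)) fun x hx Z hZ => ?_
  obtain ⟨y, ⟨h1, cy⟩, y0, ya, f1, f2⟩ := hx Z hZ
  obtain ⟨d, e, ⟨hd, cd⟩, ⟨he, ce⟩, h3, f3⟩ := h1 Z hZ
  have dy : ∀ j : ℤ, 0 ≤ j → j ≤ k → d j = y (a - r + j) := fun j a b => (h3 j a b).1
  have ey : ∀ j : ℤ, 0 ≤ j → j ≤ k → e j = y (a - r - j) := fun j a b => (h3 j a b).2.1
  have ed : ∀ j : ℤ, -k ≤ j → j ≤ 0 → e j = d j := fun j a b => by
    simpa using (h3 (-j) (by omega) (by omega)).2.2
  have f4 : ∀ j : ℤ, -k < j → j < 0 → d j ∉ Z := fun j a b => by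
    simpa using f3 (-j) (by omega) (by omega)
  have ed' : ∀ j : ℤ, k ≤ j → j ≤ 2 * k → e j = d (j - 2 * k) := fun j a b => by
    rw [← ed _ (by omega) (by omega), ← ce.per (j - 2 * k)]
    congr 1; omega
  have hz : e (a - r + s) = d (r - t) := by
    rw [ed' _ (by omega) (by omega)]; congr 1; omega
  refine ⟨_, _, he, hd, ?_, ?_, hz, ?_, fun v hv => ?_, fun v hv => ?_⟩
  · simp only [add_zero]; rw [ey _ (by omega) (by omega), sub_self, y0]
  · simp only [sub_zero]; rw [dy _ (by omega) (by omega), sub_add_cancel, ya]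
  · simp only [hz]
    by_cases h : (t : ℤ) - r < k
    · exact f4 _ (by omega) (by omega)
    · rw [← cd.per, dy _ (by omega) (by omega)]
      exact f1 _ (by omega) (by omega)
  · obtain ⟨-, j, j1, j2, rfl⟩ := mem_Res.1 hv
    refine ⟨?_, fun h => ?_, fun h => ?_⟩
    · by_cases h : (a : ℤ) - r + j ≤ k
      · rw [ey _ (by omega) h, ← cy.per]
        exact f1 _ (by omega) (by omega)
      · rw [ed' _ (by omega) (by omega)]
        exact f4 _ (by omega) (by omega)
    · have := ce.inj _ _ (abs_lt.2 ⟨by omega, by omega⟩) h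
      omega
    · obtain ⟨-, i, i1, i2, h⟩ := mem_Res.1 h
      by_cases h' : (a : ℤ) - r + j ≤ k
      · by_cases h'' : i ≤ r
        · rw [ey _ (by omega) h', dy _ (by omega) (by omega)] at h
          have := cy.inj _ _ (abs_lt.2 ⟨by omega, by omega⟩) h
          omega
        · rw [← ed _ (by omega) (by omega)] at h
          have := ce.inj _ _ (abs_lt.2 ⟨by omega, by omega⟩) h
          omega
      · rw [ed' _ (by omega) (by omega)] at h
        have := cd.inj _ _ (abs_lt.2 ⟨by omega, by omega⟩) h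
        omega
  · obtain ⟨hv', i, i1, i2, rfl⟩ := mem_Res.1 hv
    have := hb hv'
    refine ⟨?_, fun h => ?_⟩
    · by_cases h : i ≤ r
      · rw [dy _ (by omega) (by omega)]
        exact f2 (by omega) _ (by omega) (by omega)
      · exact f4 _ (by omega) (by omega)
    · have := cd.inj _ _ (abs_lt.2 ⟨by omega, by omega⟩) (h.trans hz)
      omega

lemma exists_ty (hk : 2 ≤ k) {b : ℕ} (hb : 1 ≤ b) :
    ∃ t, Ty k b t ∧ (b ≤ k → t = b) ∧ (k ≤ b → k ≤ t + 1) := by
  unfold Ty
  by_cases h : b ≤ k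
  · exact ⟨b, by omega⟩
  · by_cases h' : b % 2 = k % 2
    · exact ⟨k, by omega⟩
    · exact ⟨k - 1, by omega⟩

lemma local_ext (hk : 2 ≤ k) {a b c : ℕ} (ha : 1 ≤ a) (ha' : a ≤ k) (hb : 1 ≤ b) (hc : 1 ≤ c)
    (hp : (a + b + c) % 2 = 0) (hg : 2 * k ≤ a + b + c)
    (ho : ¬ (a < k ∧ b < k ∧ c < k ∧ 2 * k < a + b + c)) :
    ∃ s t, Ty k c s ∧ Ty k b t ∧ ∀ (V : Type) [Fintype V] (n : ℕ) [NeZero n] (M : V → V → ℝ)
      (ε η : ℝ) (N : ℕ) (F G : (ℤ → V) → Prop), Host n M ε → n = 2 * k → Sm n M η F → Sm n M η G →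
        Sm n M (2 * η + (20 * k ^ 2 + 3 * N * k) * ε) (Ext k N a b c s t F G) := by
  by_cases h1 : a + b ≤ k ∧ a + b < c
  · exact ⟨a + b, b, by unfold Ty; omega, by unfold Ty; omega,
      fun V _ n _ M ε η N F G H hn hF hG => ext_one H hn N hF hG ha hb h1.1 hg⟩
  by_cases h2 : a + c ≤ k ∧ a + c < b
  · exact ⟨c, a + c, by unfold Ty; omega, by unfold Ty; omega,
      fun V _ n _ M ε η N F G H hn hF hG =>
        ((ext_one H hn N hG hF ha hc h2.1 (by omega)).refl H a).mono H le_rfl fun _ => Ext.symm⟩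
  obtain ⟨s, hs, s1, s2⟩ := exists_ty hk hc
  obtain ⟨t, ht, t1, t2⟩ := exists_ty hk hb
  refine ⟨s, t, hs, ht, fun V _ n _ M ε η N F G H hn hF hG => ?_⟩
  unfold Ty at hs ht
  obtain ⟨r, hr⟩ : ∃ r, a + s + t = 2 * k + 2 * r := ⟨(a + s + t - 2 * k) / 2, by omega⟩
  by_cases h3 : k ≤ c
  · exact ((ext_two H hn N hG hF (r := r) ha ha' ht.1 ht.2.1 hs.1 hs.2.1 (by omega)
      (by omega)).refl H a).mono H le_rfl fun _ => Ext.symm
  · exact ext_two H hn N hF hG ha ha' hs.1 hs.2.1 ht.1 ht.2.1 hr (by omega)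

end Pool.Agent.Lib.MP_efdbfd_co
end
end

-- part Pool.Agent.Lib.MP_efdbfd_co.Tw
section

/-! Graphs of treewidth at most two are subgraphs of 2-trees. -/

set_option autoImplicit false

open Finset
open scoped Classical

noncomputable section

namespace Pool.Agent.Lib.MP_efdbfd_co

variable {W : Type}

lemma TT.mem {Sml D : W → W → Prop} {S : Finset W} {E : W → W → Prop} (h : TT Sml D S E) {p q : W}
    (hpq : E p q) : p ∈ S ∧ q ∈ S ∧ p ≠ q ∧ ¬ E q p := by
  induction h generalizing p q with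
  | base huw =>
    obtain ⟨rfl, rfl⟩ := hpq
    exact ⟨by simp, by simp, huw, fun h => huw h.2⟩
  | @step S E u w z _ hE hz _ _ ih =>
    have hu := (ih hE).1
    have hw := (ih hE).2.1
    rcases hpq with hpq | ⟨hp, rfl⟩
    · obtain ⟨a, b, c, d⟩ := ih hpq
      refine ⟨mem_insert_of_mem a, mem_insert_of_mem b, c, ?_⟩
      rintro (h | ⟨-, rfl⟩)
      · exact d h
      · exact hz a
    · have hpS : p ∈ S := by rcases hp with rfl | rfl <;> assumption
      refine ⟨mem_insert_of_mem hpS, mem_insert_self _ _, fun h => hz (h ▸ hpS), ?_⟩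
      rintro (h | ⟨-, rfl⟩)
      · exact hz (ih h).1
      · exact hz hpS

lemma tw_nbr {Sml D : W → W → Prop} {S : Finset W} {E : W → W → Prop} (h : TT Sml D S E) :
    S.Nonempty ∧ ∀ a ∈ S, ∃ b, E a b ∨ E b a := by
  induction h with
  | @base u w huw =>
    refine ⟨⟨u, by simp⟩, fun a ha => ?_⟩
    rcases mem_insert.1 ha with rfl | ha
    · exact ⟨w, Or.inl ⟨rfl, rfl⟩⟩
    · rw [mem_singleton] at ha
      exact ⟨u, Or.inr ⟨rfl, ha⟩⟩
  | @step S E u w z _ hE hz _ _ ih =>
    refine ⟨⟨z, mem_insert_self _ _⟩, fun a ha => ?_⟩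
    rcases mem_insert.1 ha with rfl | ha
    · exact ⟨u, Or.inr (Or.inr ⟨Or.inl rfl, rfl⟩)⟩
    · obtain ⟨b, hb⟩ := ih.2 a ha
      exact ⟨b, hb.imp Or.inl Or.inl⟩

/-- A 2-tree on `U`, or `U` has at most one element. -/
def TwSt (U : Finset W) (E : W → W → Prop) : Prop :=
  (U.card ≤ 1 ∧ ∀ p q, ¬ E p q) ∨ TT (fun _ _ => True) (fun _ _ => False) U E

/-- `K` is a clique of `E`. -/
def TwCl (E : W → W → Prop) (K : Finset W) : Prop :=
  ∀ p ∈ K, ∀ q ∈ K, p ≠ q → E p q ∨ E q p

lemma tw_add {U K : Finset W} {E : W → W → Prop} {z : W} (h : TwSt U E) (hz : z ∉ U)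
    (hK : K ⊆ U) (hc : K.card ≤ 2) (hcl : TwCl E K) :
    ∃ E', TwSt (insert z U) E' ∧ (∀ p q, E p q → E' p q) ∧ ∀ p ∈ K, E' p z := by
  rcases h with ⟨h1, h2⟩ | h
  · rcases U.eq_empty_or_nonempty with rfl | ⟨u, hu⟩
    · refine ⟨E, Or.inl ⟨by simp, h2⟩, fun _ _ h => h, fun p hp => absurd (hK hp) (by simp)⟩
    · have hU : U = {u} := eq_singleton_iff_unique_mem.2
        ⟨hu, fun x hx => card_le_one.1 h1 x hx u hu⟩
      subst hU
      have huz : u ≠ z := fun h => hz (by simp [h])
      refine ⟨fun p q => p = u ∧ q = z, Or.inr ?_, fun p q h => absurd h (h2 p q),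
        fun p hp => ⟨mem_singleton.1 (hK hp), rfl⟩⟩
      rw [pair_comm]
      exact TT.base huz
  · have key : ∃ u w, E u w ∧ ∀ p ∈ K, p = u ∨ p = w := by
      rcases K.eq_empty_or_nonempty with rfl | ⟨a, ha⟩
      · obtain ⟨⟨a, ha⟩, hn⟩ := tw_nbr h
        obtain ⟨b, hb | hb⟩ := hn a ha
        · exact ⟨a, b, hb, by simp⟩
        · exact ⟨b, a, hb, by simp⟩
      by_cases h1 : ∀ p ∈ K, p = a
      · obtain ⟨b, hb | hb⟩ := (tw_nbr h).2 a (hK ha)
        · exact ⟨a, b, hb, fun p hp => Or.inl (h1 p hp)⟩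
        · exact ⟨b, a, hb, fun p hp => Or.inr (h1 p hp)⟩
      · push Not at h1
        obtain ⟨b, hb, hba⟩ := h1
        have hab : ∀ p ∈ K, p = a ∨ p = b := by
          intro p hp
          by_contra hn
          push Not at hn
          have : 2 < K.card := two_lt_card_iff.2
            ⟨a, b, p, ha, hb, hp, hba.symm, hn.1.symm, hn.2.symm⟩
          omega
        rcases hcl a ha b hb hba.symm with h' | h'
        · exact ⟨a, b, h', hab⟩
        · exact ⟨b, a, h', fun p hp => (hab p hp).symm⟩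
    obtain ⟨u, w, huw, hp⟩ := key
    exact ⟨_, Or.inr (TT.step h huw hz (fun h => h) (Or.inl trivial)), fun _ _ h => Or.inl h,
      fun p h => Or.inr ⟨hp p h, rfl⟩⟩

lemma tw_bag {X : Finset W} (hX : X.card ≤ 3) (n : ℕ) : ∀ (U : Finset W) (E : W → W → Prop),
    (X \ U).card = n → TwSt U E → TwCl E (X ∩ U) →
      ∃ E', TwSt (U ∪ X) E' ∧ (∀ p q, E p q → E' p q) ∧ TwCl E' X := by
  induction n with
  | zero =>
    intro U E hn h hcl
    have hs : X ⊆ U := sdiff_eq_empty_iff_subset.1 (card_eq_zero.1 hn)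
    rw [inter_eq_left.2 hs] at hcl
    exact ⟨E, by rwa [union_eq_left.2 hs], fun _ _ h => h, hcl⟩
  | succ n ih =>
    intro U E hn h hcl
    obtain ⟨z, hz⟩ : (X \ U).Nonempty := card_pos.1 (by omega)
    obtain ⟨hzX, hzU⟩ := mem_sdiff.1 hz
    have hc : (X ∩ U).card ≤ 2 := by
      have := card_sdiff_add_card_inter X U
      omega
    obtain ⟨E1, h1, hm, hz1⟩ := tw_add h hzU inter_subset_right hc hcl
    have hn1 : (X \ insert z U).card = n := by
      rw [sdiff_insert, card_erase_of_mem hz]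
      omega
    obtain ⟨E2, h2, hm2, hc2⟩ := ih (insert z U) E1 hn1 h1 (by
      intro p hp q hq hpq
      rw [mem_inter, mem_insert] at hp hq
      rcases hp with ⟨hp, rfl | hp'⟩ <;> rcases hq with ⟨hq, rfl | hq'⟩
      · exact absurd rfl hpq
      · exact Or.inr (hz1 q (mem_inter.2 ⟨hq, hq'⟩))
      · exact Or.inl (hz1 p (mem_inter.2 ⟨hp, hp'⟩))
      · exact (hcl p (mem_inter.2 ⟨hp, hp'⟩) q (mem_inter.2 ⟨hq, hq'⟩) hpq).imp (hm _ _) (hm _ _))
    have hset : insert z U ∪ X = U ∪ X := by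
      rw [insert_union, insert_eq_of_mem (mem_union_right _ hzX)]
    exact ⟨E2, hset ▸ h2, fun p q h => hm2 _ _ (hm _ _ h), hc2⟩

lemma tw_sep {ι : Type} {T : SimpleGraph ι} (hT : T.IsAcyclic) {s : Set ι}
    (hs : (T.induce s).Preconnected) {A : Finset ι} {r a l j : ι}
    (hA : ∀ b ∈ A, ∃ p : T.Walk r b, ∀ x ∈ p.support, x ∈ A) (ha : a ∈ A) (hl : l ∉ A)
    (hal : T.Adj a l) (hj : j ∈ A) (hls : l ∈ s) (hjs : j ∈ s) : a ∈ s := by
  obtain ⟨pa, hpa⟩ := hA a ha
  obtain ⟨pj, hpj⟩ := hA j hj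
  obtain ⟨q⟩ := hs ⟨l, hls⟩ ⟨j, hjs⟩
  let q' : T.Walk l j := q.map (SimpleGraph.Embedding.induce s).toHom
  have hq' : ∀ x ∈ q'.support, x ∈ s := by
    intro x hx
    have h1 : q'.support = q.support.map (SimpleGraph.Embedding.induce s).toHom :=
      SimpleGraph.Walk.support_map _ q
    rw [h1, List.mem_map] at hx
    obtain ⟨y, -, rfl⟩ := hx
    exact y.2
  let p : T.Walk a j := (pa.reverse.append pj).bypass
  have hp : ∀ x ∈ p.support, x ∈ A := by
    intro x hx
    have := SimpleGraph.Walk.support_bypass_subset_support _ hx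
    rw [SimpleGraph.Walk.mem_support_append_iff, SimpleGraph.Walk.support_reverse,
      List.mem_reverse] at this
    exact this.elim (hpa x) (hpj x)
  have hpath : (SimpleGraph.Walk.cons hal.symm p).IsPath :=
    (SimpleGraph.Walk.cons_isPath_iff _ _).2
      ⟨SimpleGraph.Walk.bypass_isPath _, fun h => hl (hp l h)⟩
  have he := (hT.subsingleton_path l j).elim ⟨_, hpath⟩ ⟨_, q'.bypass_isPath⟩
  have he' : SimpleGraph.Walk.cons hal.symm p = q'.bypass := congrArg Subtype.val he
  apply hq'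
  apply SimpleGraph.Walk.support_bypass_subset_support
  rw [← he']
  simp

lemma tt_of_tw [Fintype W] [Nontrivial W] {L : SimpleGraph W} (h : TreewidthLE L 2) :
    ∃ E, TT (fun _ _ => True) (fun _ _ => False) univ E ∧ ∀ p q, L.Adj p q → E p q ∨ E q p := by
  obtain ⟨m, T, B, hT, hcov, hedge, hconn, hcard⟩ := h
  obtain ⟨r⟩ := hT.connected.nonempty
  have key : ∀ n, n + 1 ≤ m → ∃ A : Finset (Fin m), A.card = n + 1 ∧ r ∈ A ∧
      (∀ b ∈ A, ∃ p : T.Walk r b, ∀ x ∈ p.support, x ∈ A) ∧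
      ∃ E, TwSt (A.biUnion B) E ∧ ∀ i ∈ A, TwCl E (B i) := by
    intro n
    induction n with
    | zero =>
      intro _
      obtain ⟨E, h1, -, h2⟩ := tw_bag (hcard r) _ ∅ (fun _ _ => False) rfl
        (Or.inl ⟨by simp, fun _ _ h => h⟩) (by intro p hp; simp at hp)
      refine ⟨{r}, by simp, by simp, ?_, E, by simpa using h1, by simpa using h2⟩
      intro b hb
      rw [mem_singleton] at hb
      subst hb
      exact ⟨SimpleGraph.Walk.nil, by simp⟩
    | succ n ih =>
      intro hn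
      obtain ⟨A, hA, hr, hw, E, hE, hcl⟩ := ih (by omega)
      obtain ⟨b, hb⟩ : ∃ b, b ∉ A := by
        by_contra hc
        push Not at hc
        have : A = univ := eq_univ_of_forall hc
        rw [this, card_univ, Fintype.card_fin] at hA
        omega
      obtain ⟨w⟩ := hT.connected.preconnected r b
      obtain ⟨d, -, hd1, hd2⟩ := w.exists_boundary_dart (A : Set (Fin m)) hr hb
      have hal := d.adj
      set a := d.fst
      set l := d.snd
      have ha : a ∈ A := hd1
      have hl : l ∉ A := hd2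
      obtain ⟨E', h1, hm, h2⟩ := tw_bag (hcard l) _ (A.biUnion B) E rfl hE (by
        have hsub : ∀ p ∈ B l ∩ A.biUnion B, p ∈ B a := by
          intro p hp
          rw [mem_inter, mem_biUnion] at hp
          obtain ⟨hp, j, hj, hpj⟩ := hp
          exact tw_sep hT.isAcyclic (hconn p) hw ha hl hal hj hp hpj
        exact fun p hp q hq hpq => hcl a ha p (hsub p hp) q (hsub q hq) hpq)
      refine ⟨insert l A, by rw [card_insert_of_notMem hl, hA], mem_insert_of_mem hr, ?_, E', ?_,
        ?_⟩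
      · intro c hc
        rcases mem_insert.1 hc with rfl | hc
        · obtain ⟨p, hp⟩ := hw a ha
          refine ⟨p.concat hal, fun x hx => ?_⟩
          rw [SimpleGraph.Walk.support_concat, List.mem_append, List.mem_singleton] at hx
          rcases hx with hx | rfl
          · exact mem_insert_of_mem (hp x hx)
          · exact mem_insert_self _ _
        · obtain ⟨p, hp⟩ := hw c hc
          exact ⟨p, fun x hx => mem_insert_of_mem (hp x hx)⟩
      · rw [biUnion_insert, union_comm]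
        exact h1
      · intro i hi
        rcases mem_insert.1 hi with rfl | hi
        · exact h2
        · exact fun p hp q hq hpq => (hcl i hi p hp q hq hpq).imp (hm _ _) (hm _ _)
  have hm : 0 < m := r.pos
  obtain ⟨A, hA, -, -, E, hE, hcl⟩ := key (m - 1) (by omega)
  have hAu : A = univ := eq_univ_of_card A (by rw [Fintype.card_fin]; omega)
  subst hAu
  have hU : (univ : Finset (Fin m)).biUnion B = univ := by
    refine eq_univ_of_forall fun v => ?_
    obtain ⟨i, hi⟩ := hcov v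
    exact mem_biUnion.2 ⟨i, mem_univ _, hi⟩
  rw [hU] at hE
  refine ⟨E, ?_, fun p q hpq => ?_⟩
  · rcases hE with ⟨h1, -⟩ | hE
    · have := Fintype.one_lt_card (α := W)
      rw [card_univ] at h1
      omega
    · exact hE
  · obtain ⟨i, hp, hq⟩ := hedge p q hpq
    exact hcl i (mem_univ _) p hp q hq hpq.ne

lemma TreewidthLE.induce {L : SimpleGraph W} {r : ℕ} (h : TreewidthLE L r) (s : Set W) :
    TreewidthLE (L.induce s) r := by
  obtain ⟨m, T, B, hT, hcov, hedge, hconn, hcard⟩ := h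
  refine ⟨m, T, fun i => (B i).subtype (· ∈ s), hT, fun v => ?_, fun u v huv => ?_, fun v => ?_,
    fun i => ?_⟩
  · obtain ⟨i, hi⟩ := hcov v
    exact ⟨i, mem_subtype.2 hi⟩
  · obtain ⟨i, h1, h2⟩ := hedge u v huv
    exact ⟨i, mem_subtype.2 h1, mem_subtype.2 h2⟩
  · have : {i | v ∈ (B i).subtype (· ∈ s)} = {i | (v : W) ∈ B i} := by
      ext i
      exact mem_subtype
    rw [this]
    exact hconn v
  · rw [card_subtype]
    exact (card_filter_le _ _).trans (hcard i)

/-- Potentials certifying the girth: `2k - 1` is a lower bound for the distance of the ends of an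
edge in the graph without that edge. -/
lemma exists_cert {L : SimpleGraph W} {k : ℕ} (hg : ((2 * k : ℕ) : ℕ∞) ≤ L.egirth) {x y : W}
    (hxy : L.Adj x y) : ∃ f : W → ℤ, (∀ p, 0 ≤ f p ∧ f p ≤ 2 * k) ∧
      (∀ p q, L.Adj p q → s(p, q) ≠ s(x, y) → |f p - f q| ≤ 1) ∧ 2 * k - 1 ≤ |f y - f x| := by
  let G := L.deleteEdges {s(x, y)}
  refine ⟨fun p => if G.Reachable x p then min (2 * k : ℤ) (G.dist x p) else 2 * k, fun p => ?_,
    fun p q hpq hne => ?_, ?_⟩
  · dsimp only
    split_ifs <;> omega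
  · have hG : G.Adj p q := SimpleGraph.deleteEdges_adj.2 ⟨hpq, by simpa using hne⟩
    have := hG.diff_dist_adj (u := x)
    dsimp only
    by_cases h : G.Reachable x p
    · rw [if_pos h, if_pos (h.trans hG.reachable), abs_le]
      omega
    · rw [if_neg h, if_neg fun h' => h (h'.trans hG.symm.reachable)]
      simp
  · dsimp only
    rw [if_pos (SimpleGraph.Reachable.refl x), SimpleGraph.dist_self]
    by_cases h : G.Reachable x y
    · obtain ⟨p, hp, hl⟩ := h.exists_path_of_dist
      have hle : G ≤ L := SimpleGraph.deleteEdges_le _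
      have hc : (SimpleGraph.Walk.cons hxy.symm (p.mapLe hle)).IsCycle := by
        rw [SimpleGraph.Walk.cons_isCycle_iff]
        refine ⟨hp.mapLe hle, ?_⟩
        rw [SimpleGraph.Walk.edges_mapLe_eq_edges]
        intro he
        have := p.edges_subset_edgeSet he
        rw [SimpleGraph.edgeSet_deleteEdges] at this
        exact this.2 Sym2.eq_swap
      have h1 := hg.trans (SimpleGraph.egirth_le_length hc)
      rw [SimpleGraph.Walk.length_cons, SimpleGraph.Walk.length_mapLe, hl, Nat.cast_le] at h1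
      rw [if_pos h, le_abs]
      omega
    · rw [if_neg h, le_abs]
      omega

end Pool.Agent.Lib.MP_efdbfd_co
end
end

-- part Pool.Agent.Lib.MP_efdbfd_co.Embed
section

/-! Drawing a weighted 2-tree of large girth in a host. -/

set_option autoImplicit false

open Finset
open scoped Classical

noncomputable section

namespace Pool.Agent.Lib.MP_efdbfd_co

variable {W V : Type} {k : ℕ}

/-- Every edge `p q` is drawn as an arc of length `t p q` of a good cycle `c p q`. -/
structure Draw (k : ℕ) (S : Finset W) (E : W → W → Prop) (β : W → W → ℕ)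
    (G : W → W → ℕ → (ℤ → V) → Prop) (φ : W → V) (t : W → W → ℕ) (c : W → W → ℤ → V) : Prop where
  inj : ∀ p ∈ S, ∀ q ∈ S, φ p = φ q → p = q
  ev : ∀ p q, E p q → G p q (t p q) (c p q) ∧ c p q 0 = φ p ∧ c p q (t p q) = φ q ∧
    Ty k (β p q) (t p q)
  res : ∀ p q, E p q → ∀ y ∈ Res k (β p q) (t p q) (c p q), (∀ v ∈ S, y ≠ φ v) ∧
    ∀ p' q', E p' q' → y ∈ Res k (β p' q') (t p' q') (c p' q') → p = p' ∧ q = q'

lemma Draw.step {S : Finset W} {E : W → W → Prop} {β : W → W → ℕ}
    {G : W → W → ℕ → (ℤ → V) → Prop} {φ : W → V} {t : W → W → ℕ} {c : W → W → ℤ → V}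
    (h : Draw k S E β G φ t c) (hE : ∀ p q, E p q → p ∈ S ∧ q ∈ S) {u w z : W} (hu : u ∈ S)
    (hw : w ∈ S) (huw : u ≠ w) (hz : z ∉ S) {s r : ℕ} {f g : ℤ → V} (hf : G u z s f)
    (hg : G w z r g) (f0 : f 0 = φ u) (g0 : g 0 = φ w) (fg : f s = g r) (hs : Ty k (β u z) s)
    (hr : Ty k (β w z) r) {Z : V → Prop} (Z1 : ∀ v ∈ S, Z (φ v))
    (Z2 : ∀ p q, E p q → ∀ y ∈ Res k (β p q) (t p q) (c p q), Z y) (h1 : ¬ Z (f s))
    (h2 : ∀ y ∈ Res k (β u z) s f, ¬ Z y ∧ y ≠ f s ∧ y ∉ Res k (β w z) r g)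
    (h3 : ∀ y ∈ Res k (β w z) r g, ¬ Z y ∧ y ≠ f s) :
    ∃ φ t c, Draw k (insert z S) (fun p q => E p q ∨ ((p = u ∨ p = w) ∧ q = z)) β G φ t c := by
  have ne : ∀ p ∈ S, p ≠ z := fun p hp e => hz (e ▸ hp)
  refine ⟨fun p => if p = z then f s else φ p,
    fun p q => if q = z then if p = u then s else r else t p q,
    fun p q => if q = z then if p = u then f else g else c p q, ?_, ?_, ?_⟩
  · simp only [mem_insert, forall_eq_or_imp, if_true, implies_true, true_and]
    exact ⟨fun q hq e => by rw [if_neg (ne q hq)] at e; exact absurd (e ▸ Z1 q hq) h1,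
      fun p hp => by
        rw [if_neg (ne p hp)]
        exact ⟨fun e => absurd (e ▸ Z1 p hp) h1, fun q hq e => by
          rw [if_neg (ne q hq)] at e; exact h.inj p hp q hq e⟩⟩
  · rintro p q (e | ⟨rfl | rfl, rfl⟩)
    · simpa [ne p (hE p q e).1, ne q (hE p q e).2] using h.ev p q e
    · simp [*, ne p hu]
    · simp [*, ne p hw, huw.symm]
  · have key : ∀ y, ¬ Z y → y ≠ f s → ∀ v ∈ insert z S, y ≠ if v = z then f s else φ v :=
      fun y a b v hv => by
        split_ifs with e
        · exact b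
        · exact fun e' => a (e' ▸ Z1 v (mem_of_mem_insert_of_ne hv e))
    rintro p q (e | ⟨rfl | rfl, rfl⟩) y hy
    · simp only [ne q (hE p q e).2, if_false] at hy
      refine ⟨fun v hv => ?_, ?_⟩
      · split_ifs with e'
        · exact fun e'' => h1 (e'' ▸ Z2 p q e y hy)
        · exact (h.res p q e y hy).1 v (mem_of_mem_insert_of_ne hv e')
      · rintro p' q' (e' | ⟨rfl | rfl, rfl⟩) hy'
        · simp only [ne q' (hE p' q' e').2, if_false] at hy'
          exact (h.res p q e y hy).2 p' q' e' hy'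
        · simp only [if_true] at hy'
          exact absurd (Z2 p q e y hy) (h2 y hy').1
        · simp only [if_true, huw.symm, if_false] at hy'
          exact absurd (Z2 p q e y hy) (h3 y hy').1
    · simp only [if_true] at hy
      refine ⟨key y (h2 y hy).1 (h2 y hy).2.1, ?_⟩
      rintro p' q' (e' | ⟨rfl | rfl, rfl⟩) hy'
      · simp only [ne q' (hE p' q' e').2, if_false] at hy'
        exact absurd (Z2 p' q' e' y hy') (h2 y hy).1
      · exact ⟨rfl, rfl⟩
      · simp only [if_true, huw.symm, if_false] at hy'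
        exact absurd hy' (h2 y hy).2.2
    · simp only [if_true, huw.symm, if_false] at hy
      refine ⟨key y (h3 y hy).1 (h3 y hy).2, ?_⟩
      rintro p' q' (e' | ⟨rfl | rfl, rfl⟩) hy'
      · simp only [ne q' (hE p' q' e').2, if_false] at hy'
        exact absurd (Z2 p' q' e' y hy') (h3 y hy).1
      · simp only [if_true] at hy'
        exact absurd hy (h2 y hy').2.2
      · exact ⟨rfl, rfl⟩

/-- Every cycle of the weighted graph has weight at least `2k`, certified by potentials. -/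
def Cert (k : ℕ) (E : W → W → Prop) (β : W → W → ℕ) : Prop :=
  ∀ x y, E x y → ∃ f : W → ℤ, (∀ p q, E p q → ¬ (p = x ∧ q = y) → |f p - f q| ≤ β p q) ∧
    2 * k - β x y ≤ |f y - f x|

lemma Cert.step {S : Finset W} {E : W → W → Prop} {β : W → W → ℕ}
    (hE : ∀ p q, E p q → q ∈ S) {u w z : W} (e : E u w) (huw : u ≠ w) (hz : z ∉ S)
    (h : Cert k (fun p q => E p q ∨ ((p = u ∨ p = w) ∧ q = z)) β) :
    2 * k ≤ β u w + β w z + β u z ∧
      Cert k E fun p q => if p = u ∧ q = w then min (β u w) (β u z + β w z) else β p q := by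
  have ne : ∀ p q, E p q → q ≠ z := fun p q hp e => hz (e ▸ hE p q hp)
  have h1 : ∀ x y, E x y → ∃ f : W → ℤ, (∀ p q, E p q → ¬ (p = x ∧ q = y) → |f p - f q| ≤ β p q) ∧
      2 * k - β x y ≤ |f y - f x| ∧ |f u - f w| ≤ β u z + β w z := fun x y exy => by
    obtain ⟨f, a, b⟩ := h x y (Or.inl exy)
    have a1 := a u z (by simp) fun e => ne x y exy e.2.symm
    have a2 := a w z (by simp) fun e => ne x y exy e.2.symm
    exact ⟨f, fun p q e => a p q (Or.inl e), b, by
      rw [abs_le] at *; constructor <;> linarith [a1.1, a1.2, a2.1, a2.2]⟩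
  refine ⟨?_, fun x y exy => ?_⟩
  · obtain ⟨f, -, b, c⟩ := h1 u w e
    rw [abs_sub_comm] at c
    omega
  by_cases hxy : (x = u ∧ y = w) ∧ β u z + β w z < β u w
  · obtain ⟨⟨rfl, rfl⟩, hlt⟩ := hxy
    obtain ⟨f, a, b⟩ := h x z (by simp)
    have a2 := a y z (by simp) fun e => huw e.1.symm
    refine ⟨f, fun p q e e' => ?_, ?_⟩
    · simp only [if_neg e']; exact a p q (Or.inl e) fun e'' => ne p q e e''.2
    · have := abs_sub_le (f z) (f y) (f x)
      rw [abs_sub_comm] at a2
      simp only [and_self, if_true, min_eq_right hlt.le]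
      push_cast
      linarith
  · obtain ⟨f, a, b, c⟩ := h1 x y exy
    refine ⟨f, fun p q e e' => ?_, ?_⟩ <;> beta_reduce
    · split_ifs with e''
      · obtain ⟨rfl, rfl⟩ := e''
        push_cast
        exact le_min (a p q e e') c
      · exact a p q e e'
    · split_ifs with e''
      · obtain ⟨rfl, rfl⟩ := e''
        rwa [min_eq_left (by simpa using hxy)]
      · exact b

theorem embed (hk : 2 ≤ k) (col : W → ℕ) {Sml D : W → W → Prop} {S : Finset W}
    {E : W → W → Prop} (h : TT Sml D S E) : ∀ β : W → W → ℕ,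
    (∀ p q, E p q → 1 ≤ β p q ∧ β p q % 2 = (col p + col q) % 2) →
    (k ≤ 4 ∨ ∀ p q, Sml p q → β p q ≤ 3) → (∀ p q, D p q → k ≤ β p q) → Cert k E β →
    ∀ A : ℝ, 0 ≤ A → ∃ A' : ℝ, 0 ≤ A' ∧ ∀ (V : Type) [Fintype V] (n : ℕ) [NeZero n] (M : V → V → ℝ)
      (ε : ℝ) (G : W → W → ℕ → (ℤ → V) → Prop), Host n M ε → n = 2 * k → A' * ε < 1 →
      (∀ p q i, Sm n M (A * ε) (G p q i)) → ∃ φ t c, Draw k S E β G φ t c := by
  induction h with
  | @base u w huw =>
    intro β hβ _ _ _ A hA
    refine ⟨A + 4 * k ^ 2, by positivity, fun V _ n _ M ε G H hn hε hG => ?_⟩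
    obtain ⟨t, ht, -⟩ := exists_ty hk (hβ u w ⟨rfl, rfl⟩).1
    obtain ⟨c, hc, cc⟩ := ((hG u w t).and H (sm_cyc H)).exists H
      (by subst hn; push_cast; linarith)
    have ht' := ht
    unfold Ty at ht'
    have h0 : ∀ j : ℤ, 0 < j → j ≤ t → c j ≠ c 0 := fun j a b e => by
      have := cc.inj _ _ (abs_lt.2 ⟨by omega, by omega⟩) e
      omega
    refine ⟨fun p => if p = u then c 0 else c t, fun _ _ => t, fun _ _ => c, ?_, ?_, ?_⟩
    · have := h0 t (by omega) le_rfl
      simp [huw.symm, this, this.symm]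
    · rintro p q ⟨rfl, rfl⟩
      simp [*, huw.symm]
    · rintro p q ⟨rfl, rfl⟩ y hy
      obtain ⟨-, j, j1, j2, rfl⟩ := mem_Res.1 hy
      refine ⟨fun v _ => ?_, fun p' q' e _ => ⟨e.1.symm, e.2.symm⟩⟩
      split_ifs
      · exact h0 j j1 j2.le
      · intro e
        have := cc.inj _ _ (abs_lt.2 ⟨by omega, by omega⟩) e
        omega
  | @step S E u w z hT e hz hD hS ih =>
    intro β hβ hS' hD' hC A hA
    obtain ⟨hu, hw, huw, -⟩ := hT.mem e
    obtain ⟨hg, hC'⟩ := Cert.step (E := E) (fun p q e => (hT.mem e).2.1) e huw hz hC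
    have b1 := hβ u w (Or.inl e)
    have b2 := hβ u z (by simp)
    have b3 := hβ w z (by simp)
    set N := S.card + (S ×ˢ S).card * k with hN
    obtain ⟨A', hA', H'⟩ := ih _ (fun p q e' => by
        split_ifs with e''
        · obtain ⟨rfl, rfl⟩ := e''
          omega
        · exact hβ p q (Or.inl e'))
      (hS'.imp_right fun h p q e' => by
        have := h p q e'
        split_ifs with e''
        · obtain ⟨rfl, rfl⟩ := e''
          omega
        · exact this)
      (fun p q e' => by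
        rw [if_neg fun e'' => hD (by rwa [← e''.1, ← e''.2])]; exact hD' p q e')
      hC' (5 * A + 24 * k ^ 2 + 3 * N * k) (by positivity)
    refine ⟨A', hA', fun V _ n _ M ε G H hn hε hG => ?_⟩
    obtain ⟨φ, t, c, hd⟩ := H' V n M ε (fun p q a x => G p q a x ∧ Cyc n M x ∧
        G u z (β u z) x ∧ G w z (β w z) (fun j => x (a - j)) ∧
        (1 ≤ a → a ≤ k → (a + β w z + β u z) % 2 = 0 → 2 * k ≤ a + β w z + β u z →
          ∃ s r, Ty k (β u z) s ∧ Ty k (β w z) r ∧
            Ext k N a (β w z) (β u z) s r (G u z s) (G w z r) x)) H hn hε fun p q a => by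
      have h0 := H.eps_nonneg
      refine ((hG p q a).and H ((sm_cyc H).and H ((hG u z _).and H (((hG w z _).refl H a).and H
        (η' := 2 * (A * ε) + (20 * k ^ 2 + 3 * N * k) * ε) ?_)))).mono H
        (le_of_eq (by subst hn; push_cast; ring)) fun _ => id
      by_cases ha : 1 ≤ a ∧ a ≤ k ∧ (a + β w z + β u z) % 2 = 0 ∧ 2 * k ≤ a + β w z + β u z
      · obtain ⟨s, r, hs, hr, h⟩ := local_ext hk ha.1 ha.2.1 b3.1 b2.1 ha.2.2.1 ha.2.2.2 (by
          have := hD' u z
          have := hD' w z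
          rcases hS' with h | h
          · omega
          · have := h u z
            have := h w z
            rcases hS with h | h | h | h <;> simp only [h, true_imp_iff] at * <;> omega)
        exact (h V n M ε _ N _ _ H hn (hG u z s) (hG w z r)).mono H le_rfl
          fun x hx _ _ _ _ => ⟨s, r, hs, hr, hx⟩
      · exact Sm.of_forall H (by positivity) fun x a1 a2 a3 a4 => absurd ⟨a1, a2, a3, a4⟩ ha
    obtain ⟨⟨-, cc, g1, g2, g3⟩, l, r, ty⟩ := hd.ev u w e
    simp only [and_self, if_true, Ty] at ty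
    have sub : ∀ p q y, y ∈ Res k (β p q) (t p q) (c p q) → y ∈ Res k (if p = u ∧ q = w then
        min (β u w) (β u z + β w z) else β p q) (t p q) (c p q) := fun p q y hy => by
      rw [mem_Res] at *
      refine ⟨?_, hy.2⟩
      split_ifs with e''
      · obtain ⟨rfl, rfl⟩ := e''
        omega
      · exact hy.1
    have hd' : Draw k S E β G φ t c := ⟨hd.inj, fun p q e' => by
        obtain ⟨a1, a2, a3, a4⟩ := hd.ev p q e'
        refine ⟨a1.1, a2, a3, ?_⟩
        split_ifs at a4 with e''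
        · obtain ⟨rfl, rfl⟩ := e''
          unfold Ty; omega
        · exact a4,
      fun p q e' y hy => ⟨(hd.res p q e' y (sub p q y hy)).1,
        fun p' q' e'' hy' => (hd.res p q e' y (sub p q y hy)).2 p' q' e'' (sub p' q' y hy')⟩⟩
    have hE : ∀ p q, E p q → p ∈ S ∧ q ∈ S := fun p q e => ⟨(hT.mem e).1, (hT.mem e).2.1⟩
    by_cases hlt : t u w + β w z + β u z < 2 * k
    · have ht : t u w = β u z + β w z := by omega
      have hZ : ∀ j : ℤ, 0 < j → j < t u w → ¬ ((∃ v ∈ S, φ v = c u w j) ∨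
          ∃ p q, E p q ∧ c u w j ∈ Res k (β p q) (t p q) (c p q)) := fun j j1 j2 => by
        have := hd.res u w e (c u w j) (mem_Res.2 ⟨by simp; omega, j, j1, j2, rfl⟩)
        rintro (⟨v, hv, e'⟩ | ⟨p, q, e', hy⟩)
        · exact this.1 v hv e'.symm
        · obtain ⟨rfl, rfl⟩ := this.2 p q e' (sub p q _ hy)
          have := (mem_Res.1 hy).1
          omega
      have hi : ∀ i j : ℤ, 0 ≤ i → i < j → j ≤ t u w → c u w i ≠ c u w j := fun i j a b d e => by
        have := cc.inj _ _ (abs_lt.2 ⟨by omega, by omega⟩) e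
        omega
      refine hd'.step hE hu hw huw hz g1 g2 l (by simpa using r) (by simp [ht])
        (by unfold Ty; omega) (by unfold Ty; omega)
        (Z := fun y => (∃ v ∈ S, φ v = y) ∨ ∃ p q, E p q ∧ y ∈ Res k (β p q) (t p q) (c p q))
        (fun v hv => Or.inl ⟨v, hv, rfl⟩) (fun p q e y hy => Or.inr ⟨p, q, e, hy⟩)
        (hZ _ (by omega) (by omega)) (fun y hy => ?_) fun y hy => ?_
      · obtain ⟨-, j, j1, j2, rfl⟩ := mem_Res.1 hy
        refine ⟨hZ _ j1 (by omega), hi _ _ j1.le j2 (by omega), fun h => ?_⟩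
        obtain ⟨-, i, i1, i2, h⟩ := mem_Res.1 h
        exact hi _ _ j1.le (by omega) (by omega) h.symm
      · obtain ⟨-, j, j1, j2, rfl⟩ := mem_Res.1 hy
        exact ⟨hZ _ (by omega) (by omega), (hi _ _ (by omega) (by omega) (by omega)).symm⟩
    · obtain ⟨s, r', hs, hr, hx⟩ := g3 ty.1 ty.2.1 (by omega) (by omega)
      obtain ⟨f, g, a1, a2, a3, a4, a5, a6, a7, a8⟩ := hx (S.image φ ∪
        ((S ×ˢ S).filter fun p => E p.1 p.2).biUnion
          fun p => Res k (β p.1 p.2) (t p.1 p.2) (c p.1 p.2)) ((card_union_le _ _).trans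
        (add_le_add card_image_le ((card_biUnion_le_card_mul _ _ k fun p hp => by
          have := (hd'.ev _ _ (mem_filter.1 hp).2).2.2.2.2.1
          unfold Res
          split_ifs
          · exact card_image_le.trans (by simp; omega)
          · simp).trans (Nat.mul_le_mul_right _ (card_filter_le _ _)))))
      exact hd'.step hE hu hw huw hz a1 a2 (a3.trans l) (a4.trans r) a5 hs hr
        (fun v hv => mem_union_left _ (mem_image_of_mem _ hv))
        (fun p q e y hy => mem_union_right _ (mem_biUnion.2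
          ⟨(p, q), mem_filter.2 ⟨mem_product.2 (hE p q e), e⟩, hy⟩)) a6 a7 a8

end Pool.Agent.Lib.MP_efdbfd_co
end
end

-- part Pool.Agent.Lib.MP_efdbfd_co.Outer
section

/-! Outerplanar graphs are subgraphs of 2-trees. -/

set_option autoImplicit false

open Finset
open scoped Classical

noncomputable section

namespace Pool.Agent.Lib.MP_efdbfd_co

variable {W : Type}

/-- Dead pairs: consecutive positions that are not adjacent. -/
def outerD (L : SimpleGraph W) (pos : W → ℕ) (p q : W) : Prop :=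
  (∀ x, ¬ (pos p < pos x ∧ pos x < pos q)) ∧ (∀ x, ¬ (pos q < pos x ∧ pos x < pos p)) ∧
    ¬ L.Adj p q

/-- Vertices strictly between `i` and `j`. -/
def outerIn [Fintype W] (pos : W → ℕ) (i j : W) : Finset W :=
  univ.filter fun x => pos i < pos x ∧ pos x < pos j

lemma outer_mem [Fintype W] {pos : W → ℕ} {i j x : W} :
    x ∈ outerIn pos i j ↔ pos i < pos x ∧ pos x < pos j := by
  simp [outerIn]

lemma outer_choose [Fintype W] {L : SimpleGraph W} {pos : W → ℕ} (hinj : Function.Injective pos)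
    (hc : ∀ a b c d, L.Adj a b → L.Adj c d → ¬ (pos a < pos c ∧ pos c < pos b ∧ pos b < pos d))
    {i j : W} (hne : (outerIn pos i j).Nonempty) :
    ∃ z, pos i < pos z ∧ pos z < pos j ∧ (L.Adj i z ∨ outerD L pos i z) ∧
      ∀ p q, L.Adj p q → pos i ≤ pos p → pos p < pos z → pos z < pos q → pos q ≤ pos j →
        p = i ∧ q = j := by
  by_cases h1 : ((outerIn pos i j).filter fun x => L.Adj i x).Nonempty
  · obtain ⟨z, hz, hmax⟩ := exists_max_image _ pos h1
    rw [mem_filter, outer_mem] at hz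
    refine ⟨z, hz.1.1, hz.1.2, Or.inl hz.2, ?_⟩
    intro p q hpq h1 h2 h3 h4
    have hp : p = i := by
      by_contra hp
      have : pos i < pos p := lt_of_le_of_ne h1 fun h => hp (hinj h).symm
      exact hc i z p q hz.2 hpq ⟨this, h2, h3⟩
    subst hp
    refine ⟨rfl, ?_⟩
    by_contra hq
    have h5 : pos q < pos j := lt_of_le_of_ne h4 fun h => hq (hinj h)
    have := hmax q (by rw [mem_filter, outer_mem]; exact ⟨⟨by omega, h5⟩, hpq⟩)
    omega
  · obtain ⟨z, hz, hmin⟩ := exists_min_image _ pos hne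
    have hz' := outer_mem.1 hz
    have hno : ∀ x, pos i < pos x → pos x < pos j → ¬ L.Adj i x := by
      intro x a b c
      exact h1 ⟨x, by rw [mem_filter, outer_mem]; exact ⟨⟨a, b⟩, c⟩⟩
    refine ⟨z, hz'.1, hz'.2, Or.inr ⟨?_, ?_, hno z hz'.1 hz'.2⟩, ?_⟩
    · rintro x ⟨a, b⟩
      have := hmin x (outer_mem.2 ⟨a, by omega⟩)
      omega
    · rintro x ⟨a, b⟩
      omega
    · intro p q hpq h1 h2 h3 h4
      have hp : p = i := by
        by_contra hp
        have h5 : pos i < pos p := lt_of_le_of_ne h1 fun h => hp (hinj h).symm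
        have := hmin p (outer_mem.2 ⟨h5, by omega⟩)
        omega
      subst hp
      refine ⟨rfl, ?_⟩
      by_contra hq
      have h5 : pos q < pos j := lt_of_le_of_ne h4 fun h => hq (hinj h)
      exact hno q (by omega) h5 hpq

lemma outer_fill [Fintype W] {L : SimpleGraph W} {pos : W → ℕ} (hinj : Function.Injective pos)
    (hc : ∀ a b c d, L.Adj a b → L.Adj c d → ¬ (pos a < pos c ∧ pos c < pos b ∧ pos b < pos d))
    (n : ℕ) : ∀ (i j : W) (S : Finset W) (E : W → W → Prop), pos j - pos i ≤ n →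
      TT L.Adj (outerD L pos) S E → (E i j ∨ E j i) →
      (∀ x ∈ S, ¬ (pos i < pos x ∧ pos x < pos j)) →
      ∃ E', TT L.Adj (outerD L pos) (S ∪ outerIn pos i j) E' ∧ (∀ p q, E p q → E' p q) ∧
        ∀ p q, L.Adj p q → pos i ≤ pos p → pos p < pos q → pos q ≤ pos j → E' p q ∨ E' q p := by
  induction n with
  | zero =>
    intro i j S E hn hT hE hS
    have h0 : outerIn pos i j = ∅ := by
      ext x
      simp only [outer_mem, notMem_empty, iff_false]
      omega
    refine ⟨E, by rw [h0, union_empty]; exact hT, fun _ _ h => h, ?_⟩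
    intro p q _ h1 h2 h3
    omega
  | succ n ih =>
    intro i j S E hn hT hE hS
    by_cases hne : (outerIn pos i j).Nonempty
    · obtain ⟨z, hz1, hz2, hz3, hz4⟩ := outer_choose hinj hc hne
      have hzS : z ∉ S := fun h => hS z h ⟨hz1, hz2⟩
      have h1 : ∃ E1, TT L.Adj (outerD L pos) (insert z S) E1 ∧ (∀ p q, E p q → E1 p q) ∧
          E1 i z ∧ E1 j z := by
        rcases hE with hE | hE
        · refine ⟨_, TT.step hT hE hzS (fun h => h.1 z ⟨hz1, hz2⟩) ?_, fun _ _ h => Or.inl h,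
            Or.inr ⟨Or.inl rfl, rfl⟩, Or.inr ⟨Or.inr rfl, rfl⟩⟩
          rcases hz3 with h | h
          · exact Or.inl h
          · exact Or.inr (Or.inr (Or.inl h))
        · refine ⟨_, TT.step hT hE hzS (fun h => h.2.1 z ⟨hz1, hz2⟩) ?_, fun _ _ h => Or.inl h,
            Or.inr ⟨Or.inr rfl, rfl⟩, Or.inr ⟨Or.inl rfl, rfl⟩⟩
          rcases hz3 with h | h
          · exact Or.inr (Or.inl h)
          · exact Or.inr (Or.inr (Or.inr h))
      obtain ⟨E1, hT1, hm1, hiz, hjz⟩ := h1
      obtain ⟨E2, hT2, hm2, hc2⟩ := ih i z (insert z S) E1 (by omega) hT1 (Or.inl hiz) (by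
        intro x hx
        rcases mem_insert.1 hx with rfl | hx
        · omega
        · have := hS x hx
          omega)
      obtain ⟨E3, hT3, hm3, hc3⟩ := ih z j _ E2 (by omega) hT2 (Or.inr (hm2 _ _ hjz)) (by
        intro x hx
        rcases mem_union.1 hx with hx | hx
        · rcases mem_insert.1 hx with rfl | hx
          · omega
          · have := hS x hx
            omega
        · have := outer_mem.1 hx
          omega)
      have hset : insert z S ∪ outerIn pos i z ∪ outerIn pos z j = S ∪ outerIn pos i j := by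
        ext x
        simp only [mem_union, mem_insert, outer_mem]
        constructor
        · rintro (((rfl | h) | h) | h)
          · exact Or.inr ⟨hz1, hz2⟩
          · exact Or.inl h
          · exact Or.inr ⟨h.1, by omega⟩
          · exact Or.inr ⟨by omega, h.2⟩
        · rintro (h | h)
          · exact Or.inl (Or.inl (Or.inr h))
          · rcases lt_trichotomy (pos x) (pos z) with h' | h' | h'
            · exact Or.inl (Or.inr ⟨h.1, h'⟩)
            · exact Or.inl (Or.inl (Or.inl (hinj h')))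
            · exact Or.inr ⟨h', h.2⟩
      refine ⟨E3, hset ▸ hT3, fun p q h => hm3 _ _ (hm2 _ _ (hm1 _ _ h)), ?_⟩
      intro p q hpq a b c
      by_cases h1 : pos q ≤ pos z
      · exact (hc2 p q hpq a b h1).imp (hm3 _ _) (hm3 _ _)
      by_cases h2 : pos z ≤ pos p
      · exact hc3 p q hpq h2 b c
      obtain ⟨rfl, rfl⟩ := hz4 p q hpq a (by omega) (by omega) c
      exact hE.imp (fun h => hm3 _ _ (hm2 _ _ (hm1 _ _ h)))
        fun h => hm3 _ _ (hm2 _ _ (hm1 _ _ h))
    · have h0 : outerIn pos i j = ∅ := not_nonempty_iff_eq_empty.1 hne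
      have hno : ∀ x, ¬ (pos i < pos x ∧ pos x < pos j) := fun x h => hne ⟨x, outer_mem.2 h⟩
      refine ⟨E, by rw [h0, union_empty]; exact hT, fun _ _ h => h, ?_⟩
      intro p q _ h1 h2 h3
      have hp : p = i := hinj (by have := hno p; omega)
      have hq : q = j := hinj (by have := hno q; omega)
      subst hp hq
      exact hE

lemma tt_of_outer [Fintype W] [Nontrivial W] {L : SimpleGraph W} (h : Outerplanar L) :
    ∃ D E, (∀ p q, D p q → ¬ L.Adj p q) ∧ TT L.Adj D univ E ∧
      ∀ p q, L.Adj p q → E p q ∨ E q p := by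
  obtain ⟨pos, hinj, hc⟩ := h
  obtain ⟨i, -, hi⟩ := exists_min_image (univ : Finset W) pos univ_nonempty
  obtain ⟨j, -, hj⟩ := exists_max_image (univ : Finset W) pos univ_nonempty
  have hij : i ≠ j := by
    rintro rfl
    obtain ⟨x, hx⟩ := exists_ne i
    exact hx (hinj (le_antisymm (hj x (mem_univ _)) (hi x (mem_univ _))))
  obtain ⟨E, hT, -, hE⟩ := outer_fill hinj hc (pos j - pos i) i j {i, j}
    (fun p q => p = i ∧ q = j) le_rfl (TT.base hij) (Or.inl ⟨rfl, rfl⟩) (by
      intro x hx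
      rcases mem_insert.1 hx with rfl | hx
      · omega
      · rw [mem_singleton] at hx
        subst hx
        omega)
  have hset : ({i, j} : Finset W) ∪ outerIn pos i j = univ := by
    ext x
    simp only [mem_union, mem_insert, mem_singleton, outer_mem, mem_univ, iff_true]
    have a := hi x (mem_univ _)
    have b := hj x (mem_univ _)
    rcases a.eq_or_lt with a | a
    · exact Or.inl (Or.inl (hinj a).symm)
    rcases b.eq_or_lt with b | b
    · exact Or.inl (Or.inr (hinj b))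
    exact Or.inr ⟨a, b⟩
  refine ⟨outerD L pos, E, fun p q h => h.2.2, hset ▸ hT, ?_⟩
  intro p q hpq
  rcases lt_trichotomy (pos p) (pos q) with h | h | h
  · exact hE p q hpq (hi p (mem_univ _)) h (hj q (mem_univ _))
  · exact absurd (hinj h) hpq.ne
  · exact (hE q p hpq.symm (hi q (mem_univ _)) h (hj p (mem_univ _))).symm

lemma Outerplanar.induce {L : SimpleGraph W} (h : Outerplanar L) (s : Set W) :
    Outerplanar (L.induce s) := by
  obtain ⟨pos, hinj, hc⟩ := h
  exact ⟨fun x => pos x, hinj.comp Subtype.val_injective,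
    fun a b c d hab hcd => hc a b c d hab hcd⟩

end Pool.Agent.Lib.MP_efdbfd_co
end
end
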