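import Pool.Agent.Lib.MP_efdbfd_co.Defs
import Pool.Agent.Lib.MP_153e93_co.Graph
import Pool.Agent.Lib.MP_efdbfd_co.Outer

-- part Pool.Agent.Lib.MP_efdbfd_co.Extr
section

/-! From minimum degree to extremal numbers; lower bounds for cycles; comparison lemmas. -/

set_option autoImplicit false

open Finset SimpleGraph Filter Asymptotics
open scoped Classical

noncomputable section

namespace Pool.Agent.Lib.MP_efdbfd_co

/-- `ex(n, L) = O(n^(1 + 1/k))`. -/
def Up {W : Type} (L : SimpleGraph W) (k : ℕ) : Prop :=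
  ∃ C : ℝ, ∀ n : ℕ, (extremalNumber n L : ℝ) ≤ C * (n : ℝ) ^ (1 + 1 / (k : ℝ))

/-- `ex(n, L) = Ω(n^(1 + 1/k))`. -/
def Low {W : Type} (L : SimpleGraph W) (k : ℕ) : Prop :=
  ∃ c : ℝ, 0 < c ∧ ∀ᶠ n : ℕ in atTop, c * (n : ℝ) ^ (1 + 1 / (k : ℝ)) ≤ extremalNumber n L

/-- Twice the number of edges inside `S`. -/
def extrD {V : Type} (G : SimpleGraph V) (S : Finset V) : ℝ :=
  ∑ u ∈ S, ∑ w ∈ S, if G.Adj u w then 1 else 0

lemma extrD_erase {V : Type} (G : SimpleGraph V) {S : Finset V} {v : V} (hv : v ∈ S) :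
    extrD G S = extrD G (S.erase v) + 2 * ((S.filter (G.Adj v)).card : ℝ) := by
  have e1 : ((S.filter (G.Adj v)).card : ℝ) = ∑ w ∈ S, if G.Adj v w then (1 : ℝ) else 0 := by
    simp
  have e2 : ∑ w ∈ S, (if G.Adj v w then (1 : ℝ) else 0) =
      ∑ u ∈ S.erase v, if G.Adj u v then (1 : ℝ) else 0 := by
    rw [← add_sum_erase S _ hv, if_neg (G.irrefl), zero_add]
    exact sum_congr rfl fun u _ => by simp only [G.adj_comm]
  have e3 : ∑ u ∈ S.erase v, ∑ w ∈ S, (if G.Adj u w then (1 : ℝ) else 0) =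
      (∑ u ∈ S.erase v, if G.Adj u v then (1 : ℝ) else 0) + extrD G (S.erase v) := by
    rw [extrD, ← sum_add_distrib]
    exact sum_congr rfl fun u _ => (add_sum_erase S _ hv).symm
  rw [extrD, ← add_sum_erase S _ hv, e3, ← e2, e1]
  ring

lemma extrD_univ {V : Type} [Fintype V] (G : SimpleGraph V) [DecidableRel G.Adj] :
    extrD G univ = 2 * (G.edgeFinset.card : ℝ) := by
  have h : ((∑ v, G.degree v : ℕ) : ℝ) = ((2 * G.edgeFinset.card : ℕ) : ℝ) := by
    rw [G.sum_degrees_eq_twice_card_edges]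
  push_cast at h
  rw [← h, extrD]
  refine sum_congr rfl fun u _ => ?_
  rw [← G.card_neighborFinset_eq_degree, G.neighborFinset_eq_filter, card_filter]
  push_cast
  exact sum_congr rfl fun w _ => by split_ifs <;> rfl

lemma extr_core {V : Type} [Fintype V] (G : SimpleGraph V) {δ : ℝ}
    (h : 2 * δ * Fintype.card V < extrD G univ) :
    ∃ S : Finset V, S.Nonempty ∧ ∀ v ∈ S, δ ≤ (S.filter (G.Adj v)).card := by
  obtain ⟨S, -, hS⟩ := exists_max_image (univ : Finset (Finset V))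
    (fun S => extrD G S - 2 * δ * S.card) univ_nonempty
  refine ⟨S, nonempty_iff_ne_empty.2 fun e => ?_, fun v hv => ?_⟩
  · have := hS univ (mem_univ _)
    rw [e, card_univ] at this
    simp only [extrD, sum_empty, card_empty, Nat.cast_zero, mul_zero, sub_zero] at this h
    linarith
  · have := hS (S.erase v) (mem_univ _)
    have e := extrD_erase G hv
    have c : (S.card : ℝ) = (S.erase v).card + 1 := by exact_mod_cast (card_erase_add_one hv).symm
    rw [e, c] at this
    linarith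

lemma extr_ncard {V : Type} (G : SimpleGraph V) (S : Finset V) (v : (S : Set V)) :
    ((G.induce (S : Set V)).neighborSet v).ncard = (S.filter (G.Adj v)).card := by
  rw [← Set.ncard_image_of_injective _ Subtype.val_injective, ← Set.ncard_coe_finset]
  congr 1
  ext w
  simp only [Set.mem_image, mem_neighborSet, coe_filter, Set.mem_ofPred_eq]
  exact ⟨fun ⟨x, hx, e⟩ => e ▸ ⟨x.2, hx⟩, fun ⟨a, b⟩ => ⟨⟨w, a⟩, b, rfl⟩⟩

lemma up_of_minDeg {W : Type} {L : SimpleGraph W} {k : ℕ} (hk : 1 ≤ k) {θ : ℝ} (hθ : 0 < θ)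
    (h : ∀ (V : Type) [Fintype V] [Nonempty V] (G : SimpleGraph V) (δ : ℝ), 0 < δ →
      (∀ v, δ ≤ (G.neighborSet v).ncard) → (Fintype.card V : ℝ) ≤ (θ * δ) ^ k → L ⊑ G) :
    Up L k := by
  refine ⟨2 / θ, fun n => ?_⟩
  have key := extremalNumber_le_iff_of_nonneg (V := Fin n) L
    (m := 2 / θ * (n : ℝ) ^ (1 + 1 / (k : ℝ))) (by positivity)
  rw [Fintype.card_fin] at key
  refine key.2 fun G _ hG => ?_
  by_contra hc
  rw [not_le] at hc
  have e0 : (0 : ℝ) < G.edgeFinset.card := lt_of_le_of_lt (by positivity) hc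
  have n0 : (0 : ℝ) < n := by
    rcases Nat.eq_zero_or_pos n with rfl | hn
    · obtain ⟨e, -⟩ := card_pos.1 (Nat.cast_pos.1 e0)
      induction e using Sym2.ind with
      | _ a b => exact a.elim0
    · exact_mod_cast hn
  obtain ⟨S, S0, hS⟩ := extr_core G (δ := G.edgeFinset.card / (2 * n)) (by
    rw [extrD_univ, Fintype.card_fin]
    have : 2 * ((G.edgeFinset.card : ℝ) / (2 * n)) * n = G.edgeFinset.card := by field_simp
    linarith)
  have : Nonempty (S : Set (Fin n)) := ⟨⟨S0.choose, S0.choose_spec⟩⟩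
  refine hG ((h (S : Set (Fin n)) (G.induce S) (G.edgeFinset.card / (2 * n)) (by positivity)
    (fun v => by rw [extr_ncard]; exact hS v v.2) ?_).trans ⟨Copy.induce G _⟩)
  have c1 : (Fintype.card (S : Set (Fin n)) : ℝ) ≤ n := by
    have := Fintype.card_le_of_injective (fun x : (S : Set (Fin n)) => x.1) Subtype.val_injective
    rw [Fintype.card_fin] at this
    exact_mod_cast this
  have c2 : (n : ℝ) ^ (1 / (k : ℝ)) ≤ θ * (G.edgeFinset.card / (2 * n)) := by
    rw [Real.rpow_add n0, Real.rpow_one, div_mul_eq_mul_div, div_lt_iff₀ hθ] at hc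
    rw [← mul_div_assoc, le_div_iff₀ (by positivity)]
    linarith
  have c3 := pow_le_pow_left₀ (by positivity) c2 k
  rw [one_div, Real.rpow_inv_natCast_pow n0.le (by omega)] at c3
  exact c1.trans c3

lemma extr_four {p n : ℕ} (pp : p.Prime) (hn : 2 * p ^ 2 ≤ n) :
    p ^ 3 ≤ extremalNumber n (cycleGraph 4) := by
  have := Fact.mk pp
  obtain ⟨ι⟩ : Nonempty ((ZMod p × ZMod p) ⊕ (ZMod p × ZMod p) ↪ Fin n) := by
    refine Function.Embedding.nonempty_of_card_le ?_
    simp only [Fintype.card_sum, Fintype.card_prod, ZMod.card, Fintype.card_fin]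
    nlinarith
  have key := Pool.Agent.Lib.MP_153e93_co.card_le_ex (n := n) (k := 2) le_rfl
    (E := ZMod p × ZMod p × ZMod p)
    (fun g => ι (Sum.inl (g.2.2, g.1 * g.2.2 + g.2.1))) (fun g => ι (Sum.inr (g.1, g.2.1)))
    (fun g g' h => by simpa using ι.injective h) ?_ ?_
  · simp only [Nat.card_prod, Nat.card_zmod] at key
    calc p ^ 3 = p * (p * p) := by ring
      _ ≤ _ := key
  · intro g g' h h'
    have e := ι.injective h
    have e' := ι.injective h'
    simp only [Prod.mk.injEq, Sum.inl.injEq, Sum.inr.injEq] at e e'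
    exact Prod.ext e'.1 (Prod.ext e'.2 e.1)
  · intro e he hcl
    obtain ⟨a1, a2, a3, a4⟩ := he 0
    obtain ⟨b1, -, b3, -⟩ := he 1
    have c1 := ι.injective a1
    have c3 := ι.injective a3
    have d1 := ι.injective b1
    have d3 := ι.injective b3
    simp only [Prod.mk.injEq, Sum.inl.injEq, Sum.inr.injEq, Nat.mul_zero, Nat.zero_add,
      Nat.mul_one, Nat.reduceAdd, Nat.reduceMul] at c1 c3 d1 d3 a2 a4 hcl
    rw [hcl] at d3
    have z : ((e 0).1 - (e 1).1) * ((e 0).2.2 - (e 2).2.2) = 0 := by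
      have u1 := c1.2
      have u2 := d1.2
      rw [← c1.1] at u1
      rw [← d1.1, d3.1, d3.2, ← c3.1, ← c3.2] at u2
      linear_combination u1 + u2
    rcases mul_eq_zero.1 z with z | z
    · have z := sub_eq_zero.1 z
      refine a2 (Prod.ext z (Prod.ext ?_ c1.1))
      have u1 := c1.2
      rw [← c1.1, ← z] at u1
      exact add_left_cancel u1
    · exact a4 (Prod.ext c3.1 (Prod.ext c3.2 (c1.1.symm.trans (sub_eq_zero.1 z))))

lemma low_four : Low (cycleGraph 4) 2 := by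
  refine ⟨1 / 27, by norm_num, (eventually_ge_atTop 8).mono fun n hn => ?_⟩
  have s1 : 1 ≤ Nat.sqrt (n / 8) := Nat.le_sqrt.2 (by omega)
  obtain ⟨p, pp, p1, p2⟩ := Nat.exists_prime_lt_and_le_two_mul (Nat.sqrt (n / 8)) (by omega)
  have s2 := Nat.sqrt_le (n / 8)
  have s3 := Nat.lt_succ_sqrt (n / 8)
  have a1 : 2 * p ^ 2 ≤ n := by
    have : p * p ≤ 2 * Nat.sqrt (n / 8) * (2 * Nat.sqrt (n / 8)) := Nat.mul_le_mul p2 p2
    have : 8 * (n / 8) ≤ n := Nat.mul_div_le n 8
    nlinarith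
  have a2 : n ≤ 9 * p ^ 2 := by
    have : (Nat.sqrt (n / 8)).succ * (Nat.sqrt (n / 8)).succ ≤ p * p := Nat.mul_le_mul p1 p1
    have : n < 8 * (n / 8 + 1) := by omega
    nlinarith
  have key : ((p ^ 3 : ℕ) : ℝ) ≤ extremalNumber n (cycleGraph 4) := by
    exact_mod_cast extr_four pp a1
  have a3 : (n : ℝ) ≤ 9 * p ^ 2 := by exact_mod_cast a2
  have n0 : (0 : ℝ) < n := by exact_mod_cast (show 0 < n by omega)
  have a4 : (n : ℝ) ^ (1 / ((2 : ℕ) : ℝ)) ≤ 3 * p := by
    refine le_of_pow_le_pow_left₀ (n := 2) (by omega) (by positivity) ?_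
    rw [one_div, Real.rpow_inv_natCast_pow n0.le (by omega)]
    linarith
  rw [Real.rpow_add n0, Real.rpow_one]
  have a5 := mul_le_mul a3 a4 (by positivity) (by positivity)
  push_cast at key
  linarith

lemma low_odd {k : ℕ} (hk : Odd k) (h3 : 3 ≤ k) : Low (cycleGraph (2 * k)) (4 * k / 3 - 1) :=
  ⟨1 / 16, by norm_num, (eventually_ge_atTop _).mono fun n hn =>
    Pool.Agent.Lib.MP_153e93_co.main k hk h3 n hn⟩

lemma Low.mono {W W' : Type} {L : SimpleGraph W} {L' : SimpleGraph W'} {k : ℕ} (h : Low L k)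
    (hL : L ⊑ L') : Low L' k := by
  obtain ⟨c, c0, hc⟩ := h
  exact ⟨c, c0, hc.mono fun n hn => hn.trans (by exact_mod_cast hL.extremalNumber_le)⟩

lemma extr_up_isBigO {W : Type} {L : SimpleGraph W} {k : ℕ} (h : Up L k) :
    (fun n : ℕ => (extremalNumber n L : ℝ)) =O[atTop]
      fun n : ℕ => (n : ℝ) ^ (1 + 1 / (k : ℝ)) := by
  obtain ⟨C, hC⟩ := h
  refine IsBigO.of_bound C (Eventually.of_forall fun n => ?_)
  rw [Real.norm_of_nonneg (by positivity), Real.norm_of_nonneg (by positivity)]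
  exact hC n

lemma extr_low_isBigO {W : Type} {L : SimpleGraph W} {k : ℕ} (h : Low L k) :
    (fun n : ℕ => (n : ℝ) ^ (1 + 1 / (k : ℝ))) =O[atTop]
      fun n : ℕ => (extremalNumber n L : ℝ) := by
  obtain ⟨c, c0, hc⟩ := h
  refine IsBigO.of_bound c⁻¹ (hc.mono fun n hn => ?_)
  rw [Real.norm_of_nonneg (by positivity), Real.norm_of_nonneg (by positivity),
    le_inv_mul_iff₀ c0]
  exact hn

lemma extr_rpow_isLittleO {a b : ℝ} (h : a < b) :
    (fun n : ℕ => (n : ℝ) ^ a) =o[atTop] fun n : ℕ => (n : ℝ) ^ b := by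
  have t := (tendsto_rpow_neg_atTop (sub_pos.2 h)).comp tendsto_natCast_atTop_atTop
  refine (isLittleO_iff_tendsto' ((eventually_gt_atTop 0).mono fun n hn e => ?_)).2
    (t.congr' ((eventually_gt_atTop 0).mono fun n hn => ?_))
  · exact absurd e (Real.rpow_pos_of_pos (by exact_mod_cast hn) _).ne'
  · simp only [Function.comp]
    rw [neg_sub, Real.rpow_sub (by exact_mod_cast hn)]

lemma isLittleO_of_up_low {W W' : Type} {L : SimpleGraph W} {L' : SimpleGraph W'} {k k' : ℕ}
    (hk : 1 ≤ k) (hkk : k < k') (h : Low L k) (h' : Up L' k') :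
    (fun n : ℕ => (extremalNumber n L' : ℝ)) =o[atTop] fun n : ℕ => (extremalNumber n L : ℝ) := by
  refine ((extr_up_isBigO h').trans_isLittleO (extr_rpow_isLittleO ?_)).trans_isBigO
    (extr_low_isBigO h)
  have : 1 / (k' : ℝ) < 1 / (k : ℝ) :=
    one_div_lt_one_div_of_lt (by exact_mod_cast hk) (by exact_mod_cast hkk)
  linarith

lemma not_isLittleO_of_up_low {W W' : Type} {L : SimpleGraph W} {L' : SimpleGraph W'} {k : ℕ}
    (h : Up L k) (h' : Low L' k) :
    ¬ (fun n : ℕ => (extremalNumber n L' : ℝ)) =o[atTop] fun n : ℕ => (extremalNumber n L : ℝ) := by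
  intro e
  refine isLittleO_irrefl ((eventually_gt_atTop 0).mono fun n hn => ?_).frequently
    (((extr_low_isBigO h').trans_isLittleO e).trans_isBigO (extr_up_isBigO h))
  exact (Real.rpow_pos_of_pos (by exact_mod_cast hn) _).ne'

/-- A cycle of `L` that avoids `v` is a cycle of `L - v`. -/
lemma cycle_induce {W : Type} {L : SimpleGraph W} {v a : W} {c : L.Walk a a} (hc : c.IsCycle)
    (hv : v ∉ c.support) : cycleGraph c.length ⊑ L.induce {v}ᶜ := by
  have hw : ∀ x ∈ c.support, x ∈ ({v}ᶜ : Set W) := fun x hx e => hv (e ▸ hx)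
  have e := Walk.map_induce c hw
  refine (cycleGraph_isContained_iff hc.three_le_length).2 ⟨_, c.induce _ hw, ?_, ?_⟩
  · exact Walk.IsCycle.of_map (f := (Embedding.induce _).toHom) (by rw [e]; exact hc)
  · exact (Walk.length_map (Embedding.induce _).toHom _).symm.trans (congrArg Walk.length e)

/-- In a bipartite graph of girth `2g`, deleting a vertex that lies on all cycles of length `2g`
leaves girth at least `2g + 2`. -/
lemma egirth_induce {W : Type} {L : SimpleGraph W} (hb : L.IsBipartite) {g : ℕ}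
    (hg : ((2 * g : ℕ) : ℕ∞) ≤ L.egirth) {v : W}
    (hv : ∀ a (c : L.Walk a a), c.IsCycle → c.length = 2 * g → v ∈ c.support) :
    ((2 * (g + 1) : ℕ) : ℕ∞) ≤ (L.induce {v}ᶜ).egirth := by
  refine le_egirth.2 fun a w hw => ?_
  have hc : (w.map (Embedding.induce _).toHom).IsCycle :=
    hw.map (f := (Embedding.induce _).toHom) Subtype.val_injective
  have h1 : 2 * g ≤ w.length := by
    have := hg.trans (egirth_le_length hc)
    rw [Walk.length_map] at this
    exact_mod_cast this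
  have h2 : w.length ≠ 2 * g := fun e => by
    have := hv _ _ hc (by rw [Walk.length_map, e])
    rw [Walk.support_map, List.mem_map] at this
    obtain ⟨x, -, hx⟩ := this
    exact x.2 hx
  have h3 : Even w.length := by
    have := ((recolorOfEquiv L finTwoEquiv hb.some).even_length_iff_congr
      (w.map (Embedding.induce _).toHom)).2 Iff.rfl
    rwa [Walk.length_map] at this
  obtain ⟨r, hr⟩ := h3
  exact_mod_cast (show 2 * (g + 1) ≤ w.length by omega)

/-- If `L` has a cycle then `L - v` has an edge. -/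
lemma induce_ne_bot {W : Type} {L : SimpleGraph W} {a : W} {c : L.Walk a a} (hc : c.IsCycle)
    (v : W) : L.induce {v}ᶜ ≠ ⊥ := by
  intro e
  have no : ∀ x y, L.Adj x y → x = v ∨ y = v := fun x y h => by
    by_contra hn
    rw [not_or] at hn
    have : (L.induce {v}ᶜ).Adj ⟨x, hn.1⟩ ⟨y, hn.2⟩ := h
    rw [e] at this
    exact this
  have h3 := hc.three_le_length
  obtain ⟨f⟩ := (cycleGraph_isContained_iff h3).2 ⟨_, c, hc, rfl⟩
  let u : ℕ → W := fun i => f ⟨i % c.length, Nat.mod_lt _ (by omega)⟩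
  have ua : ∀ i, L.Adj (u i) (u (i + 1)) := fun i =>
    f.toHom.map_adj (Pool.Agent.Lib.MP_153e93_co.cyc_adj (by omega) i)
  have un : ∀ i, u i ≠ u (i + 2) := fun i h =>
    Pool.Agent.Lib.MP_153e93_co.mod_ne h3 i (congrArg Fin.val (f.injective h))
  rcases no _ _ (ua 1) with h | h
  · rcases no _ _ (ua 2) with h' | h'
    · exact (ua 1).ne (h.trans h'.symm)
    · exact un 1 (h.trans h'.symm)
  · rcases no _ _ (ua 0) with h' | h'
    · exact un 0 (h'.trans h.symm)
    · exact (ua 1).ne (h'.trans h.symm)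

end Pool.Agent.Lib.MP_efdbfd_co
end
end

-- part Pool.Agent.Lib.MP_efdbfd_co.Host
section

/-! Graphs of large minimum degree are hosts. -/

set_option autoImplicit false

open Finset
open scoped Classical

noncomputable section

namespace Pool.Agent.Lib.MP_efdbfd_co

section aux

variable {V : Type} [Fintype V]

lemma host_spec (A : Matrix V V ℝ) (hA : A.IsHermitian) :
    ∃ (μ : V → V → ℝ) (l : V → ℝ), (∀ z i, 0 ≤ μ z i) ∧ (∀ i, ∑ z, μ z i = 1) ∧
      ∀ (m : ℕ) z, (A ^ m) z z = ∑ i, μ z i * l i ^ m := by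
  obtain ⟨U, hU⟩ : ∃ U, U = hA.eigenvectorUnitary := ⟨_, rfl⟩
  refine ⟨fun z i => (U : Matrix V V ℝ) z i ^ 2, hA.eigenvalues, fun z i => sq_nonneg _,
    fun i => ?_, fun m z => ?_⟩
  · have h := congrFun (congrFun (Unitary.coe_star_mul_self U) i) i
    rw [Matrix.mul_apply, Matrix.one_apply_eq] at h
    rw [← h]
    refine sum_congr rfl fun z _ => ?_
    simp [sq, Matrix.star_apply]
  · have h := hA.spectral_theorem
    rw [← hU] at h
    have h2 : A ^ m = (U : Matrix V V ℝ) * Matrix.diagonal (fun i => hA.eigenvalues i ^ m) *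
        star (U : Matrix V V ℝ) := by
      conv_lhs => rw [h, ← map_pow, Unitary.conjStarAlgAut_apply, Matrix.diagonal_pow]
      rfl
    rw [h2, Matrix.mul_apply]
    refine sum_congr rfl fun i _ => ?_
    rw [Matrix.mul_diagonal, Matrix.star_apply, star_trivial]
    ring

/-- ordered product of matrices -/
def hostW (B : ℕ → Matrix V V ℝ) : ℕ → Matrix V V ℝ
  | 0 => 1
  | m + 1 => hostW B m * B m

lemma host_path (B : ℕ → Matrix V V ℝ) (m : ℕ) : ∀ g : V → V → ℝ,
    ∑ c : Fin (m + 1) → V, (∏ i : Fin m, B i (c i.castSucc) (c i.succ)) * g (c 0) (c (Fin.last m)) =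
      ∑ u, ∑ w, hostW B m u w * g u w := by
  induction m with
  | zero =>
    intro g
    rw [← (Equiv.funUnique (Fin 1) V).symm.sum_comp]
    refine sum_congr rfl fun u _ => ?_
    simp [hostW, Matrix.one_apply]
  | succ m ih =>
    intro g
    rw [← (Fin.snocEquiv fun _ : Fin (m + 2) => V).sum_comp, Fintype.sum_prod_type_right]
    have e : ∀ u, ∑ w, hostW B (m + 1) u w * g u w =
        ∑ v, hostW B m u v * ∑ w, B m v w * g u w := by
      intro u
      simp only [hostW, Matrix.mul_apply, sum_mul, mul_sum]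
      rw [sum_comm]
      exact sum_congr rfl fun v _ => sum_congr rfl fun w _ => by ring
    rw [sum_congr rfl fun u _ => e u, ← ih fun u v => ∑ w, B m v w * g u w]
    refine sum_congr rfl fun c _ => ?_
    rw [mul_sum]
    refine sum_congr rfl fun x _ => ?_
    rw [Fin.prod_univ_castSucc]
    have h0 : (0 : Fin (m + 2)) = Fin.castSucc 0 := rfl
    simp only [Fin.snocEquiv_apply, Fin.succ_castSucc, Fin.succ_last, Fin.val_castSucc,
      Fin.val_last]
    rw [h0]
    simp only [Fin.snoc_castSucc, Fin.snoc_last]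
    ring

lemma host_cyc (B : ℕ → Matrix V V ℝ) (n : ℕ) [NeZero n] :
    ∑ c : ZMod n → V, ∏ i : ZMod n, B i.val (c i) (c (i + 1)) = ∑ u, hostW B n u u := by
  obtain ⟨m, rfl⟩ : ∃ m, n = m + 1 := ⟨n - 1, by have := NeZero.ne n; omega⟩
  have h := host_path B m fun u w => B m w u
  have e : ∀ u, ∑ w, hostW B m u w * B m w u = hostW B (m + 1) u u := fun u => rfl
  rw [sum_congr rfl fun u _ => e u] at h
  rw [← h]
  change ∑ c : Fin (m + 1) → V, ∏ i : Fin (m + 1), B i.val (c i) (c (i + 1)) = _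
  refine sum_congr rfl fun c _ => ?_
  rw [Fin.prod_univ_castSucc]
  simp only [Fin.coeSucc_eq_succ, Fin.last_add_one, Fin.val_castSucc, Fin.val_last]

lemma host_const (A : Matrix V V ℝ) (m : ℕ) : hostW (fun _ => A) m = A ^ m := by
  induction m with
  | zero => rw [pow_zero]; rfl
  | succ m ih => rw [pow_succ, ← ih]; rfl

lemma host_two (A P : Matrix V V ℝ) (a : ℕ) (ha : 0 < a) (b : ℕ) :
    hostW (fun i => if i = 0 ∨ i = a then P * A else A) (a + (b + 1)) =
      P * A ^ a * (P * A ^ (b + 1)) := by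
  have h1 : ∀ m, m < a → hostW (fun i => if i = 0 ∨ i = a then P * A else A) (m + 1) =
      P * A ^ (m + 1) := by
    intro m
    induction m with
    | zero => intro _; simp [hostW]
    | succ m ih =>
      intro hm
      rw [hostW, ih (by omega), if_neg (by omega), pow_succ A (m + 1), mul_assoc]
  induction b with
  | zero =>
    obtain ⟨m, rfl⟩ : ∃ m, a = m + 1 := ⟨a - 1, by omega⟩
    rw [zero_add, hostW, h1 m (by omega), if_pos (Or.inr rfl), pow_one]
  | succ b ih =>
    rw [← add_assoc, hostW, ih, if_neg (by omega), pow_succ A (b + 1)]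
    simp only [mul_assoc]

lemma host_tot (A : Matrix V V ℝ) (n : ℕ) [NeZero n] :
    ∑ c : ZMod n → V, wt A c = ∑ u, (A ^ n) u u := by
  rw [← host_const, ← host_cyc]
  rfl

lemma host_coll (A : Matrix V V ℝ) (n : ℕ) [NeZero n] (a : ℕ) (ha : 0 < a) (han : a < n) :
    ∑ c : ZMod n → V, (if c 0 ≠ c a then 0 else wt A c) =
      ∑ z, (A ^ a) z z * (A ^ (n - a)) z z := by
  have key : ∀ z, ∑ c : ZMod n → V, (if c 0 = z ∧ c a = z then wt A c else 0) =
      (A ^ a) z z * (A ^ (n - a)) z z := by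
    intro z
    obtain ⟨P, hP⟩ : ∃ P : Matrix V V ℝ, P = Matrix.diagonal fun u => if u = z then 1 else 0 :=
      ⟨_, rfl⟩
    have hPA : ∀ (X : Matrix V V ℝ) u w, (P * X) u w = if u = z then X u w else 0 := by
      intro X u w
      rw [hP, Matrix.diagonal_mul]
      split_ifs <;> simp
    have h := host_cyc (fun i => if i = 0 ∨ i = a then P * A else A) n
    obtain ⟨b, hb⟩ : ∃ b, n = a + (b + 1) := ⟨n - a - 1, by omega⟩
    have h2 : hostW (fun i => if i = 0 ∨ i = a then P * A else A) n =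
        P * A ^ a * (P * A ^ (n - a)) := by
      rw [show n - a = b + 1 by omega, ← host_two A P a ha b, ← hb]
    rw [h2] at h
    have h3 : ∑ u, (P * A ^ a * (P * A ^ (n - a))) u u = (A ^ a) z z * (A ^ (n - a)) z z := by
      simp only [mul_assoc, hPA, sum_ite_eq', mem_univ, if_true]
      rw [Matrix.mul_apply]
      simp only [hPA, mul_ite, mul_zero, sum_ite_eq', mem_univ, if_true]
    rw [← h3, ← h]
    refine sum_congr rfl fun c _ => ?_
    have hva : (a : ZMod n).val = a := ZMod.val_cast_of_lt han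
    split_ifs with hc
    · refine prod_congr rfl fun i _ => ?_
      split_ifs with hi
      · rw [hPA, if_pos]
        rcases hi with hi | hi
        · rw [(ZMod.val_eq_zero i).1 hi, hc.1]
        · rw [ZMod.val_injective n (hi.trans hva.symm), hc.2]
      · rfl
    · symm
      rw [not_and_or] at hc
      rcases hc with hc | hc
      · refine prod_eq_zero (mem_univ 0) ?_
        rw [if_pos (Or.inl ZMod.val_zero), hPA, if_neg hc]
      · refine prod_eq_zero (mem_univ (a : ZMod n)) ?_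
        rw [if_pos (Or.inr hva), hPA, if_neg hc]
  rw [← sum_congr rfl fun z _ => key z, sum_comm]
  refine sum_congr rfl fun c _ => ?_
  by_cases hc : c 0 = c a
  · rw [if_neg (not_not.2 hc), sum_eq_single (c 0), if_pos ⟨rfl, hc.symm⟩]
    · intro z _ hz
      rw [if_neg fun h => hz h.1.symm]
    · intro h
      exact absurd (mem_univ _) h
  · rw [if_pos hc]
    exact (sum_eq_zero fun z _ => if_neg fun h => hc (h.1.trans h.2.symm)).symm

lemma host_muir (x y : ℝ) (p q : ℕ) (he : Even (p + q)) :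
    x ^ (p + 2) * y ^ (q + 2) + y ^ (p + 2) * x ^ (q + 2) ≤
      x ^ 2 * y ^ (p + q + 2) + y ^ 2 * x ^ (p + q + 2) := by
  have h1 : 0 ≤ (|x| ^ p - |y| ^ p) * (|x| ^ q - |y| ^ q) := by
    rcases le_total |x| |y| with h | h
    · exact mul_nonneg_of_nonpos_of_nonpos (sub_nonpos.2 (pow_le_pow_left₀ (abs_nonneg _) h p))
        (sub_nonpos.2 (pow_le_pow_left₀ (abs_nonneg _) h q))
    · exact mul_nonneg (sub_nonneg.2 (pow_le_pow_left₀ (abs_nonneg _) h p))
        (sub_nonneg.2 (pow_le_pow_left₀ (abs_nonneg _) h q))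
  have hx : |x| ^ p * |x| ^ q = x ^ (p + q) := by rw [← pow_add, he.pow_abs]
  have hy : |y| ^ p * |y| ^ q = y ^ (p + q) := by rw [← pow_add, he.pow_abs]
  have h2 : x ^ p * y ^ q ≤ |x| ^ p * |y| ^ q := by
    rw [← abs_pow, ← abs_pow, ← abs_mul]; exact le_abs_self _
  have h3 : y ^ p * x ^ q ≤ |y| ^ p * |x| ^ q := by
    rw [← abs_pow, ← abs_pow, ← abs_mul]; exact le_abs_self _
  have h4 : x ^ p * y ^ q + y ^ p * x ^ q ≤ x ^ (p + q) + y ^ (p + q) := by nlinarith
  have h5 := mul_le_mul_of_nonneg_left h4 (mul_nonneg (sq_nonneg x) (sq_nonneg y))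
  have e1 : x ^ (p + 2) * y ^ (q + 2) + y ^ (p + 2) * x ^ (q + 2) =
    x ^ 2 * y ^ 2 * (x ^ p * y ^ q + y ^ p * x ^ q) := by ring
  have e2 : x ^ 2 * y ^ (p + q + 2) + y ^ 2 * x ^ (p + q + 2) =
    x ^ 2 * y ^ 2 * (x ^ (p + q) + y ^ (p + q)) := by ring
  rw [e1, e2]
  exact h5

lemma host_conv (μ l : V → ℝ) (hμ : ∀ i, 0 ≤ μ i) (p q : ℕ) (he : Even (p + q)) :
    (∑ i, μ i * l i ^ (p + 2)) * (∑ i, μ i * l i ^ (q + 2)) ≤
      (∑ i, μ i * l i ^ 2) * ∑ i, μ i * l i ^ (p + q + 2) := by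
  have sym : ∀ a b : ℕ, 2 * ((∑ i, μ i * l i ^ a) * (∑ i, μ i * l i ^ b)) =
      ∑ i, ∑ j, μ i * μ j * (l i ^ a * l j ^ b + l j ^ a * l i ^ b) := by
    intro a b
    simp only [mul_add, sum_add_distrib]
    rw [two_mul, sum_comm (f := fun i j => μ i * μ j * (l j ^ a * l i ^ b)), sum_mul_sum]
    congr 1 <;> exact sum_congr rfl fun i _ => sum_congr rfl fun j _ => by ring
  refine le_of_mul_le_mul_left ?_ (two_pos : (0 : ℝ) < 2)
  rw [sym, sym]
  exact sum_le_sum fun i _ => sum_le_sum fun j _ =>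
    mul_le_mul_of_nonneg_left (host_muir _ _ p q he) (mul_nonneg (hμ i) (hμ j))

lemma host_young {x s : ℝ} (hx : 0 ≤ x) (hs : 0 ≤ s) (j : ℕ) :
    (j + 1) * s * x ^ j ≤ j * x ^ (j + 1) + s ^ (j + 1) := by
  induction j with
  | zero => simp
  | succ j ih =>
    have h1 := mul_le_mul_of_nonneg_left ih hs
    have h2 : 0 ≤ ((j : ℝ) + 1) * x ^ j * (x - s) ^ 2 := by positivity
    push_cast
    have e : ((j : ℝ) + 1) * x ^ (j + 1 + 1) + s ^ (j + 1 + 1) - (j + 1 + 1) * s * x ^ (j + 1) =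
      ((j : ℝ) + 1) * x ^ j * (x - s) ^ 2 + (s * (j * x ^ (j + 1) + s ^ (j + 1)) -
        s * ((j + 1) * s * x ^ j)) := by ring
    linarith

lemma host_one_le [Nonempty V] (A : Matrix V V ℝ) (hA : A.IsHermitian) (s : V → ℝ)
    (hs : ∀ v, 0 < s v) (hAs : A.mulVec s = s) (k : ℕ) : 1 ≤ ∑ u, (A ^ (2 * k)) u u := by
  have h1 : (A ^ k).mulVec s = s := by
    induction k with
    | zero => rw [pow_zero, Matrix.one_mulVec]
    | succ k ih => rw [pow_succ, ← Matrix.mulVec_mulVec, hAs, ih]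
  have h2 : ∀ u, (A ^ (2 * k)) u u = ∑ w, (A ^ k) u w ^ 2 := by
    intro u
    rw [two_mul, pow_add, Matrix.mul_apply]
    refine sum_congr rfl fun w _ => ?_
    have := (hA.pow k).apply w u
    rw [star_trivial] at this
    rw [← this, sq]
  have h3 : 0 < ∑ w, s w ^ 2 := sum_pos (fun w _ => pow_pos (hs w) 2) univ_nonempty
  refine le_of_mul_le_mul_right ?_ h3
  rw [one_mul, sum_mul]
  refine sum_le_sum fun u _ => ?_
  rw [h2]
  conv_lhs => rw [← h1]
  exact sum_mul_sq_le_sq_mul_sq _ _ _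

end aux

lemma exists_host {V : Type} [Fintype V] [Nonempty V] (G : SimpleGraph V) {n k : ℕ} [NeZero n]
    (hk : n = 2 * k) {ε δ : ℝ} (h0 : 0 ≤ ε) (h1 : ε ≤ 1) (hδ : 0 < δ)
    (hdeg : ∀ v, δ ≤ (G.neighborSet v).ncard) (hV : (Fintype.card V : ℝ) ≤ (ε ^ 2 * δ) ^ k) :
    ∃ M : V → V → ℝ, Host n M ε ∧ ∀ u w, M u w ≠ 0 → G.Adj u w := by
  obtain ⟨d, hd⟩ : ∃ d : V → ℝ, d = fun v => ((G.neighborSet v).ncard : ℝ) := ⟨_, rfl⟩
  have hdeg' : ∀ v, δ ≤ d v := by rw [hd]; exact hdeg
  have hdpos : ∀ v, 0 < d v := fun v => hδ.trans_le (hdeg' v)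
  have hcnt : ∀ (u : V) (x : ℝ), ∑ w, (if G.Adj u w then x else 0) = d u * x := by
    intro u x
    rw [← sum_filter, sum_const, nsmul_eq_mul, hd]
    beta_reduce
    rw [← Set.ncard_coe_finset]
    congr 3
    ext w
    simp
  obtain ⟨A, hA⟩ : ∃ A : Matrix V V ℝ,
    A = fun u w => if G.Adj u w then (√(d u) * √(d w))⁻¹ else 0 := ⟨_, rfl⟩
  have hAa : ∀ u w, A u w = if G.Adj u w then (√(d u) * √(d w))⁻¹ else 0 := fun u w => by rw [hA]
  have hsym : ∀ u w, A u w = A w u := by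
    intro u w
    rw [hAa, hAa, mul_comm]
    simp only [G.adj_comm]
  have hH : A.IsHermitian := Matrix.IsHermitian.ext fun i j => by rw [star_trivial, hsym]
  have hsq : ∀ v, 0 < √(d v) := fun v => Real.sqrt_pos.2 (hdpos v)
  have hAs : A.mulVec (fun v => √(d v)) = fun v => √(d v) := by
    funext u
    have : ∀ w, A u w * √(d w) = if G.Adj u w then (√(d u))⁻¹ else 0 := by
      intro w
      rw [hAa]
      split_ifs
      · have := hsq w
        field_simp
      · rw [zero_mul]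
    rw [Matrix.mulVec, dotProduct, sum_congr rfl fun w _ => this w, hcnt]
    have h := Real.mul_self_sqrt (hdpos u).le
    have := hsq u
    field_simp
    linarith
  have htot : 1 ≤ ∑ u, (A ^ n) u u := by rw [hk]; exact host_one_le A hH _ hsq hAs k
  have hc1 : ∀ z, (A ^ 2) z z ≤ δ⁻¹ := by
    intro z
    rw [sq, Matrix.mul_apply]
    refine le_trans (sum_le_sum (g := fun w => if G.Adj z w then (d z * δ)⁻¹ else 0)
      fun w _ => ?_) ?_
    · rw [hsym w z, hAa]
      split_ifs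
      · rw [← mul_inv, mul_mul_mul_comm, Real.mul_self_sqrt (hdpos z).le,
          Real.mul_self_sqrt (hdpos w).le]
        exact inv_anti₀ (mul_pos (hdpos z) hδ) (mul_le_mul_of_nonneg_left (hdeg' w) (hdpos z).le)
      · rw [zero_mul]
    · rw [hcnt, mul_inv, ← mul_assoc, mul_inv_cancel₀ (hdpos z).ne', one_mul]
  obtain ⟨μ, l, hμ, hμ1, hl⟩ := host_spec A hH
  have htr : ∀ m : ℕ, ∑ u, (A ^ m) u u = ∑ i, l i ^ m := by
    intro m
    rw [sum_congr rfl fun u _ => hl m u, sum_comm]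
    exact sum_congr rfl fun i _ => by rw [← sum_mul, hμ1, one_mul]
  obtain ⟨j, rfl⟩ : ∃ j, k = j + 1 := ⟨k - 1, by have := NeZero.ne n; omega⟩
  have hN : (1 : ℝ) ≤ Fintype.card V := by exact_mod_cast Fintype.card_pos
  have ht : 0 < ε ^ 2 * δ := by
    rcases (mul_nonneg (sq_nonneg ε) hδ.le).eq_or_lt with h | h
    · rw [← h, zero_pow (by omega)] at hV
      linarith
    · exact h
  have hrat : ∑ u, (A ^ (2 * j)) u u ≤ ε ^ 2 * δ * ∑ u, (A ^ n) u u := by
    have h2 : ∑ i, ((j : ℝ) + 1) * (ε ^ 2 * δ)⁻¹ * (l i ^ 2) ^ j ≤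
        ∑ i, ((j : ℝ) * (l i ^ 2) ^ (j + 1) + (ε ^ 2 * δ)⁻¹ ^ (j + 1)) :=
      sum_le_sum fun i _ => host_young (sq_nonneg _) (inv_nonneg.2 ht.le) j
    simp only [← pow_mul] at h2
    rw [sum_add_distrib, ← mul_sum, ← mul_sum, ← htr, ← htr, ← hk, sum_const, card_univ,
      nsmul_eq_mul] at h2
    have h3 : (Fintype.card V : ℝ) * (ε ^ 2 * δ)⁻¹ ^ (j + 1) ≤ 1 := by
      rw [inv_pow, ← div_eq_mul_inv, div_le_one (pow_pos ht _)]
      exact hV
    have h4 : ((j : ℝ) + 1) * ((ε ^ 2 * δ)⁻¹ * ∑ u, (A ^ (2 * j)) u u) ≤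
        ((j : ℝ) + 1) * ∑ u, (A ^ n) u u := by linarith
    have h5 := le_of_mul_le_mul_left h4 (by positivity)
    rwa [inv_mul_le_iff₀ ht] at h5
  have hev : ∀ (m : ℕ) z, 0 ≤ (A ^ (2 * m)) z z := by
    intro m z
    rw [hl]
    exact sum_nonneg fun i _ => mul_nonneg (hμ z i) (by rw [pow_mul]; positivity)
  have hloop : ∀ z, (A ^ 1) z z = 0 := fun z => by rw [pow_one, hAa, if_neg (G.loopless.irrefl z)]
  have hpt : ∀ a, 0 < a → a < n → ∀ z,
      (A ^ a) z z * (A ^ (n - a)) z z ≤ δ⁻¹ * (A ^ (2 * j)) z z := by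
    intro a ha han z
    have hnn : 0 ≤ δ⁻¹ * (A ^ (2 * j)) z z := mul_nonneg (inv_nonneg.2 hδ.le) (hev j z)
    by_cases ha1 : a = 1
    · rw [ha1, hloop, zero_mul]; exact hnn
    by_cases ha2 : n - a = 1
    · rw [ha2, hloop, mul_zero]; exact hnn
    obtain ⟨p, rfl⟩ : ∃ p, a = p + 2 := ⟨a - 2, by omega⟩
    obtain ⟨q, hq⟩ : ∃ q, n - (p + 2) = q + 2 := ⟨n - (p + 2) - 2, by omega⟩
    have h2 := host_conv (μ z) l (hμ z) p q ⟨j - 1, by omega⟩
    rw [← hl, ← hl, ← hl, ← hl, show p + q + 2 = 2 * j by omega] at h2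
    rw [hq]
    exact h2.trans (mul_le_mul_of_nonneg_right (hc1 z) (hev j z))
  have hsm : ∀ a : ℕ, 0 < a → a < n → Sm n A (ε ^ 2) fun c => c 0 ≠ c a := by
    intro a ha han
    unfold Sm
    simp only [Int.cast_zero, Int.cast_natCast]
    rw [host_coll A n a ha han, host_tot]
    refine (sum_le_sum fun z _ => hpt a ha han z).trans ?_
    rw [← mul_sum, inv_mul_le_iff₀ hδ]
    linarith
  refine ⟨A, ⟨hsym, fun u w => ?_, ?_, h0, h1, fun i j hij hn => ?_⟩, fun u w h => ?_⟩
  · rw [hAa]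
    split_ifs
    · positivity
    · rfl
  · rw [host_tot]; linarith
  · rw [abs_lt] at hn
    rcases lt_or_gt_of_ne hij with h | h
    · have := (hsm (j - i).toNat (by omega) (by omega)).rot i
      rw [show (((j - i).toNat : ℕ) : ℤ) = j - i by omega] at this
      simpa only [add_zero, add_sub_cancel] using this
    · have := (hsm (i - j).toNat (by omega) (by omega)).rot j
      rw [show (((i - j).toNat : ℕ) : ℤ) = i - j by omega] at this
      simpa only [add_zero, add_sub_cancel, ne_comm] using this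
  · by_contra h'
    exact h (by rw [hAa, if_neg h'])

end Pool.Agent.Lib.MP_efdbfd_co
end
end

-- part Pool.Agent.Lib.MP_efdbfd_co.Final
section

/-! Extremal numbers and weak vertices of bipartite graphs of treewidth two. -/

set_option autoImplicit false

open Finset SimpleGraph Filter Asymptotics
open scoped Classical

noncomputable section

namespace Pool.Agent.Lib.MP_efdbfd_co

variable {W : Type} {L : SimpleGraph W} {k : ℕ}

lemma up_of_subsingleton [Subsingleton W] (hk : 1 ≤ k) : Up L k :=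
  up_of_minDeg hk one_pos fun _ _ hV _ _ _ _ _ =>
    ⟨⟨⟨fun _ => hV.some, fun h => absurd (Subsingleton.elim _ _) h.ne⟩,
      fun _ _ _ => Subsingleton.elim _ _⟩⟩

lemma up_of_tt [Fintype W] (hk : 2 ≤ k) (hb : L.IsBipartite) (hg : ((2 * k : ℕ) : ℕ∞) ≤ L.egirth)
    {Sml D E : W → W → Prop} (h : TT Sml D univ E) (hE : ∀ p q, L.Adj p q → E p q ∨ E q p)
    (hS : k ≤ 4 ∨ ∀ p q, Sml p q → L.Adj p q) (hD : ∀ p q, D p q → ¬ L.Adj p q) : Up L k := by
  obtain ⟨C⟩ := hb
  obtain ⟨A, hA, H⟩ := embed hk (fun p => (C p : ℕ)) h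
    (fun p q => if L.Adj p q then 1 else 2 * k + (C p + C q) % 2)
    (fun p q _ => by
      split_ifs with e
      · have := C.valid e
        omega
      · omega)
    (hS.imp_right fun h p q e => by simp [h p q e]) (fun p q e => by simp only [hD p q e, if_false]; omega)
    (fun x y e => by
      by_cases a : L.Adj x y
      · obtain ⟨f, f1, f2, f3⟩ := exists_cert hg a
        refine ⟨f, fun p q e' ne => ?_, by simpa [a] using f3⟩
        beta_reduce
        split_ifs with a'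
        · refine f2 p q a' fun h' => ?_
          rcases Sym2.eq_iff.1 h' with h' | ⟨rfl, rfl⟩
          · exact ne h'
          · exact (h.mem e).2.2.2 e'
        · have := f1 p
          have := f1 q
          rw [abs_le]
          omega
      · exact ⟨0, fun p q _ _ => by simp only [Pi.zero_apply, sub_self, abs_zero, Nat.cast_nonneg],
          by simp only [a]; simp; omega⟩)
    (4 * k ^ 2) (by positivity)
  have : NeZero (2 * k) := ⟨by omega⟩
  have h1 : 0 < 1 / (A + 1) := by positivity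
  refine up_of_minDeg (by omega) (pow_pos h1 2) fun V _ _ G δ hδ hd hV => ?_
  obtain ⟨M, hM, hG⟩ := exists_host G (n := 2 * k) rfl h1.le
    ((div_le_one (by positivity)).2 (by linarith)) hδ hd hV
  obtain ⟨φ, t, c, hd⟩ := H V (2 * k) M _ (fun _ _ _ => Cyc (2 * k) M) hM rfl
    (by rw [mul_one_div, div_lt_one (by positivity)]; linarith)
    fun _ _ _ => (sm_cyc hM).mono hM (le_of_eq (by push_cast; ring)) fun _ => id
  have key : ∀ p q, L.Adj p q → E p q → G.Adj (φ p) (φ q) := fun p q a e => by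
    obtain ⟨c1, c2, c3, c4⟩ := hd.ev p q e
    simp only [a, if_true, Ty] at c4
    rw [show t p q = 1 by omega] at c3
    exact hG _ _ (c2 ▸ c3 ▸ c1.adj 0)
  exact ⟨⟨⟨φ, fun {p q} a => (hE p q a).elim (key p q a) fun e => (key q p a.symm e).symm⟩,
    fun p q => hd.inj p (mem_univ _) q (mem_univ _)⟩⟩

lemma up_of_tw [Finite W] (hk : 2 ≤ k) (hk' : k ≤ 4) (hb : L.IsBipartite)
    (hg : ((2 * k : ℕ) : ℕ∞) ≤ L.egirth) (h : TreewidthLE L 2) : Up L k := by
  have := Fintype.ofFinite W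
  rcases subsingleton_or_nontrivial W with _ | _
  · exact up_of_subsingleton (by omega)
  · obtain ⟨E, h1, h2⟩ := tt_of_tw h
    exact up_of_tt hk hb hg h1 h2 (Or.inl hk') fun _ _ => False.elim

lemma up_of_outer [Finite W] (hk : 2 ≤ k) (hb : L.IsBipartite)
    (hg : ((2 * k : ℕ) : ℕ∞) ≤ L.egirth) (h : Outerplanar L) : Up L k := by
  have := Fintype.ofFinite W
  rcases subsingleton_or_nontrivial W with _ | _
  · exact up_of_subsingleton (by omega)
  · obtain ⟨D, E, h0, h1, h2⟩ := tt_of_outer h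
    exact up_of_tt hk hb hg h1 h2 (Or.inr fun _ _ => id) h0

lemma Up.isBigO (h : Up L k) : (fun n : ℕ => (extremalNumber n L : ℝ)) =O[atTop]
    fun n : ℕ => (n : ℝ) ^ (1 + 1 / (k : ℝ)) := by
  obtain ⟨C, h⟩ := h
  exact IsBigO.of_bound C (.of_forall fun n => by
    rw [Real.norm_natCast, Real.norm_of_nonneg (by positivity)]; exact h n)

lemma bip_induce (hb : L.IsBipartite) (s : Set W) : (L.induce s).IsBipartite :=
  Colorable.of_hom (Embedding.induce s).toHom hb

lemma weak_iff {g : ℕ} (hg : 2 ≤ g) (hb : L.IsBipartite) (hL : L.girth = 2 * g)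
    (hlow : Low (cycleGraph (2 * g)) g) (v : W)
    (h1 : ((2 * g : ℕ) : ℕ∞) ≤ L.egirth → Up L g)
    (h2 : ((2 * (g + 1) : ℕ) : ℕ∞) ≤ (L.induce {v}ᶜ).egirth → Up (L.induce {v}ᶜ) (g + 1)) :
    Weak L v ↔ ∀ a (c : L.Walk a a), c.IsCycle → c.length = L.girth → v ∈ c.support := by
  have ha : ¬ L.IsAcyclic := fun h => by have := girth_eq_zero.2 h; omega
  have he : ((2 * g : ℕ) : ℕ∞) ≤ L.egirth :=
    le_egirth.2 fun a c hc => by exact_mod_cast hL ▸ girth_le_length hc
  obtain ⟨a, c, hc, hl⟩ := exists_girth_eq_length.2 ha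
  refine ⟨fun h a c hc hl => by_contra fun hv => ?_, fun h => ⟨induce_ne_bot hc v, ?_⟩⟩
  · exact not_isLittleO_of_up_low (h1 he) (hlow.mono (hL ▸ hl ▸ cycle_induce hc hv)) h.2
  · exact isLittleO_of_up_low (by omega) (Nat.lt_succ_self g)
      (hlow.mono ((cycleGraph_isContained_iff (by omega)).2 ⟨a, c, hc, hl ▸ hL⟩))
      (h2 (egirth_induce hb he (hL ▸ h)))

lemma low_small {g : ℕ} (hg : g = 2 ∨ g = 3 ∨ g = 5) : Low (cycleGraph (2 * g)) g := by
  rcases hg with rfl | rfl | rfl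
  · exact low_four
  · exact low_odd (k := 3) (by decide) le_rfl
  · exact low_odd (k := 5) (by decide) (by norm_num)

end Pool.Agent.Lib.MP_efdbfd_co
end
end
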