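import Mathlib
import Pool.Agent.Lib.MP_efdbfd_co.Final

/-!
MP_efdbfd_co, partial result: weak vertices whose deletion leaves a graph of treewidth at most two.
-/

namespace Pool.Agent.Results.MP_efdbfd_co.ApexTreewidth

open SimpleGraph Pool.Agent.Lib.MP_efdbfd_co

/-- Let `L` be a finite bipartite graph containing `C_{2g}`, `g = 2, 3`.  If `L - v` has an edge,
treewidth at most 2 and girth at least `2g + 2`, then `v` is weak. -/
theorem result {W : Type} [Finite W] (L : SimpleGraph W) (hb : L.IsBipartite) (g : ℕ) (v : W)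
    (hg : g = 2 ∨ g = 3) (hc : cycleGraph (2 * g) ⊑ L) (h0 : L.induce {v}ᶜ ≠ ⊥)
    (h : TreewidthLE (L.induce {v}ᶜ) 2) (he : ((2 * g + 2 : ℕ) : ℕ∞) ≤ (L.induce {v}ᶜ).egirth) :
    Weak L v :=
  ⟨h0, isLittleO_of_up_low (by omega) (Nat.lt_succ_self g) ((low_small (by omega)).mono hc)
    (up_of_tw (by omega) (by omega) (bip_induce hb _) he h)⟩

end Pool.Agent.Results.MP_efdbfd_co.ApexTreewidth
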