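import Mathlib

/-! Definitions used in the statements for MP_efdbfd_co. -/

set_option autoImplicit false

namespace Pool.Agent.Lib.MP_efdbfd_co

open SimpleGraph Filter Asymptotics

/-- The vertex `v` of `L` is weak: `L - v` has an edge and `ex(n, L - v) = o(ex(n, L))`. -/
def Weak {W : Type} (L : SimpleGraph W) (v : W) : Prop :=
  L.induce {v}ᶜ ≠ ⊥ ∧
    (fun n : ℕ => (extremalNumber n (L.induce {v}ᶜ) : ℝ)) =o[atTop]
      fun n : ℕ => (extremalNumber n L : ℝ)

/-- `L` has treewidth at most `r`: it has a tree decomposition with bags of size at most `r + 1`. -/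
def TreewidthLE {W : Type} (L : SimpleGraph W) (r : ℕ) : Prop :=
  ∃ (m : ℕ) (T : SimpleGraph (Fin m)) (B : Fin m → Finset W), T.IsTree ∧ (∀ v, ∃ i, v ∈ B i) ∧
    (∀ u v, L.Adj u v → ∃ i, u ∈ B i ∧ v ∈ B i) ∧
    (∀ v, (T.induce {i | v ∈ B i}).Preconnected) ∧ ∀ i, (B i).card ≤ r + 1

/-- `L` is outerplanar: its vertices can be placed on a line so that no two edges cross
(a one page book embedding). -/
def Outerplanar {W : Type} (L : SimpleGraph W) : Prop :=
  ∃ pos : W → ℕ, Function.Injective pos ∧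
    ∀ a b c d, L.Adj a b → L.Adj c d → ¬ (pos a < pos c ∧ pos c < pos b ∧ pos b < pos d)

end Pool.Agent.Lib.MP_efdbfd_co
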