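import Pool.Agent.Lib.MP_efdbfd_co.GridSweep

/-! Subgraphs of grids can be swept; by windows of length two if they have no 4-cycle. -/

set_option autoImplicit false
set_option linter.unusedSectionVars false

open Finset SimpleGraph Function Filter Asymptotics
open scoped Classical

noncomputable section

namespace Pool.Agent.Lib.MP_efdbfd_co.Grid

variable {W : Type} {L : SimpleGraph W} {lev τ : W → ℕ} {M : ℕ}

lemma sweep [Finite W] {α : Type} [LinearOrder α] (key : W → α) {Φ : Set W → Prop}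
    (h0 : Φ Set.univ) (hs : ∀ S p, p ∉ S → (∀ u, key u < key p → u ∈ S) →
      (∀ w ∈ S, key w ≤ key p) → Φ (insert p S) → Φ S) : Φ ∅ := by
  have : ∀ n (S : Set W), Sᶜ.ncard = n → (∀ w ∈ S, ∀ u, key u < key w → u ∈ S) → Φ S := by
    intro n
    induction n using Nat.strong_induction_on with
    | _ n ih =>
      intro S hn hS
      rcases Sᶜ.eq_empty_or_nonempty with e | e
      · rwa [Set.compl_empty_iff.1 e]
      obtain ⟨p, hp, hm⟩ := Set.exists_min_image Sᶜ key (Set.toFinite _) e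
      have h1 : ∀ u, key u < key p → u ∈ S := fun u hu => by_contra fun h => (hm u h).not_gt hu
      refine hs S p hp h1 (fun w hw => le_of_not_gt fun h => hp (hS w hw p h))
        (ih _ (hn ▸ Set.ncard_lt_ncard ⟨Set.compl_subset_compl.2 (Set.subset_insert _ _),
          fun h => h hp (Set.mem_insert _ _)⟩) _ rfl ?_)
      rintro w (rfl | hw) u hu
      · exact Or.inr (h1 u hu)
      · exact Or.inr (hS w hw u hu)
  exact this _ ∅ rfl fun _ h => h.elim

lemma mv {r a : ℕ} {D D' : Set W} (hD : D ⊆ D') (ha : a + r + 1 ≤ M)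
    (hN : ∀ w ∈ D', w ∉ D → a < lev w ∧ lev w ≤ a + r) (hi : Set.InjOn lev (D' \ D))
    (hA : ∀ w, Act L D w → lev w ≤ a ∨ a + r < lev w) (h : ∃ t, Sw L lev M r t D') :
    ∃ t, Sw L lev M r t D := by
  obtain ⟨t, h⟩ := h
  exact ⟨t + 1, .move a (D' \ D) ha (fun w hw => ⟨hw.2, hN w hw.1 hw.2⟩) hi hA
    (by rwa [Set.union_sdiff_cancel hD])⟩

/-- Diagonal coordinates of a subgraph of a grid. -/
structure Gr (L : SimpleGraph W) (lev τ : W → ℕ) (M : ℕ) : Prop where
  adj : ∀ {a b}, L.Adj a b →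
    (lev b = lev a + 1 ∨ lev a = lev b + 1) ∧ (τ b = τ a + 1 ∨ τ a = τ b + 1)
  inj : ∀ a b, lev a = lev b → τ a = τ b → a = b
  par : ∀ a b, (lev a + τ a) % 2 = (lev b + τ b) % 2
  bd : ∀ w, 2 ≤ lev w ∧ lev w + 2 ≤ M

lemma Gr.toLev (h : Gr L lev τ M) : Lev L lev M :=
  ⟨fun _ _ e => (h.adj e).1, fun w => by have := h.bd w; omega⟩

lemma Gr.sw_one [Finite W] (h : Gr L lev τ M) : ∃ t, Sw L lev M 1 t ∅ := by
  refine sweep τ (Φ := fun S => ∃ t, Sw L lev M 1 t S) ⟨0, .done⟩ fun S p hp h1 h2 => ?_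
  have := h.bd p
  refine mv (a := lev p - 1) (Set.subset_insert _ _) (by omega) ?_ ?_ ?_
  · rintro w (rfl | hw) e
    · omega
    · exact absurd hw e
  · rintro u ⟨rfl | hu, hu'⟩ w ⟨rfl | hw, hw'⟩ _ <;> first | rfl | contradiction
  · rintro w ⟨hw, b, hb, e⟩
    by_contra hc
    have := h2 w hw
    have := mt (h1 b) hb
    have := h.adj e
    have := h.par w p
    exact hp (h.inj w p (by omega) (by omega) ▸ hw)

/-- There is an edge from position `(j, T - 1)` to position `(i, T)`. -/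
def Ed (L : SimpleGraph W) (lev τ : W → ℕ) (T j i : ℕ) : Prop :=
  ∃ u v, L.Adj u v ∧ lev u = j ∧ τ u + 1 = T ∧ lev v = i ∧ τ v = T

/-- The order in which the vertices of one diagonal are created. -/
def ht (L : SimpleGraph W) (lev τ : W → ℕ) (p : W) : ℝ :=
  ∑ j ∈ range (lev p), (ind (Ed L lev τ (τ p) j (j - 1)) - ind (Ed L lev τ (τ p) j (j + 1)))

lemma Gr.ht_lt (h : Gr L lev τ M) {p u q : W} (e : L.Adj u p) (hu : τ u + 1 = τ p)
    (hq : τ q = τ p) (hl : lev p + lev q = 2 * lev u) (e' : ¬ L.Adj u q) :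
    ht L lev τ p < ht L lev τ q := by
  have no : ∀ x i, τ x = τ p → ¬ Ed L lev τ (τ p) (lev x) i := by
    rintro x i hx ⟨a, b, -, h1, h2, -⟩
    have := h.par x a
    omega
  have yes : Ed L lev τ (τ p) (lev u) (lev p) := ⟨u, p, e, rfl, hu, rfl, rfl⟩
  have no' : ¬ Ed L lev τ (τ p) (lev u) (lev q) := by
    rintro ⟨a, b, h0, h1, h2, h3, h4⟩
    rw [h.inj a u h1 (by omega), h.inj b q h3 (by omega)] at h0
    exact e' h0
  unfold ht
  rw [hq]
  rcases (h.adj e).1 with a | a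
  · rw [a, show lev u = lev q + 1 by omega, sum_range_succ, sum_range_succ, ind_neg (no q _ hq),
      ind_neg (no q _ hq), Nat.add_sub_cancel, show lev q + 1 = lev u by omega, ← a,
      ind_pos yes, ind_neg no']
    linarith
  · rw [show lev q = lev p + 1 + 1 by omega, sum_range_succ, sum_range_succ,
      ind_neg (no p _ rfl), ind_neg (no p _ rfl), Nat.add_sub_cancel, ← a, ind_pos yes,
      show lev u + 1 = lev q by omega, ind_neg no']
    linarith

/-- `S` together with the vertices that have two earlier neighbours in `S`. -/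
def Cl (L : SimpleGraph W) (τ : W → ℕ) (S : Set W) : Set W :=
  {w | w ∈ S ∨ ∃ u ∈ S, ∃ u' ∈ S, u ≠ u' ∧ L.Adj w u ∧ L.Adj w u' ∧ τ u < τ w ∧ τ u' < τ w}

lemma Gr.sw_two [Finite W] (h : Gr L lev τ M)
    (h4 : ∀ a b c d, L.Adj a b → L.Adj b c → L.Adj c d → L.Adj d a → a = c ∨ b = d) :
    ∃ t, Sw L lev M 2 t ∅ := by
  have e0 : Cl L τ ∅ = ∅ := by simp [Cl]
  rw [← e0]
  refine sweep (fun w => toLex (τ w, ht L lev τ w)) (Φ := fun S => ∃ t, Sw L lev M 2 t (Cl L τ S))
    ⟨0, by simpa [Cl] using Sw.done⟩ fun S p hp h1 h2 H => ?_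
  simp only [Prod.Lex.toLex_lt_toLex, Prod.Lex.toLex_le_toLex] at h1 h2
  have s1 : ∀ u, τ u < τ p → u ∈ S := fun u hu => h1 u (Or.inl hu)
  have s2 : ∀ w ∈ S, τ w ≤ τ p := fun w hw => by have := h2 w hw; omega
  have bd := h.bd p
  obtain ⟨Bk, hB⟩ : ∃ Bk : ℕ → Prop, ∀ j, Bk j ↔ ∃ u, L.Adj u p ∧ τ u + 1 = τ p ∧ lev u = j :=
    ⟨_, fun _ => Iff.rfl⟩
  have sub : Cl L τ S ⊆ Cl L τ (insert p S) := by
    rintro w (hw | ⟨u, hu, u', hu', e⟩)
    · exact Or.inl (Or.inr hw)
    · exact Or.inr ⟨u, Or.inr hu, u', Or.inr hu', e⟩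
  have mem : p ∈ Cl L τ S ↔ Bk (lev p + 1) ∧ Bk (lev p - 1) := by
    rw [hB, hB]
    constructor
    · rintro (e | ⟨u, -, u', -, ne, a, a', t, t'⟩)
      · exact absurd e hp
      have b := h.adj a
      have b' := h.adj a'
      have := mt (h.inj u u' · (by omega)) ne
      rcases b.1 with c | c
      · exact ⟨⟨u, a.symm, by omega, c⟩, u', a'.symm, by omega, by omega⟩
      · exact ⟨⟨u', a'.symm, by omega, by omega⟩, u, a.symm, by omega, by omega⟩
    · rintro ⟨⟨u, a, t, l⟩, u', a', t', l'⟩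
      exact Or.inr ⟨u, s1 u (by omega), u', s1 u' (by omega), fun e => by subst e; omega,
        a.symm, a'.symm, by omega, by omega⟩
  have new : ∀ w ∈ Cl L τ (insert p S), w ∉ Cl L τ S → w = p ∨ (τ w = τ p + 1 ∧
      (lev w = lev p + 1 ∨ lev p = lev w + 1) ∧ ¬ Bk (lev w)) := by
    have k : ∀ w q, q ∈ S → L.Adj w p → L.Adj w q → τ p < τ w → τ q < τ w → τ w = τ p + 1 ∧
        (lev w = lev p + 1 ∨ lev p = lev w + 1) ∧ ¬ Bk (lev w) := fun w q hq a a' t t' => by
      have b := h.adj a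
      have b' := h.adj a'
      have ne : p ≠ q := fun e => hp (e ▸ hq)
      have := mt (h.inj p q · (by omega)) ne
      refine ⟨by omega, by omega, fun hb => ?_⟩
      obtain ⟨u, c, tu, lu⟩ := (hB _).1 hb
      have := h.ht_lt (q := q) c tu (by omega) (by omega) fun c' => by
        rcases h4 u p w q c a.symm a' c'.symm with e | e
        · subst e; omega
        · exact ne e
      rcases h2 q hq with e | e
      · omega
      · exact this.not_ge e.2
    rintro w ((rfl | hw) | ⟨u, rfl | hu, u', rfl | hu', ne, a, a', t, t'⟩) hn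
    · exact Or.inl rfl
    · exact absurd (Or.inl hw) hn
    · exact absurd rfl ne
    · exact Or.inr (k w u' hu' a a' t t')
    · exact Or.inr (k w u hu a' a t' t)
    · exact absurd (Or.inr ⟨u, hu, u', hu', ne, a, a', t, t'⟩) hn
  have inj : ∀ A : Set W, (∀ w ∈ A, w ∈ Cl L τ (insert p S) ∧ w ∉ Cl L τ S) → Set.InjOn lev A :=
    fun A hA u hu w hw e => by
      rcases new u (hA u hu).1 (hA u hu).2 with rfl | a <;>
        rcases new w (hA w hw).1 (hA w hw).2 with rfl | b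
      · rfl
      · omega
      · omega
      · exact h.inj u w e (by omega)
  have act : p ∉ Cl L τ S → ∀ w, Act L (Cl L τ S) w → lev w ≠ lev p ∧
      ((lev w = lev p + 1 ∨ lev p = lev w + 1) → Bk (lev w)) := by
    rintro hp' w ⟨hw, b, hb, e⟩
    have b0 : b ∉ S := fun x => hb (Or.inl x)
    have b1 := mt (s1 b) b0
    have b2 := h.adj e
    have b3 := h.par w p
    have b4 : τ w ≤ τ p ∨ (τ w = τ p + 1 ∧ lev w ≠ lev p + 1 ∧ lev p ≠ lev w + 1) := by
      rcases hw with hw | ⟨u, hu, u', hu', ne, a, a', t, t'⟩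
      · exact Or.inl (s2 w hw)
      have c := h.adj a
      have c' := h.adj a'
      have := s2 u hu
      have := mt (h.inj u u' · (by omega)) ne
      have : lev u = lev p → τ u ≠ τ p := fun x y => hp (h.inj u p x y ▸ hu)
      have : lev u' = lev p → τ u' ≠ τ p := fun x y => hp (h.inj u' p x y ▸ hu')
      omega
    refine ⟨fun x => hp' (h.inj w p x (by omega) ▸ hw), fun x => (hB _).2 ⟨w, ?_, by omega, rfl⟩⟩
    by_contra c
    have : lev b ≠ lev p := fun y => c (h.inj b p y (by omega) ▸ e)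
    exact b0 (h1 b (Or.inr ⟨by omega, h.ht_lt e (by omega) (by omega) (by omega) c⟩))
  obtain ⟨D, hD⟩ : ∃ D : Set W, ∀ w, w ∈ D ↔ w ∈ Cl L τ S ∨ (w ∈ Cl L τ (insert p S) ∧
      (lev w = lev p + 1 ∨ (w = p ∧ Bk (lev p - 1)))) := ⟨{w | _}, fun _ => Iff.rfl⟩
  have d1 : Cl L τ S ⊆ D := fun w hw => (hD w).2 (Or.inl hw)
  have d2 : D ⊆ Cl L τ (insert p S) := fun w hw => ((hD w).1 hw).elim (fun x => sub x) (·.1)
  have H' : ∃ t, Sw L lev M 2 t D := by
    by_cases hb : Bk (lev p - 1)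
    · rwa [Set.Subset.antisymm d2 fun w hw => by_contra fun hn => ?_]
      rcases new w hw (mt (d1 ·) hn) with rfl | ⟨-, a | a, b⟩
      · exact hn ((hD _).2 (Or.inr ⟨hw, Or.inr ⟨rfl, hb⟩⟩))
      · exact hn ((hD _).2 (Or.inr ⟨hw, Or.inl a⟩))
      · exact b (by rwa [show lev w = lev p - 1 by omega])
    refine mv (a := lev p - 2) d2 (by omega) (fun w hw hn => ?_)
      (inj _ fun w hw => ⟨hw.1, mt (d1 ·) hw.2⟩) ?_ H
    · have : lev w ≠ lev p + 1 := fun a => hn ((hD _).2 (Or.inr ⟨hw, Or.inl a⟩))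
      rcases new w hw (mt (d1 ·) hn) with rfl | a <;> omega
    · rintro w ⟨hw, b, hb', e⟩
      rcases (hD w).1 hw with hw | ⟨-, a | a⟩
      · have := act (fun x => hb (mem.1 x).2) w ⟨hw, b, mt (d1 ·) hb', e⟩
        have : lev p ≠ lev w + 1 := fun x =>
          hb (by rw [show lev p - 1 = lev w by omega]; exact this.2 (Or.inr x))
        omega
      · omega
      · exact absurd a.2 hb
  by_cases hb : Bk (lev p + 1)
  · rwa [Set.Subset.antisymm d1 fun w hw => by_contra fun hn => ?_]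
    rcases (hD w).1 hw with a | ⟨a, b | ⟨rfl, b⟩⟩
    · exact hn a
    · rcases new w a hn with rfl | c
      · omega
      · exact c.2.2 (b ▸ hb)
    · exact hn (mem.2 ⟨hb, b⟩)
  refine mv (a := lev p - 1) d1 (by omega) (fun w hw hn => ?_)
    (inj _ fun w hw => ⟨d2 hw.1, hw.2⟩) (fun w hw => ?_) H'
  · rcases (hD w).1 hw with a | ⟨-, b | ⟨rfl, -⟩⟩
    · exact absurd a hn
    · omega
    · omega
  · have := act (fun x => hb (mem.1 x).1) w hw
    have : lev w ≠ lev p + 1 := fun x => hb (x ▸ this.2 (Or.inl x))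
    omega

lemma exists_gr {a b : ℕ} (h : L ⊑ pathGraph a □ pathGraph b) :
    Finite W ∧ ∃ lev τ M, Gr L lev τ M := by
  obtain ⟨f⟩ := h
  refine ⟨.of_injective _ f.injective, fun w => (f w).1 + (b - (f w).2) + 2,
    fun w => (f w).1 + (f w).2, a + b + 4, fun {u w} e => ?_, fun u w e e' => ?_, fun u w => ?_,
    fun w => ?_⟩
  · have := f.toHom.map_adj e
    have := (f u).2.2
    have := (f w).2.2
    simp only [boxProd_adj, pathGraph_adj, Copy.coe_toHom, Fin.ext_iff] at *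
    omega
  · have := (f u).2.2
    have := (f w).2.2
    have : f u = f w := Prod.ext (Fin.ext (by omega)) (Fin.ext (by omega))
    exact f.injective this
  · have := (f u).2.2
    have := (f w).2.2
    omega
  · have := (f w).1.2
    omega

lemma grid_up {a b : ℕ} (h : L ⊑ pathGraph a □ pathGraph b) : Up L 2 := by
  obtain ⟨_, lev, τ, M, g⟩ := exists_gr h
  have := Fintype.ofFinite W
  obtain ⟨t, s⟩ := g.sw_one
  exact s.up g.toLev

lemma grid_littleO {a b : ℕ} (h : L ⊑ pathGraph a □ pathGraph b)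
    (h4 : ∀ a b c d, L.Adj a b → L.Adj b c → L.Adj c d → L.Adj d a → a = c ∨ b = d) :
    (fun n : ℕ => (extremalNumber n L : ℝ)) =o[atTop]
      fun n : ℕ => (n : ℝ) ^ (1 + 1 / ((2 : ℕ) : ℝ)) := by
  obtain ⟨_, lev, τ, M, g⟩ := exists_gr h
  have := Fintype.ofFinite W
  obtain ⟨t, s⟩ := g.sw_two h4
  exact s.littleO g.toLev

lemma four_free {v : W} (h : ∀ (u : W) (c : L.Walk u u), c.IsCycle → c.length = 4 → v ∈ c.support)
    (a b c d : ({v}ᶜ : Set W)) (e1 : (L.induce {v}ᶜ).Adj a b) (e2 : (L.induce {v}ᶜ).Adj b c)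
    (e3 : (L.induce {v}ᶜ).Adj c d) (e4 : (L.induce {v}ᶜ).Adj d a) : a = c ∨ b = d := by
  by_contra hn
  simp only [not_or, Subtype.ext_iff] at hn
  have f1 : L.Adj a b := e1
  have f2 : L.Adj b c := e2
  have f3 : L.Adj c d := e3
  have f4 : L.Adj d a := e4
  have := h a (.cons f1 (.cons f2 (.cons f3 (.cons f4 .nil)))) (by
    simp [Walk.cons_isCycle_iff, f1.ne, f2.ne, f3.ne, f4.ne, f1.ne', f4.ne', hn.1, hn.2,
      Ne.symm hn.1]) rfl
  have ha : v ≠ a := Ne.symm a.2
  have hb : v ≠ b := Ne.symm b.2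
  have hc : v ≠ c := Ne.symm c.2
  have hd : v ≠ d := Ne.symm d.2
  simp [ha, hb, hc, hd] at this

end Pool.Agent.Lib.MP_efdbfd_co.Grid
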