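import Pool.Agent.Lib.MP_efdbfd_co.GridWalk

/-! Embedding graphs that can be swept by resampling moves. -/

set_option autoImplicit false
set_option linter.unusedSectionVars false

open Finset SimpleGraph Function Filter Asymptotics
open scoped Classical

noncomputable section

namespace Pool.Agent.Lib.MP_efdbfd_co.Grid

variable {V ι W : Type} [Fintype V] [Fintype ι]

/-- A vertex of `D` with a neighbour outside `D`. -/
def Act (L : SimpleGraph W) (D : Set W) (w : W) : Prop := w ∈ D ∧ ∃ b, b ∉ D ∧ L.Adj w b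

/-- Starting from `D`, all vertices can be created by `t` moves on windows of `r` levels. -/
inductive Sw (L : SimpleGraph W) (lev : W → ℕ) (M r : ℕ) : ℕ → Set W → Prop
  | done : Sw L lev M r 0 Set.univ
  | move {t : ℕ} {D : Set W} (a : ℕ) (N : Set W) : a + r + 1 ≤ M →
      (∀ w ∈ N, w ∉ D ∧ a < lev w ∧ lev w ≤ a + r) → Set.InjOn lev N →
      (∀ w, Act L D w → lev w ≤ a ∨ a + r < lev w) → Sw L lev M r t (D ∪ N) →
      Sw L lev M r (t + 1) D

/-- Every embedding of `D` whose active vertices sit on `x` can be completed. -/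
def Good (L : SimpleGraph W) (lev : W → ℕ) (G : SimpleGraph V) (c : ℕ → ι) (D : Set W)
    (x : ι → V) : Prop :=
  ∀ φ : W → V, Set.InjOn φ D → (∀ a ∈ D, ∀ b ∈ D, L.Adj a b → G.Adj (φ a) (φ b)) →
    (∀ w, Act L D w → x (c (lev w)) = φ w) → L ⊑ G

/-- A level function. -/
structure Lev (L : SimpleGraph W) (lev : W → ℕ) (M : ℕ) : Prop where
  adj : ∀ a b, L.Adj a b → lev b = lev a + 1 ∨ lev a = lev b + 1
  le : ∀ w, lev w ≤ M

variable {L : SimpleGraph W} {lev : W → ℕ} {M r : ℕ} {G : SimpleGraph V} {c : ℕ → ι}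
  {p : V → V → ℝ}

lemma stuck_of [Fintype W] (hl : Lev L lev M) (hr : r ≤ 2) {D N : Set W} {a : ℕ}
    (hN : ∀ w ∈ N, w ∉ D ∧ a < lev w ∧ lev w ≤ a + r) (hi : Set.InjOn lev N)
    (hA : ∀ w, Act L D w → lev w ≤ a ∨ a + r < lev w) {x : ι → V} (hx : ¬ Good L lev G c D x) :
    Stuck G c M a r (Fintype.card W) (Good L lev G c (D ∪ N)) x := by
  simp only [Good, not_forall] at hx
  obtain ⟨φ, h1, h2, h3, h4⟩ := hx
  refine ⟨univ.image φ, card_image_le, fun y ag wk hy => by_contra fun hn => h4 ?_⟩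
  have av : ∀ w ∈ N, ∀ w', y (c (lev w)) ≠ φ w' := fun w hw w' e =>
    hn ⟨lev w, (hN w hw).2.1, (hN w hw).2.2, mem_image.2 ⟨w', mem_univ _, e.symm⟩⟩
  have act : ∀ w, Act L D w → y (c (lev w)) = φ w := fun w hw =>
    (ag _ (hl.le w) (hA w hw)).trans (h3 w hw)
  have ad : ∀ i j, a < i → i ≤ a + r → (j = i + 1 ∨ i = j + 1) → G.Adj (y (c i)) (y (c j)) := by
    rintro i j i1 i2 (rfl | rfl)
    · exact wk i (by omega) i2
    · exact (wk j (by omega) (by omega)).symm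
  have ed : ∀ w ∈ N, ∀ b ∈ D ∪ N, L.Adj w b →
      G.Adj (y (c (lev w))) (if b ∈ N then y (c (lev b)) else φ b) := fun w hw b hb e => by
    have := ad (lev w) (lev b) (hN w hw).2.1 (hN w hw).2.2 (hl.adj w b e)
    split_ifs with hb'
    · exact this
    · rwa [← act b ⟨hb.resolve_right hb', w, (hN w hw).1, e.symm⟩]
  refine hy (fun w => if w ∈ N then y (c (lev w)) else φ w) (fun u hu w hw e => ?_)
    (fun u hu w hw e => ?_) fun w hw => ?_
  · by_cases e1 : u ∈ N <;> by_cases e2 : w ∈ N <;> simp only [e1, e2, if_true, if_false] at e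
    · by_contra ne
      have := mt (hi e1 e2) ne
      have b1 := hN u e1
      have b2 := hN w e2
      exact (ad (lev u) (lev w) b1.2.1 b1.2.2 (by omega)).ne e
    · exact absurd e (av u e1 w)
    · exact absurd e.symm (av w e2 u)
    · exact h1 (hu.resolve_right e1) (hw.resolve_right e2) e
  · by_cases e1 : u ∈ N
    · rw [if_pos e1]
      exact ed u e1 w hw e
    by_cases e2 : w ∈ N
    · rw [if_pos e2]
      exact (ed w e2 u hu e.symm).symm
    · rw [if_neg e1, if_neg e2]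
      exact h2 u (hu.resolve_right e1) w (hw.resolve_right e2) e
  · split_ifs with e
    · rfl
    · obtain ⟨h, b, hb, e'⟩ := hw
      exact act w ⟨h.resolve_right e, b, fun h => hb (Or.inl h), e'⟩

lemma Sw.mass [Fintype W] (h : Ker p c M) (hl : Lev L lev M) (hr : r ≤ 2) {η : ℝ}
    (hR : RS G p c M r (Fintype.card W) η) {t : ℕ} {D : Set W} (hS : Sw L lev M r t D) :
    E p c M (fun x => ind (¬ Good L lev G c D x)) ≤ (2 ^ t - 1) * (η * Fintype.card (ι → V)) := by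
  induction hS with
  | done =>
    have : ∀ x, ind (¬ Good L lev G c Set.univ x) ≤ 0 := fun x =>
      (ind_neg (not_not.2 fun φ h1 h2 _ => ⟨⟨⟨φ, fun e => h2 _ trivial _ trivial e⟩,
        fun _ _ e => h1 trivial trivial e⟩⟩)).le
    simpa [h.E_const le_rfl] using h.E_mono M this
  | @move t D a N ha hN hi hA _ ih =>
    have h1 := h.E_mono M fun x => ind_mono (stuck_of (G := G) (c := c) hl hr hN hi hA (x := x))
    have h2 := hR a ha (Good L lev G c (D ∪ N))
    rw [pow_succ]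
    linarith

lemma Sw.embed [Fintype W] [Nonempty V] (h : Ker p c M) (hl : Lev L lev M) (hr : r ≤ 2) {η : ℝ}
    (η0 : 0 ≤ η) (hR : RS G p c M r (Fintype.card W) η) {t : ℕ} (hS : Sw L lev M r t ∅)
    (hη : 2 ^ t * η < 1) : L ⊑ G := by
  by_contra hn
  have h1 := hS.mass h hl hr hR
  have h2 := h.E_mono M (F := fun _ => 1) fun x => (ind_pos (q := ¬ Good L lev G c ∅ x) fun e =>
    hn (e (fun _ => Classical.arbitrary V) (Set.injOn_empty _) (fun _ h => h.elim)
      fun _ h => h.1.elim)).ge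
  rw [h.E_const le_rfl] at h2
  have : (0 : ℝ) < Fintype.card (ι → V) := Nat.cast_pos.2 Fintype.card_pos
  nlinarith [mul_nonneg η0 this.le]

/-- The simple random walk on `G`. -/
def P (G : SimpleGraph V) (u z : V) : ℝ :=
  if G.Adj u z then (((univ.filter (G.Adj u)).card : ℕ) : ℝ)⁻¹ else 0

lemma deg_eq (G : SimpleGraph V) (v : V) :
    (G.neighborSet v).ncard = (univ.filter (G.Adj v)).card := by
  rw [← Set.ncard_coe_finset]
  congr 1
  ext w
  simp

lemma P_ker {δ : ℝ} (h0 : 0 < δ) (hd : ∀ v, δ ≤ (univ.filter (G.Adj v)).card) (M : ℕ) :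
    Ker (P G) (Fin.ofNat (M + 1)) M := by
  refine ⟨fun u z => ?_, fun u => ?_, fun i j hi hj e => ?_⟩
  · unfold P
    split_ifs <;> positivity
  · rw [sum_congr rfl fun z _ => P.eq_1 G u z, ← sum_filter, sum_const, nsmul_eq_mul,
      mul_inv_cancel₀ (h0.trans_le (hd u)).ne']
  · have := congrArg Fin.val e
    rwa [Fin.val_ofNat, Fin.val_ofNat, Nat.mod_eq_of_lt (by omega), Nat.mod_eq_of_lt (by omega)]
      at this

lemma P_adj (u z : V) (h : P G u z ≠ 0) : G.Adj u z := by_contra fun e => h (if_neg e)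

lemma P_le {δ : ℝ} (h0 : 0 < δ) (hd : ∀ v, δ ≤ (univ.filter (G.Adj v)).card) (u z : V) :
    P G u z ≤ δ⁻¹ := by
  unfold P
  split_ifs
  · exact inv_anti₀ h0 (hd u)
  · positivity

lemma Sw.up [Fintype W] (hl : Lev L lev M) {t : ℕ} (hS : Sw L lev M 1 t ∅) : Up L 2 := by
  obtain ⟨b, hb⟩ : ∃ b : ℝ, b = 2 ^ t * 2 * Fintype.card W := ⟨_, rfl⟩
  have b0 : 0 ≤ b := by rw [hb]; positivity
  refine up_of_minDeg (by omega) (θ := (b + 1)⁻¹) (by positivity) fun V _ _ G δ h0 hd hV => ?_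
  simp only [deg_eq] at hd
  refine hS.embed (P_ker h0 hd M) hl (by omega) (by positivity)
    ((P_ker h0 hd M).rs_one P_adj (P_le h0 hd) _) ?_
  calc _ = b * (δ⁻¹ * δ⁻¹) * Fintype.card V := by rw [hb]; ring
    _ ≤ b * (δ⁻¹ * δ⁻¹) * ((b + 1)⁻¹ * δ) ^ 2 := by gcongr
    _ = b / (b + 1) ^ 2 := by field_simp
    _ < 1 := by rw [div_lt_one (by positivity)]; nlinarith

lemma heavy_card {s T : ℕ} {κ : ℝ}
    (hK : ∀ S Z : Finset V, s ≤ S.card → s ≤ Z.card → ¬ ∀ a ∈ S, ∀ b ∈ Z, G.Adj a b)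
    (hT : 2 * (s : ℝ) ≤ T * κ) {N A : Finset V} (hN : T * 2 ^ T < N.card)
    (hA : ∀ w ∈ A, κ * N.card ≤ (N.filter (G.Adj w)).card) : A.card ≤ T := by
  by_contra hc
  obtain ⟨B, hB, rfl⟩ := exists_subset_card_eq (not_le.1 hc).le
  have s0 : 0 < s := Nat.pos_of_ne_zero fun e => hK ∅ ∅ (by omega) (by omega) (by simp)
  have h1 : ∑ w ∈ B, (N.filter (G.Adj w)).card = ∑ z ∈ N, (B.filter (G.Adj · z)).card := by
    simp only [card_filter]
    exact sum_comm
  have h2 : (B.card : ℝ) * (κ * N.card) ≤ ((∑ w ∈ B, (N.filter (G.Adj w)).card : ℕ) : ℝ) := by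
    rw [← nsmul_eq_mul, Nat.cast_sum]
    exact card_nsmul_le_sum _ _ _ fun w hw => hA w (hB hw)
  have h3 : (N.filter fun z => s ≤ (B.filter (G.Adj · z)).card).card ≤ s * 2 ^ B.card := by
    rw [← card_powerset]
    refine card_le_mul_card_image_of_maps_to (f := fun z => B.filter (G.Adj · z))
      (fun z _ => mem_powerset.2 (filter_subset _ _)) s fun S _ => le_of_not_ge fun h => ?_
    obtain ⟨z, hz⟩ := card_pos.1 (s0.trans_le h)
    simp only [mem_filter] at hz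
    refine hK S _ (hz.2 ▸ hz.1.2) h fun a ha b hb => ?_
    rw [← (mem_filter.1 hb).2] at ha
    exact (mem_filter.1 ha).2
  have h4 : ∑ z ∈ N, (B.filter (G.Adj · z)).card ≤
      ∑ z ∈ N, (s + if s ≤ (B.filter (G.Adj · z)).card then B.card else 0) :=
    sum_le_sum fun z _ => by
      have := card_filter_le B (G.Adj · z)
      split_ifs <;> omega
  rw [sum_add_distrib, ← sum_filter, sum_const, sum_const, smul_eq_mul, smul_eq_mul] at h4
  have h5 : ∑ w ∈ B, (N.filter (G.Adj w)).card < 2 * s * N.card := by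
    have := Nat.mul_le_mul_right B.card h3
    have := Nat.mul_lt_mul_of_pos_left hN s0
    nlinarith
  have h6 : ((∑ w ∈ B, (N.filter (G.Adj w)).card : ℕ) : ℝ) < 2 * s * N.card := by exact_mod_cast h5
  nlinarith [mul_le_mul_of_nonneg_right hT (Nat.cast_nonneg (α := ℝ) N.card)]

lemma heavy_mass {s T : ℕ} {κ δ : ℝ}
    (hK : ∀ S Z : Finset V, s ≤ S.card → s ≤ Z.card → ¬ ∀ a ∈ S, ∀ b ∈ Z, G.Adj a b)
    (hT : 2 * (s : ℝ) ≤ T * κ) (h0 : 0 < δ) (hδ : ((T * 2 ^ T : ℕ) : ℝ) < δ)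
    (hd : ∀ v, δ ≤ (univ.filter (G.Adj v)).card) (v : V) :
    ∑ w, P2 (P G) v w * ind (κ * δ⁻¹ < P2 (P G) v w) ≤ T * δ⁻¹ := by
  have hk := P_ker h0 hd 0
  have d0 := h0.trans_le (hd v)
  have := sum_ind_le (B := univ.filter fun w => κ * δ⁻¹ < P2 (P G) v w) (k := T)
    (heavy_card hK hT (N := univ.filter (G.Adj v)) (by exact_mod_cast hδ.trans_le (hd v))
      fun w hw => ?_) (f := P2 (P G) v) (b := δ⁻¹) (by positivity) fun w => ?_
  · simpa only [mem_filter, mem_univ, true_and] using this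
  · have h1 : P2 (P G) v w ≤ ∑ z ∈ (univ.filter (G.Adj v)).filter (G.Adj w),
        (((univ.filter (G.Adj v)).card : ℕ) : ℝ)⁻¹ * δ⁻¹ := by
      rw [sum_filter, sum_filter]
      refine sum_le_sum fun z _ => ?_
      by_cases e : G.Adj v z
      · rw [if_pos e, P, if_pos e]
        split_ifs with e'
        · exact mul_le_mul_of_nonneg_left (P_le h0 hd _ _) (by positivity)
        · rw [P, if_neg fun h => e' h.symm, mul_zero]
      · rw [if_neg e, P, if_neg e, zero_mul]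
    rw [sum_const, nsmul_eq_mul, ← mul_assoc] at h1
    have h2 := lt_of_mul_lt_mul_right ((mem_filter.1 hw).2.trans_le h1) (by positivity)
    exact ((lt_mul_inv_iff₀ d0).1 h2).le
  · calc P2 (P G) v w ≤ ∑ z, P G v z * δ⁻¹ :=
          sum_le_sum fun z _ => mul_le_mul_of_nonneg_left (P_le h0 hd _ _) (hk.nn _ _)
      _ = δ⁻¹ := by rw [← sum_mul, hk.one, one_mul]

lemma Lev.free [Fintype W] (hl : Lev L lev M) (hn : ¬ L ⊑ G) (S Z : Finset V)
    (hS : Fintype.card W ≤ S.card) (hZ : Fintype.card W ≤ Z.card) :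
    ¬ ∀ a ∈ S, ∀ b ∈ Z, G.Adj a b := fun h => by
  obtain ⟨f⟩ : Nonempty (W ↪ S) := Embedding.nonempty_of_card_le (by simpa using hS)
  obtain ⟨g⟩ : Nonempty (W ↪ Z) := Embedding.nonempty_of_card_le (by simpa using hZ)
  have k := fun a b => h _ (f a).2 _ (g b).2
  refine hn ⟨⟨⟨fun w => if lev w % 2 = 0 then f w else g w, fun {a b} e => ?_⟩, fun a b e => ?_⟩⟩
  · have := hl.adj a b e
    split_ifs
    · omega
    · exact k a b
    · exact (k b a).symm
    · omega
  · simp only [RelHom.coeFn_mk] at e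
    split_ifs at e
    · exact f.injective (Subtype.ext e)
    · exact absurd e (k a b).ne
    · exact absurd e (k b a).ne'
    · exact g.injective (Subtype.ext e)

lemma Sw.embed_two [Fintype W] (hl : Lev L lev M) {t : ℕ} (hS : Sw L lev M 2 t ∅) {θ : ℝ}
    (hθ : 0 < θ) : ∃ δ₀ : ℝ, ∀ (V : Type) [Fintype V] [Nonempty V] (G : SimpleGraph V) (δ : ℝ),
      0 < δ → δ₀ ≤ δ → (∀ v, δ ≤ (G.neighborSet v).ncard) →
      (Fintype.card V : ℝ) ≤ (θ * δ) ^ 2 → L ⊑ G := by
  obtain ⟨b, hb⟩ : ∃ b : ℝ, b = 2 ^ t * 4 * Fintype.card W * θ ^ 2 := ⟨_, rfl⟩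
  have b0 : 0 ≤ b := by rw [hb]; positivity
  obtain ⟨T, hT⟩ := exists_nat_ge (2 * (Fintype.card W : ℝ) * (2 * b + 1))
  refine ⟨max (((T * 2 ^ T : ℕ) : ℝ) + 1) (2 ^ t * 8 * T), fun V _ _ G δ h0 hδ hd hV =>
    by_contra fun hn => hn ?_⟩
  simp only [deg_eq] at hd
  rw [max_le_iff] at hδ
  refine hS.embed (P_ker h0 hd M) hl le_rfl (by positivity)
    ((P_ker h0 hd M).rs_two P_adj (P_le h0 hd) (κ := (2 * b + 1)⁻¹ * δ⁻¹) (by positivity)
      (heavy_mass (T := T) (hl.free hn) ((le_mul_inv_iff₀ (by positivity)).2 hT) h0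
        (by linarith [hδ.1]) hd) _) ?_
  have h1 : 2 ^ t * (4 * (T * δ⁻¹)) ≤ 1 / 2 := by
    rw [← mul_assoc, ← mul_assoc, mul_inv_le_iff₀ h0]
    linarith [hδ.2]
  have h2 : 2 ^ t * (2 * (2 * (Fintype.card W * (δ⁻¹ * ((2 * b + 1)⁻¹ * δ⁻¹)))) *
      (θ * δ) ^ 2) < 1 / 2 := by
    calc _ = b / (2 * b + 1) := by rw [div_eq_mul_inv, hb]; field_simp; ring
      _ < 1 / 2 := by rw [div_lt_iff₀ (by positivity)]; linarith
  have h3 : 2 ^ t * (2 * (2 * (Fintype.card W * (δ⁻¹ * ((2 * b + 1)⁻¹ * δ⁻¹)))) *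
      (Fintype.card V : ℝ)) ≤ 2 ^ t * (2 * (2 * (Fintype.card W * (δ⁻¹ * ((2 * b + 1)⁻¹ * δ⁻¹)))) *
      (θ * δ) ^ 2) := by gcongr
  rw [mul_add]
  linarith

lemma Sw.littleO [Fintype W] (hl : Lev L lev M) {t : ℕ} (hS : Sw L lev M 2 t ∅) :
    (fun n : ℕ => (extremalNumber n L : ℝ)) =o[atTop]
      fun n : ℕ => (n : ℝ) ^ (1 + 1 / ((2 : ℕ) : ℝ)) := by
  refine isLittleO_iff.2 fun ε ε0 => ?_
  have hθ : 0 < 2 / ε := by positivity
  obtain ⟨δ₀, h⟩ := hS.embed_two hl hθ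
  have ev := ((tendsto_rpow_atTop (y := 1 / ((2 : ℕ) : ℝ)) (by positivity)).comp
    tendsto_natCast_atTop_atTop).eventually_ge_atTop (2 / ε * δ₀)
  filter_upwards [ev, eventually_gt_atTop 0] with n hn n0
  rw [Real.norm_of_nonneg (by positivity), Real.norm_of_nonneg (by positivity)]
  have key := extremalNumber_le_iff_of_nonneg (V := Fin n) L
    (m := ε * (n : ℝ) ^ (1 + 1 / ((2 : ℕ) : ℝ))) (by positivity)
  rw [Fintype.card_fin] at key
  refine key.2 fun G _ hG => ?_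
  by_contra hc
  rw [not_le] at hc
  have e0 : (0 : ℝ) < G.edgeFinset.card := lt_of_le_of_lt (by positivity) hc
  replace n0 : (0 : ℝ) < n := by exact_mod_cast n0
  obtain ⟨S, S0, hS⟩ := extr_core G (δ := G.edgeFinset.card / (2 * n)) (by
    rw [extrD_univ, Fintype.card_fin]
    have : 2 * ((G.edgeFinset.card : ℝ) / (2 * n)) * n = G.edgeFinset.card := by field_simp
    linarith)
  have : Nonempty (S : Set (Fin n)) := ⟨⟨S0.choose, S0.choose_spec⟩⟩
  have c2 : (n : ℝ) ^ (1 / ((2 : ℕ) : ℝ)) ≤ 2 / ε * (G.edgeFinset.card / (2 * n)) := by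
    rw [Real.rpow_add n0, Real.rpow_one] at hc
    rw [show 2 / ε * ((G.edgeFinset.card : ℝ) / (2 * n)) = G.edgeFinset.card / (ε * n) by
      field_simp, le_div_iff₀ (by positivity)]
    linarith
  refine hG ((h (S : Set (Fin n)) (G.induce S) (G.edgeFinset.card / (2 * n)) (by positivity)
    (le_of_mul_le_mul_left (hn.trans c2) hθ)
    (fun v => by rw [extr_ncard]; exact hS v v.2) ?_).trans ⟨Copy.induce G _⟩)
  have c1 : (Fintype.card (S : Set (Fin n)) : ℝ) ≤ n := by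
    have := Fintype.card_le_of_injective (fun x : (S : Set (Fin n)) => x.1) Subtype.val_injective
    rw [Fintype.card_fin] at this
    exact_mod_cast this
  have c3 := pow_le_pow_left₀ (by positivity) c2 2
  rw [one_div, Real.rpow_inv_natCast_pow n0.le (by omega)] at c3
  exact c1.trans c3

end Pool.Agent.Lib.MP_efdbfd_co.Grid
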