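import Pool.Agent.Lib.MP_efdbfd_co.Final

/-! Random walks with resampling of one or two consecutive positions. -/

set_option autoImplicit false
set_option linter.unusedSectionVars false

open Finset SimpleGraph Function
open scoped Classical

noncomputable section

namespace Pool.Agent.Lib.MP_efdbfd_co.Grid

variable {V ι : Type} [Fintype V] [Fintype ι]

/-- The indicator of a proposition. -/
def ind (q : Prop) : ℝ := if q then 1 else 0

lemma ind_nonneg (q : Prop) : 0 ≤ ind q := by unfold ind; split_ifs <;> norm_num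

lemma ind_le_one (q : Prop) : ind q ≤ 1 := by unfold ind; split_ifs <;> norm_num

lemma ind_pos {q : Prop} (h : q) : ind q = 1 := if_pos h

lemma ind_neg {q : Prop} (h : ¬ q) : ind q = 0 := if_neg h

lemma ind_mono {q q' : Prop} (h : q → q') : ind q ≤ ind q' := by
  by_cases e : q
  · rw [ind_pos e, ind_pos (h e)]
  · rw [ind_neg e]; exact ind_nonneg _

/-- A stochastic kernel together with an indexing of the positions `0, …, M`. -/
structure Ker (p : V → V → ℝ) (c : ℕ → ι) (M : ℕ) : Prop where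
  nn : ∀ u z, 0 ≤ p u z
  one : ∀ u, ∑ z, p u z = 1
  inj : ∀ i j, i ≤ M → j ≤ M → c i = c j → i = j

/-- Weight of the steps with index in `s`. -/
def wt (p : V → V → ℝ) (c : ℕ → ι) (s : Finset ℕ) (x : ι → V) : ℝ :=
  ∏ j ∈ s, p (x (c j)) (x (c (j + 1)))

/-- Integral with respect to the walk with `k` steps. -/
def E (p : V → V → ℝ) (c : ℕ → ι) (k : ℕ) (F : (ι → V) → ℝ) : ℝ :=
  (Fintype.card V : ℝ) ^ k * ∑ x, wt p c (range k) x * F x

lemma sum_update (i : ι) (f : (ι → V) → ℝ) :
    ∑ x, ∑ z, f (update x i z) = Fintype.card V * ∑ x, f x := by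
  have inv : Involutive fun y : (ι → V) × V => (update y.1 i y.2, y.1 i) := fun y => by simp
  have h := Equiv.sum_comp inv.toPerm fun y => f y.1
  simp only [Involutive.coe_toPerm, Fintype.sum_prod_type, sum_const, card_univ, nsmul_eq_mul] at h
  rw [h, mul_sum]

variable {p : V → V → ℝ} {c : ℕ → ι} {M : ℕ}

lemma Ker.wt_nonneg (h : Ker p c M) (s : Finset ℕ) (x : ι → V) : 0 ≤ wt p c s x :=
  prod_nonneg fun _ _ => h.nn _ _

lemma Ker.E_mono (h : Ker p c M) (k : ℕ) {F F' : (ι → V) → ℝ} (hF : ∀ x, F x ≤ F' x) :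
    E p c k F ≤ E p c k F' :=
  mul_le_mul_of_nonneg_left (sum_le_sum fun x _ =>
    mul_le_mul_of_nonneg_left (hF x) (h.wt_nonneg _ x)) (by positivity)

lemma E_add (k : ℕ) (F F' : (ι → V) → ℝ) :
    E p c k (fun x => F x + F' x) = E p c k F + E p c k F' := by
  simp only [E, mul_add, sum_add_distrib]

lemma E_mul (k : ℕ) (b : ℝ) (F : (ι → V) → ℝ) :
    E p c k (fun x => b * F x) = b * E p c k F := by
  simp only [E, mul_sum]
  exact sum_congr rfl fun x _ => by ring

lemma Ker.ne (h : Ker p c M) {i j : ℕ} (hi : i ≤ M) (hj : j ≤ M) (e : i ≠ j) : c i ≠ c j :=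
  fun e' => e (h.inj i j hi hj e')

lemma Ker.E_succ (h : Ker p c M) {k : ℕ} (hk : k + 1 ≤ M) (F : (ι → V) → ℝ) :
    E p c (k + 1) F =
      E p c k fun x => ∑ z, p (x (c k)) z * F (update x (c (k + 1)) z) := by
  rw [E, pow_succ, mul_assoc, ← sum_update (c (k + 1)), E]
  congr 1
  refine sum_congr rfl fun x _ => ?_
  rw [mul_sum]
  refine sum_congr rfl fun z _ => ?_
  rw [wt, prod_range_succ, update_self, update_of_ne (h.ne (by omega) hk (by omega)), wt,
    mul_assoc]
  congr 1
  refine prod_congr rfl fun j hj => ?_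
  rw [mem_range] at hj
  rw [update_of_ne (h.ne (by omega) hk (by omega)), update_of_ne (h.ne (by omega) hk (by omega))]

lemma Ker.E_const (h : Ker p c M) {k : ℕ} (hk : k ≤ M) (b : ℝ) :
    E p c k (fun _ => b) = b * Fintype.card (ι → V) := by
  induction k with
  | zero => simp [E, wt, mul_comm]
  | succ k ih =>
    rw [h.E_succ hk, ← ih (by omega)]
    simp only [← sum_mul, h.one, one_mul]

lemma Ker.E_tail (h : Ker p c M) {i j k : ℕ} (hi : i ≤ j) (hj : j ≤ k) (hk : k ≤ M)
    (f : V → V → ℝ) :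
    E p c k (fun x => f (x (c i)) (x (c j))) = E p c j fun x => f (x (c i)) (x (c j)) := by
  induction k, hj using Nat.le_induction with
  | base => rfl
  | succ k hj ih =>
    rw [h.E_succ hk, ← ih (by omega)]
    simp only [update_of_ne (h.ne (i := i) (by omega) hk (by omega)),
      update_of_ne (h.ne (i := j) (by omega) hk (by omega)), ← sum_mul, h.one, one_mul]

/-- One step in the second variable. -/
def step (p : V → V → ℝ) (f : V → V → ℝ) : V → V → ℝ := fun u w => ∑ z, p w z * f u z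

lemma Ker.window (h : Ker p c M) {j s : ℕ} (hs : j + s ≤ M) {f : V → V → ℝ} {b : ℝ}
    (hb : ∀ u, (step p)^[s] f u u ≤ b) :
    E p c M (fun x => f (x (c j)) (x (c (j + s)))) ≤ b * Fintype.card (ι → V) := by
  rw [h.E_tail (by omega) hs le_rfl]
  induction s generalizing f with
  | zero => exact (h.E_mono j fun x => hb _).trans (h.E_const hs b).le
  | succ s ih =>
    rw [← add_assoc, h.E_succ (k := j + s) hs]
    simp only [update_self, update_of_ne (h.ne (i := j) (j := j + s + 1) (by omega) hs (by omega))]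
    exact ih (f := step p f) (by omega) hb

/-- `y` agrees with `x` outside the positions `a + 1, …, a + r`. -/
def Agree (c : ℕ → ι) (M a r : ℕ) (x y : ι → V) : Prop :=
  ∀ j, j ≤ M → (j ≤ a ∨ a + r < j) → y (c j) = x (c j)

lemma Ker.cmp (h : Ker p c M) {a r : ℕ} (ha : a + r + 1 ≤ M) {Z : Type} [Fintype Z]
    {u : (ι → V) → Z → ι → V} {m : ℝ} (hm : 0 < m)
    (avg : ∀ f : (ι → V) → ℝ, ∑ x, ∑ z, f (u x z) = m * ∑ x, f x)
    (ag : ∀ x z, Agree c M a r x (u x z)) {F F' : (ι → V) → ℝ}
    (hF : ∀ x, ∑ z, wt p c (Ico a (a + r + 1)) (u x z) * F (u x z) ≤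
      ∑ z, wt p c (Ico a (a + r + 1)) (u x z) * F' (u x z)) :
    E p c M F ≤ E p c M F' := by
  have key : ∀ F : (ι → V) → ℝ, m * ∑ x, wt p c (range M) x * F x =
      ∑ x, wt p c (range M \ Ico a (a + r + 1)) x *
        ∑ z, wt p c (Ico a (a + r + 1)) (u x z) * F (u x z) := fun F => by
    rw [← avg]
    refine sum_congr rfl fun x _ => ?_
    rw [mul_sum]
    refine sum_congr rfl fun z _ => ?_
    have sub : Ico a (a + r + 1) ⊆ range M := fun j hj => by
      rw [mem_Ico] at hj; rw [mem_range]; omega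
    rw [wt, ← prod_sdiff sub, ← mul_assoc]
    congr 2
    refine prod_congr rfl fun j hj => ?_
    simp only [mem_sdiff, mem_range, mem_Ico, not_and, not_lt] at hj
    rw [ag x z j (by omega) (by omega), ag x z (j + 1) (by omega) (by omega)]
  refine mul_le_mul_of_nonneg_left (le_of_mul_le_mul_left ?_ hm) (by positivity)
  rw [key, key]
  exact sum_le_sum fun x _ => mul_le_mul_of_nonneg_left (hF x) (h.wt_nonneg _ x)

/-- Every good refilling of the window hits one small set of vertices. -/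
def Stuck (G : SimpleGraph V) (c : ℕ → ι) (M a r k : ℕ) (Q : (ι → V) → Prop) (x : ι → V) : Prop :=
  ∃ B : Finset V, B.card ≤ k ∧ ∀ y, Agree c M a r x y →
    (∀ j, a ≤ j → j ≤ a + r → G.Adj (y (c j)) (y (c (j + 1)))) → Q y →
      ∃ j, a < j ∧ j ≤ a + r ∧ y (c j) ∈ B

lemma Ker.resample (h : Ker p c M) {G : SimpleGraph V} (hG : ∀ u z, p u z ≠ 0 → G.Adj u z)
    {a r k : ℕ} (ha : a + r + 1 ≤ M) {Z : Type} [Fintype Z]
    {u : (ι → V) → Z → ι → V} {m : ℝ} (hm : 0 < m)
    (avg : ∀ f : (ι → V) → ℝ, ∑ x, ∑ z, f (u x z) = m * ∑ x, f x)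
    (ag : ∀ x z, Agree c M a r x (u x z)) {K : V → V → ℝ}
    (hK : ∀ x, ∑ z, wt p c (Ico a (a + r + 1)) (u x z) = K (x (c a)) (x (c (a + r + 1))))
    (hK' : ∀ f v, (step p)^[r + 1] f v v = ∑ w, K v w * f v w) {t : ℝ} (ht : 0 ≤ t)
    {H : (ι → V) → ℝ} (H0 : ∀ x, 0 ≤ H x)
    (atom : ∀ x (B : Finset V), B.card ≤ k → ∑ z, wt p c (Ico a (a + r + 1)) (u x z) *
      (ind (∃ j, a < j ∧ j ≤ a + r ∧ u x z (c j) ∈ B) - H (u x z)) ≤ t)
    (Q : (ι → V) → Prop) :
    E p c M (fun x => ind (Stuck G c M a r k Q x)) ≤ 2 * E p c M (fun x => ind (¬ Q x)) +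
      2 * E p c M H + 2 * t * Fintype.card V * Fintype.card (ι → V) := by
  have w := h.window (j := a) (s := r + 1) ha (f := fun v w => ind (K v w ≤ 2 * t))
    (b := 2 * t * Fintype.card V) fun v => by
      rw [hK', ← card_univ, mul_comm (2 * t), ← nsmul_eq_mul, ← sum_const]
      refine sum_le_sum fun w _ => ?_
      by_cases e : K v w ≤ 2 * t
      · rwa [ind_pos e, mul_one]
      · rw [ind_neg e, mul_zero]; positivity
  refine le_trans ?_ (add_le_add_right w _)
  rw [← E_mul, ← E_mul, ← E_add, ← E_add]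
  refine h.cmp ha hm avg ag fun x => ?_
  have w0 := fun z => h.wt_nonneg (Ico a (a + r + 1)) (u x z)
  have e1 : ∀ z, u x z (c a) = x (c a) := fun z => ag x z a (by omega) (by omega)
  have e2 : ∀ z, u x z (c (a + (r + 1))) = x (c (a + r + 1)) := fun z =>
    ag x z (a + r + 1) (by omega) (by omega)
  simp only [e1, e2]
  by_cases e : K (x (c a)) (x (c (a + r + 1))) ≤ 2 * t
  · refine sum_le_sum fun z _ => mul_le_mul_of_nonneg_left ?_ (w0 z)
    linarith [ind_le_one (Stuck G c M a r k Q (u x z)), ind_nonneg (¬ Q (u x z)), H0 (u x z),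
      ind_pos e]
  by_cases s : ∃ z, Stuck G c M a r k Q (u x z)
  · obtain ⟨z0, B, hB, hs⟩ := s
    have a1 := atom x B hB
    have a2 : ∑ z, wt p c (Ico a (a + r + 1)) (u x z) ≤
        ∑ z, wt p c (Ico a (a + r + 1)) (u x z) * (ind (¬ Q (u x z)) +
          ind (∃ j, a < j ∧ j ≤ a + r ∧ u x z (c j) ∈ B)) := sum_le_sum fun z _ => by
      rcases (w0 z).eq_or_lt with e0 | e0
      · rw [← e0, zero_mul]
      refine le_mul_of_one_le_right e0.le ?_
      by_cases q : Q (u x z)
      · rw [ind_pos (hs _ (fun j j1 j2 => (ag x z j j1 j2).trans (ag x z0 j j1 j2).symm)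
          (fun j j1 j2 => hG _ _ (prod_ne_zero_iff.1 e0.ne' j (mem_Ico.2 ⟨j1, by omega⟩))) q)]
        linarith [ind_nonneg (¬ Q (u x z))]
      · rw [ind_pos q]
        linarith [ind_nonneg (∃ j, a < j ∧ j ≤ a + r ∧ u x z (c j) ∈ B)]
    have a3 : ∑ z, wt p c (Ico a (a + r + 1)) (u x z) * ind (Stuck G c M a r k Q (u x z)) ≤
        ∑ z, wt p c (Ico a (a + r + 1)) (u x z) :=
      sum_le_sum fun z _ => mul_le_of_le_one_right (w0 z) (ind_le_one _)
    have a4 := hK x
    simp only [ind_neg e, add_zero, mul_add, mul_sub, sum_add_distrib, sum_sub_distrib,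
      mul_left_comm _ (2 : ℝ), ← mul_sum] at a1 a2 ⊢
    linarith [not_le.1 e]
  · refine sum_le_sum fun z _ => mul_le_mul_of_nonneg_left ?_ (w0 z)
    rw [ind_neg fun e => s ⟨z, e⟩]
    linarith [ind_nonneg (¬ Q (u x z)), H0 (u x z),
      ind_nonneg (K (x (c a)) (x (c (a + r + 1))) ≤ 2 * t)]

/-- The resampling inequality for all windows of length `r`. -/
def RS (G : SimpleGraph V) (p : V → V → ℝ) (c : ℕ → ι) (M r k : ℕ) (η : ℝ) : Prop :=
  ∀ a, a + r + 1 ≤ M → ∀ Q : (ι → V) → Prop, E p c M (fun x => ind (Stuck G c M a r k Q x)) ≤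
    2 * E p c M (fun x => ind (¬ Q x)) + η * Fintype.card (ι → V)

lemma sum_ind_le {B : Finset V} {k : ℕ} (hB : B.card ≤ k) {f : V → ℝ} {b : ℝ} (hb : 0 ≤ b)
    (hf : ∀ z, f z ≤ b) : ∑ z, f z * ind (z ∈ B) ≤ k * b := by
  calc ∑ z, f z * ind (z ∈ B) = ∑ z ∈ B, f z := by simp [ind]
    _ ≤ B.card * b := by rw [← nsmul_eq_mul]; exact sum_le_card_nsmul _ _ _ fun z _ => hf z
    _ ≤ k * b := mul_le_mul_of_nonneg_right (by exact_mod_cast hB) hb

lemma Ker.rs_one [Nonempty V] (h : Ker p c M) {G : SimpleGraph V}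
    (hG : ∀ u z, p u z ≠ 0 → G.Adj u z) {d : ℝ} (hd : ∀ u z, p u z ≤ d) (k : ℕ) :
    RS G p c M 1 k (2 * (k * (d * d)) * Fintype.card V) := fun a ha Q => by
  have d0 : 0 ≤ d := (h.nn (Classical.arbitrary V) (Classical.arbitrary V)).trans (hd _ _)
  have w : ∀ x z, wt p c (Ico a (a + 1 + 1)) (update x (c (a + 1)) z) =
      p (x (c a)) z * p z (x (c (a + 1 + 1))) := fun x z => by
    rw [wt, prod_Ico_succ_top (by omega), prod_Ico_succ_top (by omega), Ico_self, prod_empty,
      one_mul, update_self, update_of_ne (h.ne (by omega) (by omega) (by omega)),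
      update_of_ne (h.ne (by omega) (by omega) (by omega))]
  have := h.resample hG (k := k) ha (u := fun x z => update x (c (a + 1)) z)
    (Nat.cast_pos.2 Fintype.card_pos) (sum_update _)
    (fun x z j j1 j2 => update_of_ne (h.ne j1 (by omega) (by omega)) _ _)
    (K := fun v w => ∑ z, p v z * p z w) (fun x => sum_congr rfl fun z _ => w x z)
    (fun f v => by
      simp only [iterate_succ_apply', iterate_zero_apply, step, mul_sum, sum_mul, mul_assoc]
      exact sum_comm)
    (t := k * (d * d)) (by positivity) (H := fun _ => 0) (fun _ => le_rfl)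
    (fun x B hB => le_trans (sum_le_sum fun z _ => by
      rw [w, sub_zero]
      refine mul_le_mul_of_nonneg_left (ind_mono ?_) (mul_nonneg (h.nn _ _) (h.nn _ _))
      rintro ⟨j, j1, j2, j3⟩
      rwa [show j = a + 1 by omega, update_self] at j3)
      (sum_ind_le hB (by positivity) fun z => mul_le_mul (hd _ _) (hd _ _) (h.nn _ _) d0)) Q
  rwa [h.E_const le_rfl, zero_mul, mul_zero, add_zero] at this

/-- The two step kernel. -/
def P2 (p : V → V → ℝ) (v w : V) : ℝ := ∑ z, p v z * p z w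

lemma Ker.rs_two [Nonempty V] (h : Ker p c M) {G : SimpleGraph V}
    (hG : ∀ u z, p u z ≠ 0 → G.Adj u z) {d κ b : ℝ} (hd : ∀ u z, p u z ≤ d) (κ0 : 0 ≤ κ)
    (hb : ∀ v, ∑ w, P2 p v w * ind (κ < P2 p v w) ≤ b) (k : ℕ) :
    RS G p c M 2 k (4 * b + 2 * (2 * (k * (d * κ))) * Fintype.card V) := fun a ha Q => by
  have d0 : 0 ≤ d := (h.nn (Classical.arbitrary V) (Classical.arbitrary V)).trans (hd _ _)
  have n0 : (0 : ℝ) < Fintype.card V := Nat.cast_pos.2 Fintype.card_pos
  have ne : ∀ i j, i ≤ 3 → j ≤ 3 → i ≠ j → c (a + i) ≠ c (a + j) := fun i j hi hj e =>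
    h.ne (by omega) (by omega) (by omega)
  obtain ⟨u, hu⟩ : ∃ u : (ι → V) → V × V → ι → V,
      u = fun x z => update (update x (c (a + 1)) z.1) (c (a + 2)) z.2 := ⟨_, rfl⟩
  have ag : ∀ x z, Agree c M a 2 x (u x z) := fun x z j j1 j2 => by
    simp only [hu]
    rw [update_of_ne (h.ne j1 (by omega) (by omega)), update_of_ne (h.ne j1 (by omega) (by omega))]
  have u0 : ∀ x z, u x z (c a) = x (c a) := fun x z => ag x z a (by omega) (by omega)
  have u1 : ∀ x z, u x z (c (a + 1)) = z.1 := fun x z => by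
    simp only [hu]
    rw [update_of_ne (ne 1 2 (by omega) (by omega) (by omega)), update_self]
  have u2 : ∀ x z, u x z (c (a + 2)) = z.2 := fun x z => by simp only [hu, update_self]
  have u3 : ∀ x z, u x z (c (a + 3)) = x (c (a + 3)) := fun x z =>
    ag x z (a + 3) (by omega) (by omega)
  have w : ∀ x z, wt p c (Ico a (a + 2 + 1)) (u x z) =
      p (x (c a)) z.1 * p z.1 z.2 * p z.2 (x (c (a + 3))) := fun x z => by
    rw [wt, prod_Ico_succ_top (by omega), prod_Ico_succ_top (by omega),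
      prod_Ico_succ_top (by omega), Ico_self, prod_empty, one_mul, u0, u1, u2, u3]
  have hv : ∀ j, j + 2 ≤ M →
      E p c M (fun x => ind (κ < P2 p (x (c j)) (x (c (j + 2))))) ≤ b * Fintype.card (ι → V) :=
    fun j hj => h.window hj (f := fun v w => ind (κ < P2 p v w)) fun v => by
      refine le_of_eq_of_le ?_ (hb v)
      simp only [iterate_succ_apply', iterate_zero_apply, step, mul_sum]
      rw [sum_comm]
      exact sum_congr rfl fun w _ => by simp only [← mul_assoc, ← sum_mul, P2]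
  have li : ∀ v w, P2 p v w * ind (¬ κ < P2 p v w) ≤ κ := fun v w => by
    by_cases e : κ < P2 p v w
    · rwa [ind_neg (not_not.2 e), mul_zero]
    · rw [ind_pos e, mul_one]; exact not_lt.1 e
  have := h.resample hG (k := k) ha (u := u) (mul_pos n0 n0)
    (fun f => by
      simp only [hu, Fintype.sum_prod_type]
      rw [sum_update (c (a + 1)) fun x => ∑ z, f (update x (c (a + 2)) z), sum_update, mul_assoc])
    ag (K := fun v w => ∑ z : V × V, p v z.1 * p z.1 z.2 * p z.2 w)
    (fun x => sum_congr rfl fun z _ => w x z)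
    (fun f v => by
      simp only [iterate_succ_apply', iterate_zero_apply, step, mul_sum, sum_mul, mul_assoc,
        Fintype.sum_prod_type]
      rw [sum_comm (f := fun w z => ∑ y, p v z * (p z y * (p y w * f v w)))]
      exact sum_congr rfl fun z _ => sum_comm)
    (t := 2 * (k * (d * κ))) (by positivity)
    (H := fun x => ind (κ < P2 p (x (c a)) (x (c (a + 2)))) +
      ind (κ < P2 p (x (c (a + 1))) (x (c (a + 1 + 2)))))
    (fun _ => add_nonneg (ind_nonneg _) (ind_nonneg _))
    (fun x B hB => by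
      have s1 := sum_ind_le hB (f := fun z => p (x (c a)) z * (P2 p z (x (c (a + 3))) *
        ind (¬ κ < P2 p z (x (c (a + 3)))))) (b := d * κ) (by positivity) fun z =>
          (mul_le_mul_of_nonneg_left (li _ _) (h.nn _ _)).trans
            (mul_le_mul_of_nonneg_right (hd _ _) κ0)
      have s2 := sum_ind_le hB (f := fun z => p z (x (c (a + 3))) * (P2 p (x (c a)) z *
        ind (¬ κ < P2 p (x (c a)) z))) (b := d * κ) (by positivity) fun z =>
          (mul_le_mul_of_nonneg_left (li _ _) (h.nn _ _)).trans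
            (mul_le_mul_of_nonneg_right (hd _ _) κ0)
      refine le_trans (sum_le_sum (g := fun z : V × V =>
        p (x (c a)) z.1 * p z.1 z.2 * p z.2 (x (c (a + 3))) *
          (ind (¬ κ < P2 p z.1 (x (c (a + 3)))) * ind (z.1 ∈ B)) +
        p (x (c a)) z.1 * p z.1 z.2 * p z.2 (x (c (a + 3))) *
          (ind (¬ κ < P2 p (x (c a)) z.2) * ind (z.2 ∈ B))) fun z _ => ?_) ?_
      · rw [w, ← mul_add, u0, u1, u2, show a + 1 + 2 = a + 3 by omega, u3]
        refine mul_le_mul_of_nonneg_left ?_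
          (mul_nonneg (mul_nonneg (h.nn _ _) (h.nn _ _)) (h.nn _ _))
        have e : (∃ j, a < j ∧ j ≤ a + 2 ∧ u x z (c j) ∈ B) → z.1 ∈ B ∨ z.2 ∈ B := by
          rintro ⟨j, j1, j2, j3⟩
          rcases (by omega : j = a + 1 ∨ j = a + 2) with rfl | rfl
          · exact Or.inl (u1 x z ▸ j3)
          · exact Or.inr (u2 x z ▸ j3)
        refine (sub_le_sub_right (ind_mono e) _).trans ?_
        unfold ind
        by_cases e1 : z.1 ∈ B <;> by_cases e2 : z.2 ∈ B <;>
          by_cases e3 : κ < P2 p z.1 (x (c (a + 3))) <;> by_cases e4 : κ < P2 p (x (c a)) z.2 <;>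
          simp [e1, e2, e3, e4]
      · rw [sum_add_distrib, Fintype.sum_prod_type, Fintype.sum_prod_type_right, two_mul]
        refine add_le_add (le_of_eq_of_le (sum_congr rfl fun z _ => ?_) s1)
          (le_of_eq_of_le (sum_congr rfl fun z _ => ?_) s2)
        · dsimp only
          generalize ind (¬ κ < _) = y
          simp only [P2, mul_sum, sum_mul, mul_assoc]
        · dsimp only
          generalize ind (¬ κ < _) = y
          simp only [P2, mul_sum, sum_mul]
          exact sum_congr rfl fun _ _ => by ring) Q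
  rw [E_add] at this
  have h1 := hv a (by omega)
  have h2 := hv (a + 1) (by omega)
  linarith

end Pool.Agent.Lib.MP_efdbfd_co.Grid
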