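import Mathlib

/-! The class of layered forests (used in a statement for MP_efdbfd_co). -/

set_option autoImplicit false

namespace Pool.Agent.Lib.MP_efdbfd_co

/-- `L` is bipartite with classes `A` and its complement, and its vertices are split into layers
`0, 1, 2, …` such that each layer induces a forest, every neighbour of a vertex `a` of `A` lies in
the layer of `a` or in a lower layer, and at most one neighbour of `a` lies in a lower layer. -/
def Layered {W : Type} (L : SimpleGraph W) : Prop :=
  ∃ (A : Set W) (h : W → ℕ), (∀ x y, L.Adj x y → (x ∈ A ↔ y ∉ A)) ∧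
    (∀ i, (L.induce {v | h v = i}).IsAcyclic) ∧
    (∀ a ∈ A, ∀ b, L.Adj a b → h b ≤ h a) ∧
    ∀ a ∈ A, ∀ b b', L.Adj a b → L.Adj a b' → h b < h a → h b' < h a → b = b'

end Pool.Agent.Lib.MP_efdbfd_co
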