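import Pool.Agent.Lib.MP_efdbfd_co.LayReg

/-! Greedy embedding of layered forests from an abstract extension rule. -/

set_option autoImplicit false
set_option linter.unusedSectionVars false

open Finset SimpleGraph Function
open scoped Classical

noncomputable section

namespace Pool.Agent.Lib.MP_efdbfd_co.Lay

variable {W V : Type} [Fintype W]

/-- Layered structure in which every vertex `a` of the class `A` has a root `rt a` in a lower layer
(not necessarily adjacent to `a`). -/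
structure Core (L : SimpleGraph W) (A : W → Prop) (h : W → ℕ) (rt : W → W) : Prop where
  bip : ∀ x y, L.Adj x y → (A x ↔ ¬ A y)
  rtB : ∀ a, A a → ¬ A (rt a)
  rtlt : ∀ a, A a → h (rt a) < h a
  adj : ∀ a b, A a → L.Adj a b → b = rt a ∨ h b = h a
  peel : ∀ S : Finset W, S.Nonempty → (∀ x ∈ S, ∀ y ∈ S, h x = h y) →
    ∃ v ∈ S, ∀ x ∈ S, ∀ y ∈ S, L.Adj v x → L.Adj v y → x = y

/-- The extension rules. -/
structure Oracle (G : SimpleGraph V) (k : ℕ) (I : Prop) (Rest : ℕ → Finset V → Prop)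
    (Ph : ℕ → Finset V → (W → V) → Finset W → Set (W × V) → Prop) : Prop where
  init : Rest 0 ∅
  start : ∀ t ≤ 2 * k, ∀ R : Finset V, Rest t R → ∀ (ψ : W → V) (Λ : Finset W),
    (∀ l ∈ Λ, ψ l ∈ R) → (I → Set.InjOn ψ Λ) → Ph (t + 1) R ψ Λ ∅
  stop : ∀ t R ψ Λ X, Ph t R ψ Λ X → Rest t R
  ext : ∀ t ≤ 2 * k, ∀ R ψ Λ X, Ph t R ψ Λ X → R.card ≤ k → ∀ F : Finset V,
    F.card ≤ k * (k + 1) → ∀ o : Option (W × V), (∀ p ∈ o, p ∈ X ∧ p.1 ∈ Λ) →
    ∃ (w : V) (g : W → V), w ∉ F ∧ Set.InjOn g Λ ∧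
      (∀ l ∈ Λ, G.Adj w (g l) ∧ G.Adj (g l) (ψ l) ∧ (g l ∉ F ∨ o = some (l, g l))) ∧
      (∀ p ∈ o, g p.1 = p.2) ∧ Ph (t + 1) (insert w R) ψ Λ (X ∪ {p | p.1 ∈ Λ ∧ g p.1 = p.2})

/-- The labels used in layer `i`. -/
def labs (A : W → Prop) (h : W → ℕ) (lab : W → W) (i : ℕ) : Finset W :=
  (univ.filter fun a => A a ∧ h a = i).image lab

/-- A partial embedding. -/
structure Emb (L : SimpleGraph W) (G : SimpleGraph V) (A : W → Prop) (k : ℕ) (S : Finset W)
    (R U : Finset V) (φ : W → V) : Prop where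
  cR : R.card ≤ S.card
  cU : U.card ≤ S.card * (k + 1)
  mem : ∀ v ∈ S, φ v ∈ U
  inj : Set.InjOn φ S
  hom : ∀ x ∈ S, ∀ y ∈ S, L.Adj x y → G.Adj (φ x) (φ y)
  pt : ∀ b ∈ S, ¬ A b → φ b ∈ R

/-- The reservations made inside layer `i`. -/
structure Res (L : SimpleGraph W) (G : SimpleGraph V) (A : W → Prop) (h : W → ℕ) (lab rl : W → W)
    (i : ℕ) (S : Finset W) (U : Finset V) (φ ψ : W → V) (g : W → W → V) (X : Set (W × V)) :
    Prop where
  root : ∀ l ∈ labs A h lab i, ψ l = φ (rl l)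
  blk : ∀ a ∈ S, A a → h a = i → (lab a, φ a) ∈ X
  tup : ∀ b ∈ S, ¬ A b → h b = i → ∀ l ∈ labs A h lab i,
    g b l ∈ U ∧ (l, g b l) ∈ X ∧ G.Adj (φ b) (g b l) ∧ G.Adj (g b l) (ψ l)
  ginj : ∀ b ∈ S, ¬ A b → h b = i → Set.InjOn (g b) (labs A h lab i)
  res : ∀ b ∈ S, ¬ A b → h b = i → ∀ l ∈ labs A h lab i, ∀ v ∈ S, φ v = g b l →
    L.Adj v b ∧ lab v = l
  cross : ∀ b ∈ S, ¬ A b → h b = i → ∀ b' ∈ S, ¬ A b' → h b' = i → b ≠ b' →
    ∀ l ∈ labs A h lab i, ∀ l' ∈ labs A h lab i, g b l = g b' l' → ∃ v ∈ S, φ v = g b l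

variable {L : SimpleGraph W} {G : SimpleGraph V} {A : W → Prop} {h : W → ℕ} {rt lab rl : W → W}
  {k : ℕ} {I : Prop} {Rest : ℕ → Finset V → Prop}
  {Ph : ℕ → Finset V → (W → V) → Finset W → Set (W × V) → Prop}

/-- The invariant. -/
def Inv (L : SimpleGraph W) (G : SimpleGraph V) (A : W → Prop) (h : W → ℕ) (lab rl : W → W) (k : ℕ)
    (Ph : ℕ → Finset V → (W → V) → Finset W → Set (W × V) → Prop) (i τ : ℕ) (S : Finset W) :
    Prop :=
  ∃ t ≤ τ, ∃ R U φ ψ g X, Ph t R ψ (labs A h lab i) X ∧ Emb L G A k S R U φ ∧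
    Res L G A h lab rl i S U φ ψ g X

lemma mem_labs {i : ℕ} {a : W} (ha : A a) (hi : h a = i) : lab a ∈ labs A h lab i :=
  mem_image_of_mem _ (mem_filter.2 ⟨mem_univ _, ha, hi⟩)

lemma labs_root (hc : Core L A h rt) (hrl : ∀ a, A a → rl (lab a) = rt a) {i : ℕ} {l : W}
    (hl : l ∈ labs A h lab i) : h (rl l) < i ∧ ¬ A (rl l) := by
  obtain ⟨a, ha, rfl⟩ := mem_image.1 hl
  obtain ⟨-, a1, a2⟩ := mem_filter.1 ha
  rw [hrl a a1]
  exact ⟨a2 ▸ hc.rtlt a a1, hc.rtB a a1⟩

lemma Emb.insert {S : Finset W} {R U R' U' : Finset V} {φ : W → V} (he : Emb L G A k S R U φ)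
    {v : W} (hv : v ∉ S) {z : V} (cR : R'.card ≤ R.card + 1) (cU : U'.card ≤ U.card + (k + 1))
    (hR : R ⊆ R') (hU : U ⊆ U') (zU : z ∈ U') (zn : ∀ x ∈ S, φ x ≠ z)
    (za : ∀ x ∈ S, L.Adj v x → G.Adj z (φ x)) (zR : ¬ A v → z ∈ R') :
    Emb L G A k (insert v S) R' U' (update φ v z) := by
  have up : ∀ x ∈ S, update φ v z x = φ x := fun x hx => update_of_ne (by rintro rfl; exact hv hx) _ _
  refine ⟨?_, ?_, ?_, ?_, ?_, ?_⟩
  · rw [card_insert_of_notMem hv]; linarith [he.cR]
  · rw [card_insert_of_notMem hv]; linarith [he.cU]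
  · intro x hx
    rcases mem_insert.1 hx with rfl | hx
    · rwa [update_self]
    · rw [up x hx]; exact hU (he.mem x hx)
  · intro x hx y hy e
    rcases mem_insert.1 (mem_coe.1 hx) with rfl | h1 <;>
      rcases mem_insert.1 (mem_coe.1 hy) with rfl | h2
    · rfl
    · rw [update_self, up y h2] at e; exact absurd e.symm (zn y h2)
    · rw [update_self, up x h1] at e; exact absurd e (zn x h1)
    · rw [up x h1, up y h2] at e; exact he.inj h1 h2 e
  · intro x hx y hy e
    rcases mem_insert.1 hx with rfl | h1 <;> rcases mem_insert.1 hy with rfl | h2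
    · exact absurd rfl e.ne
    · rw [update_self, up y h2]; exact za y h2 e
    · rw [update_self, up x h1]; exact (za x h1 e.symm).symm
    · rw [up x h1, up y h2]; exact he.hom x h1 y h2 e
  · intro x hx hA
    rcases mem_insert.1 hx with rfl | hx
    · rw [update_self]; exact zR hA
    · rw [up x hx]; exact hR (he.pt x hx hA)

lemma Inv.step (hc : Core L A h rt) (ho : Oracle G k I Rest Ph) (hk : Fintype.card W ≤ k)
    (hrl : ∀ a, A a → rl (lab a) = rt a)
    (hp : ∀ a a' b, A a → A a' → L.Adj a b → L.Adj a' b → h b = h a' → lab a = lab a' → a = a')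
    {i τ : ℕ} {S : Finset W} (hτ : τ ≤ 2 * k) (H : Inv L G A h lab rl k Ph i τ S)
    (hle : ∀ x ∈ S, h x ≤ i) (hlt : ∀ x, h x < i → x ∈ S) {v : W} (hv : v ∉ S) (hi : h v = i)
    (h1 : ∀ x ∈ S, ∀ y ∈ S, h x = i → h y = i → L.Adj v x → L.Adj v y → x = y) :
    Inv L G A h lab rl k Ph i (τ + 1) (insert v S) := by
  obtain ⟨t, ht, R, U, φ, ψ, g, X, hP, he, hr⟩ := H
  have Sk : S.card ≤ k := (card_le_univ S).trans hk
  have Lk : (labs A h lab i).card ≤ k := (card_le_univ _).trans hk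
  have up : ∀ z, ∀ x ∈ S, update φ v z x = φ x := fun z x hx =>
    update_of_ne (by rintro rfl; exact hv hx) _ _
  have root : ∀ z, ∀ l ∈ labs A h lab i, ψ l = update φ v z (rl l) := fun z l hl => by
    rw [up z _ (hlt _ (labs_root hc hrl hl).1)]; exact hr.root l hl
  have ext := ho.ext t (ht.trans hτ) R ψ _ X hP (he.cR.trans Sk) U
    (he.cU.trans (Nat.mul_le_mul_right _ Sk))
  by_cases hA : A v
  · have lv : lab v ∈ labs A h lab i := mem_labs hA hi
    have rtadj : ∀ z, G.Adj z (ψ (lab v)) → ∀ x ∈ S, L.Adj v x → h x ≠ i → G.Adj z (φ x) :=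
      fun z hz x _ e hx => by
        rcases hc.adj v x hA e with rfl | e'
        · rwa [hr.root _ lv, hrl v hA] at hz
        · exact absurd (e'.trans hi) hx
    by_cases hb : ∃ b ∈ S, h b = i ∧ L.Adj v b
    · obtain ⟨b, b1, b2, b3⟩ := hb
      have b4 : ¬ A b := (hc.bip v b b3).1 hA
      obtain ⟨g1, g2, g3, g4⟩ := hr.tup b b1 b4 b2 _ lv
      have fresh : ∀ x ∈ S, φ x ≠ g b (lab v) := fun x hx e => by
        obtain ⟨r1, r2⟩ := hr.res b b1 b4 b2 _ lv x hx e
        have : x = v := hp x v b ((hc.bip x b r1).2 b4) hA r1 b3 (b2.trans hi.symm) r2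
        exact hv (this ▸ hx)
      refine ⟨t, by omega, R, U, update φ v (g b (lab v)), ψ, g, X, hP,
        he.insert hv (by omega) (by omega) subset_rfl subset_rfl g1 fresh (fun x hx e => ?_)
          fun c => absurd hA c, root _, fun a ha a1 a2 => ?_, fun c hc' c1 c2 l hl => ?_,
          fun c hc' c1 c2 => ?_, fun c hc' c1 c2 l hl x hx e => ?_,
          fun c hc' c1 c2 c' hc'' c3 c4 ne l hl l' hl' e => ?_⟩
      · by_cases hx' : h x = i
        · rw [h1 x hx b b1 hx' b2 e b3]; exact g3.symm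
        · exact rtadj _ g4 x hx e hx'
      · rcases mem_insert.1 ha with rfl | ha
        · rwa [update_self]
        · rw [up _ a ha]; exact hr.blk a ha a1 a2
      · have hc2 : c ∈ S := (mem_insert.1 hc').resolve_left (by rintro rfl; exact c1 hA)
        rw [up _ c hc2]; exact hr.tup c hc2 c1 c2 l hl
      · exact hr.ginj c ((mem_insert.1 hc').resolve_left (by rintro rfl; exact c1 hA)) c1 c2
      · have hc2 : c ∈ S := (mem_insert.1 hc').resolve_left (by rintro rfl; exact c1 hA)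
        rcases mem_insert.1 hx with rfl | hx
        · rw [update_self] at e
          by_cases e' : b = c
          · subst e'
            exact ⟨b3, hr.ginj b b1 b4 b2 lv hl e⟩
          · obtain ⟨y, hy, e2⟩ := hr.cross b b1 b4 b2 c hc2 c1 c2 e' _ lv l hl e
            exact absurd e2 (fresh y hy)
        · rw [up _ x hx] at e; exact hr.res c hc2 c1 c2 l hl x hx e
      · obtain ⟨y, hy, e2⟩ := hr.cross c
          ((mem_insert.1 hc').resolve_left (by rintro rfl; exact c1 hA)) c1 c2 c'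
          ((mem_insert.1 hc'').resolve_left (by rintro rfl; exact c3 hA)) c3 c4 ne l hl l' hl' e
        exact ⟨y, mem_insert_of_mem hy, (up _ y hy).trans e2⟩
    · obtain ⟨w, g', -, -, w3, -, w5⟩ := ext none (by simp)
      obtain ⟨-, g2, g3⟩ := w3 _ lv
      have g4 : g' (lab v) ∉ U := g3.resolve_right (by simp)
      refine ⟨t + 1, by omega, insert w R, insert (g' (lab v)) U, update φ v (g' (lab v)), ψ, g, _,
        w5, he.insert hv (card_insert_le _ _) ((card_insert_le _ _).trans (by omega))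
          (subset_insert _ _) (subset_insert _ _) (mem_insert_self _ _)
          (fun x hx e => g4 (e ▸ he.mem x hx))
          (fun x hx e => rtadj _ g2 x hx e fun c => hb ⟨x, hx, c, e⟩) fun c => absurd hA c,
          root _, fun a ha a1 a2 => ?_, fun c hc' c1 c2 l hl => ?_,
          fun c hc' c1 c2 => ?_, fun c hc' c1 c2 l hl x hx e => ?_,
          fun c hc' c1 c2 c' hc'' c3 c4 ne l hl l' hl' e => ?_⟩
      · rcases mem_insert.1 ha with rfl | ha
        · rw [update_self]; exact Or.inr ⟨lv, rfl⟩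
        · rw [up _ a ha]; exact Or.inl (hr.blk a ha a1 a2)
      · have hc2 : c ∈ S := (mem_insert.1 hc').resolve_left (by rintro rfl; exact c1 hA)
        obtain ⟨g1, g2, g3⟩ := hr.tup c hc2 c1 c2 l hl
        rw [up _ c hc2]
        exact ⟨mem_insert_of_mem g1, Or.inl g2, g3⟩
      · exact hr.ginj c ((mem_insert.1 hc').resolve_left (by rintro rfl; exact c1 hA)) c1 c2
      · have hc2 : c ∈ S := (mem_insert.1 hc').resolve_left (by rintro rfl; exact c1 hA)
        rcases mem_insert.1 hx with rfl | hx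
        · rw [update_self] at e
          exact absurd (e ▸ (hr.tup c hc2 c1 c2 l hl).1) g4
        · rw [up _ x hx] at e; exact hr.res c hc2 c1 c2 l hl x hx e
      · obtain ⟨y, hy, e2⟩ := hr.cross c
          ((mem_insert.1 hc').resolve_left (by rintro rfl; exact c1 hA)) c1 c2 c'
          ((mem_insert.1 hc'').resolve_left (by rintro rfl; exact c3 hA)) c3 c4 ne l hl l' hl' e
        exact ⟨y, mem_insert_of_mem hy, (up _ y hy).trans e2⟩
  · have nb : ∀ x ∈ S, L.Adj v x → A x ∧ h x = i := fun x hx e => by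
      have a1 : A x := (hc.bip x v e.symm).2 hA
      refine ⟨a1, ?_⟩
      rcases hc.adj x v a1 e.symm with e' | e'
      · have := hc.rtlt x a1
        have := hle x hx
        rw [← e'] at *
        omega
      · exact e'.symm.trans hi
    obtain ⟨o, o1, o2, o3⟩ : ∃ o : Option (W × V), (∀ p ∈ o, p ∈ X ∧ p.1 ∈ labs A h lab i) ∧
        (∀ x ∈ S, L.Adj v x → o = some (lab x, φ x)) ∧
        ∀ p, o = some p → ∃ x ∈ S, L.Adj v x ∧ p = (lab x, φ x) := by
      by_cases hb : ∃ a ∈ S, L.Adj v a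
      · obtain ⟨a, a1, a2⟩ := hb
        obtain ⟨a3, a4⟩ := nb a a1 a2
        refine ⟨some (lab a, φ a), fun p hp => ?_, fun x hx e => ?_, fun p hp => ?_⟩
        · obtain rfl := Option.some.inj hp
          exact ⟨hr.blk a a1 a3 a4, mem_labs a3 a4⟩
        · rw [h1 x hx a a1 (nb x hx e).2 a4 e a2]
        · exact ⟨a, a1, a2, (Option.some.inj hp).symm⟩
      · exact ⟨none, by simp, fun x hx e => absurd ⟨x, hx, e⟩ hb, by simp⟩
    obtain ⟨w, g', w1, w2, w3, w4, w5⟩ := ext o o1
    have upg : ∀ x ∈ S, update g v g' x = g x := fun x hx =>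
      update_of_ne (by rintro rfl; exact hv hx) _ _
    have old : ∀ l ∈ labs A h lab i, g' l ∈ U → ∃ x ∈ S, L.Adj v x ∧ lab x = l ∧ φ x = g' l :=
      fun l hl hU => by
        obtain ⟨x, hx, e, e'⟩ := o3 _ ((w3 l hl).2.2.resolve_left (not_not.2 hU))
        exact ⟨x, hx, e, (congrArg Prod.fst e').symm, (congrArg Prod.snd e').symm⟩
    refine ⟨t + 1, by omega, insert w R, U ∪ insert w ((labs A h lab i).image g'), update φ v w, ψ,
      update g v g', _, w5, he.insert hv (card_insert_le _ _)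
        ((card_union_le _ _).trans (Nat.add_le_add_left ((card_insert_le _ _).trans
          (Nat.add_le_add_right (card_image_le.trans Lk) _)) _))
        (subset_insert _ _) subset_union_left (mem_union_right _ (mem_insert_self _ _))
        (fun x hx e => w1 (e ▸ he.mem x hx)) (fun x hx e => ?_) fun _ => mem_insert_self _ _,
        root _, fun a ha a1 a2 => ?_, fun c hc' c1 c2 l hl => ?_,
        fun c hc' c1 c2 => ?_, fun c hc' c1 c2 l hl x hx e => ?_,
        fun c hc' c1 c2 c' hc'' c3 c4 ne l hl l' hl' e => ?_⟩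
    · have := w4 _ (o2 x hx e)
      dsimp only at this
      rw [← this]
      exact (w3 _ (mem_labs (nb x hx e).1 (nb x hx e).2)).1
    · have ha2 : a ∈ S := (mem_insert.1 ha).resolve_left (by rintro rfl; exact hA a1)
      rw [up _ a ha2]; exact Or.inl (hr.blk a ha2 a1 a2)
    · rcases mem_insert.1 hc' with rfl | hc2
      · rw [update_self, update_self]
        exact ⟨mem_union_right _ (mem_insert_of_mem (mem_image_of_mem _ hl)), Or.inr ⟨hl, rfl⟩,
          (w3 l hl).1, (w3 l hl).2.1⟩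
      · obtain ⟨g1, g2, g3⟩ := hr.tup c hc2 c1 c2 l hl
        rw [up _ c hc2, upg c hc2]
        exact ⟨mem_union_left _ g1, Or.inl g2, g3⟩
    · rcases mem_insert.1 hc' with rfl | hc2
      · rwa [update_self]
      · rw [upg c hc2]; exact hr.ginj c hc2 c1 c2
    · rcases mem_insert.1 hc' with rfl | hc2 <;> rcases mem_insert.1 hx with rfl | hx
      · rw [update_self, update_self] at e
        exact absurd e (w3 l hl).1.ne
      · rw [update_self, up _ x hx] at e
        obtain ⟨y, hy, y1, y2, y3⟩ := old l hl (e ▸ he.mem x hx)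
        rw [he.inj hx hy (e.trans y3.symm)]
        exact ⟨y1.symm, y2⟩
      · rw [update_self, upg c hc2] at e
        exact absurd (e ▸ (hr.tup c hc2 c1 c2 l hl).1) w1
      · rw [up _ x hx, upg c hc2] at e
        exact hr.res c hc2 c1 c2 l hl x hx e
    · rcases mem_insert.1 hc' with rfl | hc2 <;> rcases mem_insert.1 hc'' with rfl | hc3
      · exact absurd rfl ne
      · rw [update_self, upg c' hc3] at e
        obtain ⟨y, hy, -, -, y3⟩ := old l hl (e ▸ (hr.tup c' hc3 c3 c4 l' hl').1)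
        exact ⟨y, mem_insert_of_mem hy, by rw [update_self, up _ y hy, y3]⟩
      · rw [update_self, upg c hc2] at e
        obtain ⟨y, hy, -, -, y3⟩ := old l' hl' (e ▸ (hr.tup c hc2 c1 c2 l hl).1)
        exact ⟨y, mem_insert_of_mem hy, by rw [upg c hc2, up _ y hy, y3, e]⟩
      · rw [upg c hc2, upg c' hc3] at e
        obtain ⟨y, hy, e2⟩ := hr.cross c hc2 c1 c2 c' hc3 c3 c4 ne l hl l' hl' e
        exact ⟨y, mem_insert_of_mem hy, by rw [upg c hc2, up _ y hy, e2]⟩

lemma Core.embed [Nonempty V] (hc : Core L A h rt) (ho : Oracle G k I Rest Ph)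
    (hk : Fintype.card W ≤ k) (hrl : ∀ a, A a → rl (lab a) = rt a) (hI : I → Injective rl)
    (hp : ∀ a a' b, A a → A a' → L.Adj a b → L.Adj a' b → h b = h a' → lab a = lab a' → a = a') : L ⊑ G := by
  have main : ∀ (n : ℕ) (S : Finset W), S.card = n → ∀ i, (∀ x ∈ S, h x ≤ i) →
      (∀ x, h x < i → x ∈ S) → Inv L G A h lab rl k Ph i (2 * n + 1) S := by
    intro n
    induction n using Nat.strong_induction_on with
    | _ n ih =>
    have aux : ∀ S : Finset W, S.card = n → ∀ i, (∀ x ∈ S, h x ≤ i) → (∀ x, h x < i → x ∈ S) →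
        (∃ x ∈ S, h x = i) → Inv L G A h lab rl k Ph i (2 * n) S := by
      rintro S hn i hle hlt ⟨x, x1, x2⟩
      obtain ⟨v, v1, v2⟩ := hc.peel (S.filter fun y => h y = i) ⟨x, mem_filter.2 ⟨x1, x2⟩⟩
        fun a ha b hb => (mem_filter.1 ha).2.trans (mem_filter.1 hb).2.symm
      rw [mem_filter] at v1
      have c := card_erase_add_one v1.1
      have Sk : S.card ≤ k := (card_le_univ S).trans hk
      have hle' : ∀ y ∈ S.erase v, h y ≤ i := fun y hy => hle y (mem_of_mem_erase hy)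
      have hlt' : ∀ y, h y < i → y ∈ S.erase v := fun y hy =>
        mem_erase.2 ⟨by rintro rfl; omega, hlt y hy⟩
      have := (ih _ (by omega) (S.erase v) rfl i hle' hlt').step hc ho hk hrl hp (by omega) hle' hlt'
        (notMem_erase v S) v1.2 fun a ha b hb a1 b1 =>
          v2 a (mem_filter.2 ⟨mem_of_mem_erase ha, a1⟩) b (mem_filter.2 ⟨mem_of_mem_erase hb, b1⟩)
      rwa [insert_erase v1.1, show 2 * (S.erase v).card + 1 + 1 = 2 * n by omega] at this
    intro S hn i hle hlt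
    by_cases hx : ∃ x ∈ S, h x = i
    · obtain ⟨t, ht, r⟩ := aux S hn i hle hlt hx
      exact ⟨t, by omega, r⟩
    have rest : ∃ t ≤ 2 * n, ∃ R U φ, Rest t R ∧ Emb L G A k S R U φ := by
      rcases S.eq_empty_or_nonempty with rfl | S0
      · exact ⟨0, by omega, ∅, ∅, fun _ => Classical.arbitrary V, ho.init,
          by simp, by simp, by simp, by simp, by simp, by simp⟩
      · obtain ⟨x, x1, x2⟩ := exists_max_image S h S0
        obtain ⟨t, ht, R, U, φ, ψ, g, X, hP, he, -⟩ := aux S hn (h x) x2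
          (fun y hy => hlt y (hy.trans_le (hle x x1))) ⟨x, x1, rfl⟩
        exact ⟨t, ht, R, U, φ, ho.stop _ _ _ _ _ hP, he⟩
    obtain ⟨t, ht, R, U, φ, hR, he⟩ := rest
    have Sk : S.card ≤ k := (card_le_univ S).trans hk
    have no : ∀ x ∈ S, h x ≠ i := fun x x1 x2 => hx ⟨x, x1, x2⟩
    refine ⟨t + 1, by omega, R, U, φ, fun l => φ (rl l), fun _ => φ, ∅,
      ho.start t (by omega) R hR _ _ (fun l hl => ?_) fun c l hl l' hl' e => ?_, he,
      fun _ _ => rfl, fun a ha _ e => absurd e (no a ha), fun a ha _ e => absurd e (no a ha),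
      fun a ha _ e => absurd e (no a ha), fun a ha _ e => absurd e (no a ha),
      fun a ha _ e => absurd e (no a ha)⟩
    · exact he.pt _ (hlt _ (labs_root hc hrl hl).1) (labs_root hc hrl hl).2
    · exact hI c (he.inj (hlt _ (labs_root hc hrl hl).1) (hlt _ (labs_root hc hrl hl').1) e)
  obtain ⟨t, -, R, U, φ, ψ, g, X, -, he, -⟩ := main _ univ rfl (univ.sup h + 1)
    (fun x hx => (le_sup hx).trans (by omega)) fun x _ => mem_univ x
  exact ⟨⟨⟨φ, fun {x y} e => he.hom x (mem_univ x) y (mem_univ y) e⟩,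
    fun x y e => he.inj (mem_coe.2 (mem_univ x)) (mem_coe.2 (mem_univ y)) e⟩⟩

end Pool.Agent.Lib.MP_efdbfd_co.Lay
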