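import Pool.Agent.Lib.MP_efdbfd_co.LayGame

/-! Cleaning, the case of many heavy pairs, and local density of covered pairs. -/

set_option autoImplicit false
set_option linter.unusedSectionVars false

open Finset SimpleGraph Function
open scoped Classical

noncomputable section

namespace Pool.Agent.Lib.MP_efdbfd_co.Lay

variable {W V : Type} [Fintype W] [Fintype V]

lemma clean (P : Finset V) (Λ : Finset W) (X : V → W → Finset V) (Nb : W → Finset V) (K : ℕ)
    {γ Δ : ℝ} (γ0 : 0 ≤ γ) (hX : ∀ w ∈ P, ∀ l ∈ Λ, (X w l).card = K ∧ X w l ⊆ Nb l)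
    (hN : ∀ l ∈ Λ, ((Nb l).card : ℝ) ≤ Δ) :
    ∃ Q ⊆ P, ∃ Y : W → Finset V, (K : ℝ) * P.card - 2 * γ * Λ.card * Δ ≤ K * Q.card ∧
      (∀ w ∈ Q, ∀ l ∈ Λ, K ≤ 2 * (X w l ∩ Y l).card) ∧
      ∀ l ∈ Λ, ∀ x ∈ Y l, γ ≤ (Q.filter fun w => x ∈ X w l).card := by
  obtain ⟨⟨Q, Y⟩, hQ, hm⟩ := exists_max_image (univ.filter fun p : Finset V × (W → Finset V) =>
    p.1 ⊆ P) (fun p => ∑ w ∈ p.1, (∑ l ∈ Λ, ((X w l ∩ p.2 l).card : ℝ) - (Λ.card * K - K / 2)) -
      γ * ∑ l ∈ Λ, ((p.2 l).card : ℝ)) ⟨(P, Nb), by simp⟩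
  simp only [mem_filter, mem_univ, true_and] at hQ hm
  have le : ∀ w ∈ Q, ∀ l ∈ Λ, ((X w l ∩ Y l).card : ℝ) ≤ K := fun w hw l hl => by
    rw [← (hX w (hQ hw) l hl).1]
    exact_mod_cast card_le_card inter_subset_left
  refine ⟨Q, hQ, Y, ?_, fun w hw l hl => ?_, fun l hl x hx => ?_⟩
  · have h1 := hm (P, Nb) subset_rfl
    have h2 : ∑ w ∈ P, (∑ l ∈ Λ, ((X w l ∩ Nb l).card : ℝ) - (Λ.card * K - K / 2)) =
        P.card * (K / 2) := by
      rw [← nsmul_eq_mul (P.card), ← sum_const]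
      refine sum_congr rfl fun w hw => ?_
      rw [sum_congr rfl (g := fun _ => (K : ℝ)) fun l hl => by
        rw [inter_eq_left.2 (hX w hw l hl).2, (hX w hw l hl).1], sum_const, nsmul_eq_mul]
      ring
    have h3 : ∑ w ∈ Q, (∑ l ∈ Λ, ((X w l ∩ Y l).card : ℝ) - (Λ.card * K - K / 2)) ≤
        Q.card * (K / 2) := by
      rw [← nsmul_eq_mul (Q.card)]
      refine sum_le_card_nsmul _ _ _ fun w hw => ?_
      have := sum_le_card_nsmul Λ _ _ (le w hw)
      rw [nsmul_eq_mul] at this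
      linarith
    have h4 := sum_le_card_nsmul Λ _ _ hN
    rw [nsmul_eq_mul] at h4
    have h5 : 0 ≤ γ * ∑ l ∈ Λ, ((Y l).card : ℝ) := by positivity
    have h6 := mul_le_mul_of_nonneg_left h4 γ0
    dsimp only at h1
    linarith
  · have h1 := hm (Q.erase w, Y) ((erase_subset _ _).trans hQ)
    dsimp only at h1
    rw [← add_sum_erase Q _ hw, ← add_sum_erase Λ (fun l => ((X w l ∩ Y l).card : ℝ)) hl] at h1
    have h2 := sum_le_card_nsmul (Λ.erase l) _ _ fun l' h => le w hw l' (mem_of_mem_erase h)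
    have c : (Λ.card : ℝ) = (Λ.erase l).card + 1 := by exact_mod_cast (card_erase_add_one hl).symm
    rw [nsmul_eq_mul] at h2
    have h3 : (K : ℝ) ≤ 2 * (X w l ∩ Y l).card := by rw [c] at h1; linarith
    exact_mod_cast h3
  · have h1 := hm (Q, update Y l ((Y l).erase x)) hQ
    have h2 : ∑ l' ∈ Λ, ((update Y l ((Y l).erase x) l').card : ℝ) + 1 =
        ∑ l' ∈ Λ, ((Y l').card : ℝ) := by
      rw [← add_sum_erase Λ _ hl, ← add_sum_erase Λ _ hl, update_self,
        sum_congr rfl fun l' h => by rw [update_of_ne (ne_of_mem_erase h)],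
        ← card_erase_add_one hx]
      push_cast
      ring
    have h3 : ∀ w, ∑ l' ∈ Λ, ((X w l' ∩ Y l').card : ℝ) - (if x ∈ X w l then 1 else 0) ≤
        ∑ l' ∈ Λ, ((X w l' ∩ update Y l ((Y l).erase x) l').card : ℝ) := fun w => by
      rw [← add_sum_erase Λ _ hl, ← add_sum_erase Λ _ hl, update_self,
        sum_congr (f := fun l' => ((X w l' ∩ update Y l ((Y l).erase x) l').card : ℝ)) rfl
          (g := fun l' => ((X w l' ∩ Y l').card : ℝ)) fun l' h => by
          rw [update_of_ne (ne_of_mem_erase h)], inter_erase]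
      split_ifs with e
      · rw [← card_erase_add_one (mem_inter.2 ⟨e, hx⟩)]
        push_cast
        linarith
      · rw [erase_eq_of_notMem fun c => e (mem_inter.1 c).1]
        linarith
    have h4 := sum_le_sum fun w (_ : w ∈ Q) => h3 w
    dsimp only at h1
    rw [card_filter]
    simp only [sum_sub_distrib] at h1 h4
    rw [← h2] at h1
    push_cast
    linarith

lemma exists_sdr [Nonempty V] (B : W → Finset V) (Λ : Finset W)
    (h : ∀ l ∈ Λ, Λ.card ≤ (B l).card) : ∃ g : W → V, Set.InjOn g Λ ∧ ∀ l ∈ Λ, g l ∈ B l := by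
  induction Λ using Finset.induction_on with
  | empty => exact ⟨fun _ => Classical.arbitrary V, by simp, by simp⟩
  | insert a s ha ih =>
    rw [card_insert_of_notMem ha] at h
    obtain ⟨g, g1, g2⟩ := ih fun l hl => (Nat.le_succ _).trans (h l (mem_insert_of_mem hl))
    obtain ⟨x, x1, x2⟩ := exists_mem_notMem_of_card_lt_card
      (card_image_le.trans_lt (h a (mem_insert_self _ _)) : (s.image g).card < (B a).card)
    have up : ∀ l ∈ s, update g a x l = g l := fun l hl =>
      update_of_ne (by rintro rfl; exact ha hl) _ _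
    refine ⟨update g a x, fun l hl l' hl' e => ?_, fun l hl => ?_⟩
    · rcases mem_insert.1 (mem_coe.1 hl) with rfl | h1 <;>
        rcases mem_insert.1 (mem_coe.1 hl') with rfl | h2
      · rfl
      · rw [update_self, up _ h2] at e; exact absurd (e ▸ mem_image_of_mem g h2) x2
      · rw [update_self, up _ h1] at e; exact absurd (e ▸ mem_image_of_mem g h1) x2
      · rw [up _ h1, up _ h2] at e; exact g1 h1 h2 e
    · rcases mem_insert.1 hl with rfl | h1
      · rwa [update_self]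
      · rw [up _ h1]; exact g2 l h1

/-- Common neighbourhood. -/
def cn (G : SimpleGraph V) (a b : V) : Finset V := univ.filter fun x => G.Adj a x ∧ G.Adj b x

/-- All degrees lie between `d` and `D d`. -/
def Reg (G : SimpleGraph V) (D d : ℝ) : Prop :=
  ∀ v, d ≤ (univ.filter (G.Adj v)).card ∧ ((univ.filter (G.Adj v)).card : ℝ) ≤ D * d

variable {L : SimpleGraph W} {G : SimpleGraph V} {A : W → Prop} {h : W → ℕ} {rt : W → W}
  {k K : ℕ} {D d : ℝ}

lemma cn_comm (a b : V) : cn G a b = cn G b a := by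
  ext x; simp [cn, and_comm]

lemma cn_self (a : V) : cn G a a = univ.filter (G.Adj a) := by
  ext x; simp [cn]

lemma card_filter_exists_le {α β : Type} (s : Finset α) (t : Finset β) (p : α → β → Prop) {b : ℝ}
    [∀ y, DecidablePred fun x => p x y] [DecidablePred fun x => ∃ y ∈ t, p x y]
    (hb : ∀ y ∈ t, ((s.filter fun x => p x y).card : ℝ) ≤ b) :
    ((s.filter fun x => ∃ y ∈ t, p x y).card : ℝ) ≤ t.card * b := by
  rw [← nsmul_eq_mul]
  refine le_trans ?_ (sum_le_card_nsmul t _ _ hb)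
  rw [← Nat.cast_sum, Nat.cast_le]
  refine le_trans (card_le_card fun x hx => ?_) card_biUnion_le
  simp only [mem_filter, mem_biUnion] at hx ⊢
  obtain ⟨h1, y, h2, h3⟩ := hx
  exact ⟨y, h2, h1, h3⟩

lemma card_filter_not_ge {α : Type} (s : Finset α) (p : α → Prop) [DecidablePred p]
    [DecidablePred fun x => ¬ p x] :
    (s.card : ℝ) - (s.filter p).card = (s.filter fun x => ¬ p x).card := by
  rw [← card_filter_add_card_filter_not (s := s) p]
  push_cast
  ring

/-- A large set in which almost all pairs have many common neighbours yields a copy of `L`. -/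
lemma Core.heavy (hc : Core L A h rt) (hk : Fintype.card W ≤ k) (k0 : 0 < k) (hG : Reg G D d)
    {T : Finset V} {m : ℝ} (hT : m ≤ T.card)
    (hl : ∀ w ∈ T, 2 * k * ((T.filter fun w' => (cn G w' w).card < K).card : ℝ) ≤ m)
    (h1 : 8 * (k * (k + 1) + 1) * k * (D * d) ≤ K * m) (h2 : 4 * (k * (k + 1) + 1) ≤ m)
    (h3 : 2 * (k * (k + 1) + k + 1) ≤ K) : L ⊑ G := by
  have kp : (0 : ℝ) < k := by exact_mod_cast k0
  have Kp : (0 : ℝ) < K := by exact_mod_cast (show 0 < K by omega)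
  have : Nonempty V := by
    have : (0 : ℝ) < T.card := lt_of_lt_of_le (by positivity) (h2.trans hT)
    exact ⟨(card_pos.1 (by exact_mod_cast this)).choose⟩
  have D0 : 0 ≤ D * d := (Nat.cast_nonneg _).trans (hG (Classical.arbitrary V)).2
  refine hc.embed (lab := id) (rl := rt) (I := False) (Rest := fun _ R => R ⊆ T)
    (Ph := fun _ R ψ Λ X => R ⊆ T ∧ ∃ Q ⊆ T, ∃ (Z : V → W → Finset V) (Y : W → Finset V),
      k * (k + 1) < Q.card ∧ (∀ w ∈ Q, ∀ l ∈ Λ, Z w l ⊆ cn G w (ψ l) ∧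
        K ≤ 2 * (Z w l ∩ Y l).card) ∧
      (∀ l ∈ Λ, ∀ x ∈ Y l, k * (k + 1) < (Q.filter fun w => x ∈ Z w l).card) ∧
      ∀ p ∈ X, p.2 ∈ Y p.1)
    ⟨empty_subset _, fun t _ R hR ψ Λ hψ _ => ⟨hR, ?_⟩, fun _ _ _ _ _ h => h.1, ?_⟩ hk
    (fun _ _ => rfl) False.elim fun _ _ _ _ _ _ _ _ e => e
  · have Lk : (Λ.card : ℝ) ≤ k := by exact_mod_cast (card_le_univ Λ).trans hk
    obtain ⟨P, hP⟩ : ∃ P, P = T.filter fun w => ¬ ∃ l ∈ Λ, (cn G w (ψ l)).card < K := ⟨_, rfl⟩
    have p1 : m / 2 ≤ P.card := by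
      have a1 := card_filter_exists_le T Λ (fun w l => (cn G w (ψ l)).card < K) (b := m / (2 * k))
        fun l h => by
          rw [le_div_iff₀ (by positivity), mul_comm]
          exact hl _ (hR (hψ l h))
      have a2 : Λ.card * (m / (2 * k)) ≤ k * (m / (2 * k)) :=
        mul_le_mul_of_nonneg_right Lk (div_nonneg (le_trans (by positivity) h2) (by positivity))
      have a3 : k * (m / (2 * k)) = m / 2 := by field_simp
      rw [hP, ← card_filter_not_ge]
      linarith
    have ex : ∀ w l, ∃ Z : Finset V, w ∈ P → l ∈ Λ → Z ⊆ cn G w (ψ l) ∧ Z.card = K := fun w l => by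
      by_cases e : w ∈ P ∧ l ∈ Λ
      · obtain ⟨Z, z⟩ := exists_subset_card_eq (s := cn G w (ψ l)) (n := K) (not_lt.1 fun c => by
          rw [hP] at e
          exact (mem_filter.1 e.1).2 ⟨l, e.2, c⟩)
        exact ⟨Z, fun _ _ => z⟩
      · exact ⟨∅, fun a b => absurd ⟨a, b⟩ e⟩
    choose Z hZ using ex
    obtain ⟨Q, q1, Y, q2, q3, q4⟩ := clean P Λ Z (fun l => univ.filter (G.Adj (ψ l))) K
      (γ := k * (k + 1) + 1) (by positivity) (fun w hw l hl => ⟨(hZ w l hw hl).2, fun x hx =>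
        mem_filter.2 ⟨mem_univ _, (mem_filter.1 ((hZ w l hw hl).1 hx)).2.2⟩⟩) fun l _ => (hG _).2
    refine ⟨Q, q1.trans (hP ▸ filter_subset _ _), Z, Y, ?_,
      fun w hw l hl => ⟨(hZ w l (q1 hw) hl).1, q3 w hw l hl⟩,
      fun l hl x hx => by exact_mod_cast q4 l hl x hx, by simp⟩
    have a1 : 2 * (k * (k + 1) + 1) * Λ.card * (D * d) ≤ 2 * (k * (k + 1) + 1) * k * (D * d) := by
      gcongr
    have a2 : (K : ℝ) * (k * (k + 1) + 1) ≤ K * Q.card := by
      nlinarith [mul_le_mul_of_nonneg_left p1 Kp.le, mul_le_mul_of_nonneg_left h2 Kp.le]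
    exact_mod_cast le_of_mul_le_mul_left a2 Kp
  · rintro t - R ψ Λ X ⟨hR, Q, q1, Z, Y, q2, q3, q4, q5⟩ - F hF o ho
    obtain ⟨w, w1, w2, w3⟩ : ∃ w ∈ Q, w ∉ F ∧ ∀ p ∈ o, p.2 ∈ Z w p.1 := by
      rcases o with _ | p
      · obtain ⟨w, a, b⟩ := exists_mem_notMem_of_card_lt_card (hF.trans_lt q2)
        exact ⟨w, a, b, by simp⟩
      · obtain ⟨w, a, b⟩ := exists_mem_notMem_of_card_lt_card
          (hF.trans_lt (q4 _ (ho p rfl).2 _ (q5 _ (ho p rfl).1)))
        exact ⟨w, (mem_filter.1 a).1, b, fun p' e => Option.some.inj e ▸ (mem_filter.1 a).2⟩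
    obtain ⟨F', f1, f2, f3⟩ : ∃ F' : Finset V, F'.card ≤ k * (k + 1) + 1 ∧ F ⊆ F' ∧
        ∀ p ∈ o, p.2 ∈ F' := by
      rcases o with _ | p
      · exact ⟨F, by omega, subset_rfl, by simp⟩
      · exact ⟨insert p.2 F, (card_insert_le _ _).trans (by omega), subset_insert _ _,
          fun p' e => Option.some.inj e ▸ mem_insert_self _ _⟩
    obtain ⟨g, g1, g2⟩ := exists_sdr (fun l => (Z w l ∩ Y l) \ F') Λ fun l hl => by
      have := (q3 w w1 l hl).2
      have := le_card_sdiff F' (Z w l ∩ Y l)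
      have := (card_le_univ Λ).trans hk
      omega
    simp only [mem_sdiff, mem_inter] at g2
    obtain ⟨g', a1, a2, a3⟩ : ∃ g' : W → V, Set.InjOn g' Λ ∧ (∀ p ∈ o, g' p.1 = p.2) ∧
        ∀ l ∈ Λ, g' l = g l ∨ o = some (l, g' l) := by
      rcases o with _ | p
      · exact ⟨g, g1, by simp, fun _ _ => Or.inl rfl⟩
      · refine ⟨update g p.1 p.2, fun l hl l' hl' e => ?_, fun p' e => ?_, fun l _ => ?_⟩
        · by_cases e1 : l = p.1 <;> by_cases e2 : l' = p.1
          · rw [e1, e2]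
          · rw [e1, update_self, update_of_ne e2] at e
            exact absurd (e ▸ f3 p rfl) (g2 l' hl').2
          · rw [e2, update_self, update_of_ne e1] at e
            exact absurd (e ▸ f3 p rfl) (g2 l hl).2
          · rw [update_of_ne e1, update_of_ne e2] at e
            exact g1 hl hl' e
        · rw [← Option.some.inj e, update_self]
        · by_cases e1 : l = p.1
          · exact Or.inr (by rw [e1, update_self])
          · exact Or.inl (update_of_ne e1 _ _)
    have a4 : ∀ l ∈ Λ, g' l ∈ Z w l ∧ g' l ∈ Y l := fun l hl => by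
      rcases a3 l hl with e | e
      · rw [e]; exact (g2 l hl).1
      · exact ⟨w3 _ e, q5 _ (ho _ e).1⟩
    refine ⟨w, g', w2, a1, fun l hl => ?_, a2, insert_subset (q1 w1) hR, Q, q1, Z, Y, q2, q3, q4, ?_⟩
    · have := (mem_filter.1 ((q3 w w1 l hl).1 (a4 l hl).1)).2
      exact ⟨this.1, this.2.symm, (a3 l hl).imp_left fun (e : g' l = g l) c => (g2 l hl).2 (e ▸ f2 c)⟩
    · rintro p (hp | ⟨p1, p2⟩)
      · exact q5 p hp
      · exact p2 ▸ (a4 _ p1).2

/-- Two different vertices with a common neighbour. -/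
def Cov (G : SimpleGraph V) (a b : V) : Prop := a ≠ b ∧ ∃ x, G.Adj a x ∧ G.Adj b x

lemma Core.light (hc : Core L A h rt) (hk : Fintype.card W ≤ k) (k0 : 0 < k) (hG : Reg G D d)
    (hn : ¬ L ⊑ G) {T : Finset V}
    (h1 : 16 * (k * (k + 1) + 1) * k * (D * d) ≤ K * T.card) (h2 : 8 * (k * (k + 1) + 1) ≤ (T.card : ℝ))
    (h3 : 2 * (k * (k + 1) + k + 1) ≤ K) :
    (T.card : ℝ) * T.card ≤ 8 * k * ∑ w ∈ T, ((T.filter fun w' => (cn G w' w).card < K).card : ℝ) := by
  obtain ⟨T0, hT⟩ : ∃ T0, T0 = T.filter fun w =>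
    4 * k * ((T.filter fun w' => (cn G w' w).card < K).card : ℝ) ≤ T.card := ⟨_, rfl⟩
  have a1 : (T0.card : ℝ) < T.card / 2 := not_le.1 fun c => hn (hc.heavy (K := K) hk k0 hG c
    (fun w hw => by
      have b1 := (mem_filter.1 (hT ▸ hw)).2
      have b2 : ((T0.filter fun w' => (cn G w' w).card < K).card : ℝ) ≤
          (T.filter fun w' => (cn G w' w).card < K).card := by
        exact_mod_cast card_le_card (filter_subset_filter _ (hT ▸ filter_subset _ _))
      nlinarith [Nat.cast_nonneg (α := ℝ) k]) (by linarith) (by linarith) h3)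
  have a2 := card_filter_not_ge T fun w =>
    4 * k * ((T.filter fun w' => (cn G w' w).card < K).card : ℝ) ≤ T.card
  rw [← hT] at a2
  have a3 := card_nsmul_le_sum (T.filter fun w =>
    ¬ 4 * k * ((T.filter fun w' => (cn G w' w).card < K).card : ℝ) ≤ T.card) _ _
      fun w hw => (not_le.1 (mem_filter.1 hw).2).le
  rw [nsmul_eq_mul, ← a2] at a3
  have a4 := a3.trans (sum_le_sum_of_subset_of_nonneg (filter_subset _ T) fun _ _ _ => by positivity)
  rw [← mul_sum] at a4
  nlinarith [Nat.cast_nonneg (α := ℝ) T.card]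

/-- Local density of the covered pairs. -/
lemma Core.dense (hc : Core L A h rt) (hk : Fintype.card W ≤ k) (k0 : 0 < k) (hG : Reg G D d)
    (hn : ¬ L ⊑ G) {σ : ℝ} (σ0 : 0 ≤ σ) (d0 : 0 ≤ d) (h1 : 32 * (k * (k + 1) + 1) * k * D ≤ K * σ)
    (h2 : 16 * (k * (k + 1) + 1) ≤ σ * d) (h3 : 2 * (k * (k + 1) + k + 1) ≤ K) (h4 : K ≤ d)
    {S : Finset V} (hS : σ * Fintype.card V ≤ S.card) :
    σ ^ 2 * d ^ 2 * Fintype.card V ≤ 32 * k * K * ∑ a ∈ S, ((S.filter (Cov G a)).card : ℝ) := by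
  have a1 : ∀ y, σ * d * ((S.filter (G.Adj y)).card - σ * d / 2) ≤ 16 * k *
      ∑ w ∈ S.filter (G.Adj y),
        (((S.filter (G.Adj y)).filter fun w' => (cn G w' w).card < K).card : ℝ) := fun y => by
    by_cases e : σ * d / 2 ≤ (S.filter (G.Adj y)).card
    · have := hc.light (K := K) hk k0 hG hn (T := S.filter (G.Adj y))
        (by nlinarith [mul_le_mul_of_nonneg_right h1 d0,
          mul_le_mul_of_nonneg_left e (Nat.cast_nonneg (α := ℝ) K)]) (by linarith) h3
      nlinarith [mul_nonneg σ0 d0, Nat.cast_nonneg (α := ℝ) (S.filter (G.Adj y)).card]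
    · exact le_trans (mul_nonpos_of_nonneg_of_nonpos (mul_nonneg σ0 d0) (by linarith [not_le.1 e]))
        (by positivity)
  have a2 : ∑ y, ∑ w ∈ S.filter (G.Adj y),
      (((S.filter (G.Adj y)).filter fun w' => (cn G w' w).card < K).card : ℝ) ≤
      K * ∑ a ∈ S, ((S.filter (Cov G a)).card : ℝ) := by
    simp only [sum_filter, card_filter]
    push_cast
    rw [sum_comm, mul_sum]
    refine sum_le_sum fun a _ => ?_
    have : ∀ y, (if G.Adj y a then ∑ b ∈ S, if G.Adj y b then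
        (if (cn G b a).card < K then (1 : ℝ) else 0) else 0 else 0) =
        ∑ b ∈ S, if (cn G b a).card < K then (if y ∈ cn G b a then 1 else 0) else 0 := fun y => by
      split_ifs with e
      · refine sum_congr rfl fun b _ => ?_
        have : y ∈ cn G b a ↔ G.Adj y b := by simp [cn, e.symm, G.adj_comm b y]
        simp only [this]
        split_ifs <;> rfl
      · refine (sum_eq_zero fun b _ => ?_).symm
        simp [cn, G.adj_comm a y, e]
    rw [sum_congr rfl fun y _ => this y, sum_comm, mul_sum]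
    refine sum_le_sum fun b _ => ?_
    by_cases e : (cn G b a).card < K
    · simp only [if_pos e, sum_ite_mem, univ_inter, sum_const, nsmul_eq_mul, mul_one]
      split_ifs with e'
      · rw [mul_one]; exact_mod_cast e.le
      · rw [mul_zero, Nat.cast_nonpos, card_eq_zero, eq_empty_iff_forall_notMem]
        refine fun x hx => e' ⟨?_, x, (mem_filter.1 hx).2.2, (mem_filter.1 hx).2.1⟩
        rintro rfl
        rw [cn_self] at e
        have : ((univ.filter (G.Adj a)).card : ℝ) < K := by exact_mod_cast e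
        linarith [(hG a).1]
    · simp only [if_neg e, sum_const_zero]
      positivity
  have a3 : d * S.card ≤ ∑ y, ((S.filter (G.Adj y)).card : ℝ) := by
    have : ∑ y, ((S.filter (G.Adj y)).card : ℝ) = ∑ a ∈ S, ((univ.filter (G.Adj a)).card : ℝ) := by
      simp only [card_filter]
      push_cast
      rw [sum_comm]
      exact sum_congr rfl fun _ _ => sum_congr rfl fun _ _ => by simp only [G.adj_comm]
    rw [this, mul_comm, ← nsmul_eq_mul]
    exact card_nsmul_le_sum _ _ _ fun a _ => (hG a).1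
  have a4 := sum_le_sum fun y (_ : y ∈ univ) => a1 y
  rw [← mul_sum, ← mul_sum, sum_sub_distrib, sum_const, card_univ, nsmul_eq_mul] at a4
  nlinarith [mul_le_mul_of_nonneg_left a2 (Nat.cast_nonneg (α := ℝ) k),
    mul_le_mul_of_nonneg_left (a3.trans' (mul_le_mul_of_nonneg_left hS d0)) (mul_nonneg σ0 d0)]

end Pool.Agent.Lib.MP_efdbfd_co.Lay
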