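import Pool.Agent.Lib.MP_efdbfd_co.LayHeavy

/-! The extension rules in a host in which the covered pairs are locally dense. -/

set_option autoImplicit false
set_option linter.unusedSectionVars false

open Finset SimpleGraph Function
open scoped Classical

noncomputable section

namespace Pool.Agent.Lib.MP_efdbfd_co.Lay

variable {W V : Type} [Fintype W] [Fintype V]

/-- A chosen common neighbour. -/
def conn (G : SimpleGraph V) (w u : V) : V :=
  if h : ∃ x, G.Adj w x ∧ G.Adj u x then h.choose else w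

lemma Cov.conn {G : SimpleGraph V} {w u : V} (h : Cov G w u) :
    G.Adj w (conn G w u) ∧ G.Adj u (conn G w u) := by
  rw [Lay.conn, dif_pos h.2]
  exact h.2.choose_spec

/-- `w` is joined to `u` and `u'` through a pair with at least `e` common neighbours. -/
def Bad (G : SimpleGraph V) (e : ℝ) (u u' w : V) : Prop :=
  ∃ x x', G.Adj u x ∧ G.Adj u' x' ∧ G.Adj x w ∧ G.Adj x' w ∧ e ≤ (cn G x x').card

/-- The pair `u, u'` has many bad vertices. -/
def BP (G : SimpleGraph V) (e η : ℝ) (u u' : V) : Prop :=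
  η ≤ (univ.filter (Bad G e u u')).card

lemma BP.symm {G : SimpleGraph V} {e η : ℝ} {u u' : V} (h : BP G e η u u') : BP G e η u' u := by
  refine le_trans h (Nat.cast_le.2 (card_le_card fun w hw => ?_))
  obtain ⟨x, x', a, b, c, d, f⟩ := (mem_filter.1 hw).2
  exact mem_filter.2 ⟨mem_univ _, x', x, b, a, d, c, cn_comm (G := G) x x' ▸ f⟩

/-- State between two layers. -/
def LRest (G : SimpleGraph V) (e η σ : ℝ) (R : Finset V) : Prop :=
  (∀ u ∈ R, ∀ u' ∈ R, u ≠ u' → ¬ BP G e η u u') ∧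
    ∃ Z : Finset V, σ * Fintype.card V ≤ Z.card ∧ ∀ z ∈ Z, ∀ u ∈ R, Cov G z u

/-- State inside a layer. -/
def LPh (G : SimpleGraph V) (d e η σ : ℝ) (R : Finset V) (ψ : W → V) (Λ : Finset W)
    (X : Set (W × V)) : Prop :=
  (∀ u ∈ R, ∀ u' ∈ R, u ≠ u' → ¬ BP G e η u u') ∧
    ∃ Z : Finset V, σ * Fintype.card V ≤ Z.card ∧ (∀ z ∈ Z, ∀ u ∈ R, Cov G z u) ∧
      ∃ (Q : V → Finset V) (Y : V → W → Finset V), ∀ z ∈ Z, σ * Fintype.card V ≤ (Q z).card ∧
        (∀ w ∈ Q z, Cov G z w ∧ ∀ l ∈ Λ, Cov G w (ψ l) ∧ conn G w (ψ l) ∈ Y z l ∧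
          ∀ l' ∈ Λ, l ≠ l' → ((cn G (conn G w (ψ l)) (conn G w (ψ l'))).card : ℝ) < e) ∧
        (∀ l ∈ Λ, ∀ x ∈ Y z l, σ * d ≤ ((Q z).filter fun w => conn G w (ψ l) = x).card) ∧
        ∀ p ∈ X, p.2 ∈ Y z p.1

variable {G : SimpleGraph V} {k : ℕ} {D d e η σ σ' β M : ℝ}

lemma LRest.start [Nonempty V] (hk : Fintype.card W ≤ k) (hG : Reg G D d) (d0 : 0 ≤ d)
    (σ0 : 0 ≤ σ') (η0 : 0 ≤ η)
    (dens : ∀ S : Finset V, σ / 2 * Fintype.card V ≤ S.card →
      β * (Fintype.card V) ^ 2 ≤ ∑ a ∈ S, ((S.filter (Cov G a)).card : ℝ))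
    (h1 : k * (k * η) ≤ σ / 2 * Fintype.card V)
    (h2 : 8 * σ' * k * D * d ^ 2 ≤ β * Fintype.card V) (h3 : 4 * σ' ≤ β) {R : Finset V}
    (H : LRest G e η σ R) (ψ : W → V) (Λ : Finset W) (hψ : ∀ l ∈ Λ, ψ l ∈ R)
    (inj : Set.InjOn ψ Λ) : LPh G d e η σ' R ψ Λ ∅ := by
  obtain ⟨bp, Z, z1, z2⟩ := H
  obtain ⟨n, hn⟩ : ∃ n : ℝ, n = Fintype.card V := ⟨_, rfl⟩
  have n0 : 0 < n := by rw [hn]; exact_mod_cast Fintype.card_pos
  have Lk : (Λ.card : ℝ) ≤ k := by exact_mod_cast (card_le_univ Λ).trans hk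
  have D0 : 0 ≤ D * d := (Nat.cast_nonneg _).trans (hG (Classical.arbitrary V)).2
  have cn' : ∀ S : Finset V, (S.card : ℝ) ≤ n := fun S => by
    rw [hn]; exact_mod_cast card_le_univ S
  rw [← hn] at dens h1 h2 z1
  obtain ⟨P, hP⟩ : ∃ P, P = Z.filter fun w =>
    ¬ ∃ l ∈ Λ, ∃ l' ∈ Λ, l ≠ l' ∧ Bad G e (ψ l) (ψ l') w := ⟨_, rfl⟩
  have PZ : P ⊆ Z := hP ▸ filter_subset _ _
  have p1 : σ / 2 * n ≤ P.card := by
    have a1 := card_filter_exists_le Z Λ (fun w l => ∃ l' ∈ Λ, l ≠ l' ∧ Bad G e (ψ l) (ψ l') w)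
      (b := k * η) fun l hl => (card_filter_exists_le Z Λ
        (fun w l' => l ≠ l' ∧ Bad G e (ψ l) (ψ l') w) (b := η) fun l' hl' => by
          by_cases c : l = l'
          · simpa [c] using η0
          · refine le_trans (Nat.cast_le.2 (card_le_card fun w hw => ?_)) (not_le.1
              (bp _ (hψ l hl) _ (hψ l' hl') fun c' => c (inj hl hl' c'))).le
            exact mem_filter.2 ⟨mem_univ _, (mem_filter.1 hw).2.2⟩).trans
        (mul_le_mul_of_nonneg_right Lk η0)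
    have a2 : Λ.card * (k * η) ≤ k * (k * η) := mul_le_mul_of_nonneg_right Lk (by positivity)
    rw [hP, ← card_filter_not_ge]
    linarith
  obtain ⟨Z', hZ⟩ : ∃ Z', Z' = P.filter fun z => β / 2 * n ≤ (P.filter (Cov G z)).card := ⟨_, rfl⟩
  have β0 : 0 ≤ β := by linarith
  have z3 : β / 2 * n ≤ Z'.card := by
    have a1 := dens P p1
    rw [← sum_filter_add_sum_filter_not P fun z => β / 2 * n ≤ (P.filter (Cov G z)).card, ← hZ] at a1
    have a2 := sum_le_card_nsmul Z' _ _ fun z _ => cn' (P.filter (Cov G z))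
    have a3 := sum_le_card_nsmul (P.filter fun z => ¬ β / 2 * n ≤ (P.filter (Cov G z)).card) _ _
      fun z hz => (not_le.1 (mem_filter.1 hz).2).le
    rw [nsmul_eq_mul] at a2 a3
    have a4 := mul_le_mul_of_nonneg_right
      (cn' (P.filter fun z => ¬ β / 2 * n ≤ (P.filter (Cov G z)).card))
      (show 0 ≤ β / 2 * n by positivity)
    exact le_of_mul_le_mul_right (by nlinarith) n0
  have cov : ∀ w ∈ P, ∀ l ∈ Λ, Cov G w (ψ l) := fun w hw l hl => z2 w (PZ hw) _ (hψ l hl)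
  have ex := fun z => clean (P.filter (Cov G z)) Λ (fun w l => {conn G w (ψ l)})
    (fun l => univ.filter (G.Adj (ψ l))) 1 (γ := σ' * d) (by positivity)
    (fun w hw l hl => ⟨card_singleton _, singleton_subset_iff.2
      (mem_filter.2 ⟨mem_univ _, (cov w (mem_filter.1 hw).1 l hl).conn.2⟩)⟩) fun l _ => (hG _).2
  choose Q q1 Y q2 q3 q4 using ex
  refine ⟨bp, Z', by rw [← hn]; nlinarith, fun z hz => z2 z (PZ ?_), Q, Y, fun z hz =>
    ⟨?_, fun w hw => ⟨(mem_filter.1 (q1 z hw)).2, fun l hl => ⟨cov w (mem_filter.1 (q1 z hw)).1 l hl,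
      ?_, fun l' hl' ne => ?_⟩⟩, fun l hl x hx => ?_, by simp⟩⟩
  · rw [hZ] at hz; exact (mem_filter.1 hz).1
  · rw [hZ] at hz
    have a1 := (mem_filter.1 hz).2
    have a2 := q2 z
    have a3 : 2 * (σ' * d) * Λ.card * (D * d) ≤ 2 * (σ' * d) * k * (D * d) := by gcongr
    rw [← hn]
    push_cast at a2
    nlinarith
  · obtain ⟨x, hx⟩ := card_pos.1 (show 0 < ({conn G w (ψ l)} ∩ Y z l).card by
      have := q3 z w hw l hl; omega)
    rw [mem_inter, mem_singleton] at hx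
    exact hx.1 ▸ hx.2
  · have a1 := (mem_filter.1 (q1 z hw)).1
    have c1 := (cov w a1 l hl).conn
    have c2 := (cov w a1 l' hl').conn
    rw [hP] at a1
    exact not_le.1 fun c => (mem_filter.1 a1).2
      ⟨l, hl, l', hl', ne, _, _, c1.2, c2.2, c1.1.symm, c2.1.symm, c⟩
  · simpa only [mem_singleton, eq_comm] using q4 z l hl x hx

lemma exists_avg (Z C : Finset V) (adm : V → V → Prop) {a U : ℝ} (a0 : 0 < a) (hZ : Z.Nonempty)
    (hC : (C.card : ℝ) ≤ U) (h : ∀ z ∈ Z, a ≤ (C.filter (adm z)).card) :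
    ∃ w, a * Z.card ≤ U * (Z.filter fun z => adm z w).card := by
  have C0 : C.Nonempty := by
    obtain ⟨z, hz⟩ := hZ
    have : (0 : ℝ) < (C.filter (adm z)).card := a0.trans_le (h z hz)
    exact (card_pos.1 (by exact_mod_cast this)).mono (filter_subset _ _)
  have a1 : ∑ z ∈ Z, ((C.filter (adm z)).card : ℝ) =
      ∑ w ∈ C, ((Z.filter fun z => adm z w).card : ℝ) := by
    simp only [card_filter]
    push_cast
    exact sum_comm
  have a2 := card_nsmul_le_sum Z _ _ h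
  rw [nsmul_eq_mul, a1] at a2
  obtain ⟨w, -, hw⟩ := exists_le_of_sum_le C0 (f := fun _ => a * Z.card)
    (g := fun w => U * (Z.filter fun z => adm z w).card) (by
      rw [sum_const, nsmul_eq_mul, ← mul_sum]
      exact mul_le_mul hC (by linarith) (by positivity) ((Nat.cast_nonneg _).trans hC))
  exact ⟨w, hw⟩

lemma count_good (hk : Fintype.card W ≤ k) (M0 : 0 ≤ M)
    (hM : ∀ u, ((univ.filter (BP G e η u)).card : ℝ) ≤ M) {R F : Finset V} (hR : R.card ≤ k)
    (hF : F.card ≤ k * (k + 1)) (B : Finset V) (c : V → W → V) (Λ : Finset W) {b : ℝ} (b0 : 0 ≤ b)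
    (hb : ∀ l ∈ Λ, ∀ y, ((B.filter fun w => c w l = y).card : ℝ) ≤ b) :
    (B.card : ℝ) - (k * (k + 1) + k * M + k * (k * (k + 1) * b)) ≤
      (B.filter fun w => w ∉ F ∧ (∀ u ∈ R, ¬ BP G e η u w) ∧ ∀ l ∈ Λ, c w l ∉ F).card := by
  have Lk : (Λ.card : ℝ) ≤ k := by exact_mod_cast (card_le_univ Λ).trans hk
  have Rk : (R.card : ℝ) ≤ k := by exact_mod_cast hR
  have Fk : (F.card : ℝ) ≤ k * (k + 1) := by exact_mod_cast hF
  have a1 := (card_filter_exists_le B R (fun w u => BP G e η u w) (b := M) fun u _ =>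
    le_trans (Nat.cast_le.2 (card_le_card (filter_subset_filter _ (subset_univ _)))) (hM u)).trans
    (mul_le_mul_of_nonneg_right Rk M0)
  have a2 := (card_filter_exists_le B Λ (fun w l => ∃ y ∈ F, c w l = y) (b := k * (k + 1) * b)
    fun l hl => (card_filter_exists_le B F (fun w y => c w l = y) fun y _ => hb l hl y).trans
      (mul_le_mul_of_nonneg_right Fk b0)).trans (mul_le_mul_of_nonneg_right Lk (by positivity))
  have a3 : B.card ≤
      (B.filter fun w => w ∉ F ∧ (∀ u ∈ R, ¬ BP G e η u w) ∧ ∀ l ∈ Λ, c w l ∉ F).card + F.card +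
      (B.filter fun w => ∃ u ∈ R, BP G e η u w).card +
      (B.filter fun w => ∃ l ∈ Λ, ∃ y ∈ F, c w l = y).card := by
    refine le_trans (card_le_card fun w hw => ?_) ((card_union_le _ _).trans (Nat.add_le_add_right
      ((card_union_le _ _).trans (Nat.add_le_add_right (card_union_le _ _) _)) _))
    simp only [mem_union, mem_filter, hw, true_and, exists_eq_right']
    by_contra hn
    simp only [not_or, not_and, not_exists] at hn
    obtain ⟨⟨⟨b1, b2⟩, b3⟩, b4⟩ := hn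
    exact b1 b2 b3 b4
  have a4 := (Nat.cast_le (α := ℝ)).2 a3
  simp only [Nat.cast_add] at a4
  linarith

lemma LPh.ext [Nonempty V] (hk : Fintype.card W ≤ k) (hG : Reg G D d) (d0 : 0 < d) (σ0 : 0 < σ)
    (D1 : 1 ≤ D) (e0 : 0 ≤ e) (ed : e ≤ d) (M0 : 0 ≤ M)
    (hM : ∀ u, ((univ.filter (BP G e η u)).card : ℝ) ≤ M)
    (h1 : k * (k + 1) + k * M + k * (k * (k + 1) * e) ≤ σ * d / 2)
    (h2 : k * (k + 1) + k * M + k * (k * (k + 1) * (D * d)) ≤ σ * Fintype.card V / 2)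
    (h3 : σ' ≤ σ) (h4 : 2 * D * σ' ≤ σ ^ 2) (σ1 : 0 < σ') {R : Finset V} {ψ : W → V} {Λ : Finset W}
    {X : Set (W × V)} (H : LPh G d e η σ R ψ Λ X) (hR : R.card ≤ k) (F : Finset V)
    (hF : F.card ≤ k * (k + 1)) (o : Option (W × V)) (ho : ∀ p ∈ o, p ∈ X ∧ p.1 ∈ Λ) :
    ∃ (w : V) (g : W → V), w ∉ F ∧ Set.InjOn g Λ ∧
      (∀ l ∈ Λ, G.Adj w (g l) ∧ G.Adj (g l) (ψ l) ∧ (g l ∉ F ∨ o = some (l, g l))) ∧
      (∀ p ∈ o, g p.1 = p.2) ∧
      LPh G d e η σ' (insert w R) ψ Λ (X ∪ {p | p.1 ∈ Λ ∧ g p.1 = p.2}) := by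
  obtain ⟨bp, Z, z1, z2, Q, Y, q⟩ := H
  obtain ⟨n, hn⟩ : ∃ n : ℝ, n = Fintype.card V := ⟨_, rfl⟩
  have n0 : 0 < n := by rw [hn]; exact_mod_cast Fintype.card_pos
  rw [← hn] at h2 z1 q
  have Z0 : Z.Nonempty := card_pos.1 (by exact_mod_cast (mul_pos σ0 n0).trans_le z1)
  obtain ⟨adm, ha⟩ : ∃ adm : V → V → Prop, adm = fun z w => w ∈ Q z ∧ w ∉ F ∧
    (∀ u ∈ R, ¬ BP G e η u w) ∧ (∀ l ∈ Λ, conn G w (ψ l) ∉ F ∨ o = some (l, conn G w (ψ l))) ∧
    ∀ p ∈ o, conn G w (ψ p.1) = p.2 := ⟨_, rfl⟩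
  obtain ⟨w, hw⟩ : ∃ w, σ' * n ≤ (Z.filter fun z => adm z w).card := by
    rcases o with _ | p
    · obtain ⟨w, hw⟩ := exists_avg Z univ adm (a := σ * n / 2) (U := n) (by positivity) Z0
        (by rw [hn, card_univ]) fun z hz => by
          refine le_trans (by linarith [(q z hz).1]) ((count_good hk M0 hM hR hF (Q z)
            (fun w l => conn G w (ψ l)) Λ (b := D * d) (by positivity) fun l hl y => ?_).trans
            (Nat.cast_le.2 (card_le_card fun w hw => ?_)))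
          · refine le_trans (Nat.cast_le.2 (card_le_card fun w hw => ?_)) (hG y).2
            rw [mem_filter] at hw
            exact mem_filter.2 ⟨mem_univ _, hw.2 ▸ (((q z hz).2.1 w hw.1).2 l hl).1.conn.1.symm⟩
          · rw [mem_filter] at hw
            rw [mem_filter, ha]
            exact ⟨mem_univ _, hw.1, hw.2.1, hw.2.2.1, fun l hl => Or.inl (hw.2.2.2 l hl), by simp⟩
      refine ⟨w, le_of_mul_le_mul_left (le_trans ?_ hw) n0⟩
      have : 2 * σ' ≤ σ ^ 2 := by nlinarith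
      nlinarith [mul_le_mul_of_nonneg_left z1 (show 0 ≤ σ * n / 2 by positivity), mul_pos n0 n0]
    · obtain ⟨p1, p2⟩ := ho p rfl
      obtain ⟨w, hw⟩ := exists_avg Z (univ.filter (G.Adj p.2)) adm (a := σ * d / 2) (U := D * d)
        (by positivity) Z0 (hG _).2 fun z hz => by
          obtain ⟨-, q2, q3, q4⟩ := q z hz
          refine le_trans (by linarith [q3 _ p2 _ (q4 p p1)]) ((count_good hk M0 hM hR hF
            ((Q z).filter fun w => conn G w (ψ p.1) = p.2)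
            (fun w l => conn G w (ψ l)) (Λ.erase p.1) e0 fun l hl y => ?_).trans
            (Nat.cast_le.2 (card_le_card fun w hw => ?_)))
          · rw [mem_erase] at hl
            rcases (((Q z).filter fun w => conn G w (ψ p.1) = p.2).filter
              fun w => conn G w (ψ l) = y).eq_empty_or_nonempty with c | ⟨w0, c⟩
            · rw [c]; simpa using e0
            simp only [mem_filter] at c
            have := ((q2 w0 c.1.1).2 _ p2).2.2 l hl.2 hl.1.symm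
            rw [c.1.2, c.2] at this
            refine le_trans (Nat.cast_le.2 (card_le_card fun w hw => ?_)) this.le
            simp only [mem_filter] at hw
            exact mem_filter.2 ⟨mem_univ _, hw.1.2 ▸ ((q2 w hw.1.1).2 _ p2).1.conn.1.symm,
              hw.2 ▸ ((q2 w hw.1.1).2 l hl.2).1.conn.1.symm⟩
          · simp only [mem_filter] at hw
            rw [mem_filter, ha]
            refine ⟨mem_filter.2 ⟨mem_univ _,
              hw.1.2 ▸ ((q2 w hw.1.1).2 _ p2).1.conn.1.symm⟩, hw.1.1, hw.2.1, hw.2.2.1,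
              fun l hl => ?_, fun p' c => Option.some.inj c ▸ hw.1.2⟩
            by_cases c : l = p.1
            · exact Or.inr (by rw [c, hw.1.2])
            · exact Or.inl (hw.2.2.2 l (mem_erase.2 ⟨c, hl⟩))
      refine ⟨w, le_of_mul_le_mul_left (le_trans ?_ hw) (show 0 < D * d by positivity)⟩
      nlinarith [mul_le_mul_of_nonneg_left z1 (show 0 ≤ σ * d / 2 by positivity), mul_pos n0 d0]
  obtain ⟨z0, hz0⟩ : (Z.filter fun z => adm z w).Nonempty :=
    card_pos.1 (by exact_mod_cast (mul_pos σ1 n0).trans_le hw)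
  rw [mem_filter, ha] at hz0
  obtain ⟨a0, a1, a2, a3, a4, a5⟩ := hz0
  have b := ((q z0 a0).2.1 w a1).2
  have mem : ∀ z ∈ Z.filter fun z => adm z w, z ∈ Z ∧ w ∈ Q z := fun z hz => by
    rw [mem_filter, ha] at hz
    exact ⟨hz.1, hz.2.1⟩
  refine ⟨w, fun l => conn G w (ψ l), a2, fun l hl l' hl' c => by_contra fun ne => ?_,
    fun l hl => ⟨(b l hl).1.conn.1, (b l hl).1.conn.2.symm, a4 l hl⟩, a5,
    fun u hu u' hu' ne => ?_, _, hn ▸ hw, fun z hz u hu => ?_, Q, Y, fun z hz => ?_⟩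
  · have := (b l hl).2.2 l' hl' ne
    dsimp only at c
    rw [c, cn_self] at this
    linarith [(hG (conn G w (ψ l'))).1]
  · rcases mem_insert.1 hu with rfl | h5 <;> rcases mem_insert.1 hu' with rfl | h6
    · exact absurd rfl ne
    · exact fun c => a3 _ h6 c.symm
    · exact a3 _ h5
    · exact bp _ h5 _ h6 ne
  · rcases mem_insert.1 hu with rfl | h5
    · exact ((q z (mem z hz).1).2.1 _ (mem z hz).2).1
    · exact z2 z (mem z hz).1 u h5
  · obtain ⟨q1, q2, q3, q4⟩ := q z (mem z hz).1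
    refine ⟨le_trans (by rw [← hn]; gcongr) q1, q2,
      fun l hl x hx => le_trans (by gcongr) (q3 l hl x hx), ?_⟩
    rintro p (hp | ⟨p1, p2⟩)
    · exact q4 p hp
    · exact p2 ▸ ((q2 w (mem z hz).2).2 _ p1).2.1

end Pool.Agent.Lib.MP_efdbfd_co.Lay
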