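import Pool.Agent.Lib.MP_efdbfd_co.LayLight
import Pool.Agent.Lib.MP_efdbfd_co.LayDefs

/-! Extremal numbers of layered forests. -/

set_option autoImplicit false
set_option linter.unusedSectionVars false

open Finset SimpleGraph Function Filter Asymptotics
open scoped Classical

noncomputable section

namespace Pool.Agent.Lib.MP_efdbfd_co.Lay

variable {W V : Type} [Fintype W] [Fintype V] {L : SimpleGraph W} {G : SimpleGraph V}
  {A : W → Prop} {h : W → ℕ} {rt : W → W} {k : ℕ} {D d : ℝ}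

lemma Core.free (hc : Core L A h rt) (hk : Fintype.card W ≤ k) (hn : ¬ L ⊑ G) (S Z : Finset V)
    (hS : k ≤ S.card) (hZ : k ≤ Z.card) : ¬ ∀ a ∈ S, ∀ b ∈ Z, G.Adj a b := fun H => by
  obtain ⟨f⟩ : Nonempty (W ↪ S) := Embedding.nonempty_of_card_le (by simpa using hk.trans hS)
  obtain ⟨g⟩ : Nonempty (W ↪ Z) := Embedding.nonempty_of_card_le (by simpa using hk.trans hZ)
  have K := fun a b => H _ (f a).2 _ (g b).2
  refine hn ⟨⟨⟨fun w => if A w then f w else g w, fun {a b} e => ?_⟩, fun a b e => ?_⟩⟩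
  · have := hc.bip a b e
    split_ifs
    · tauto
    · exact K a b
    · exact (K b a).symm
    · tauto
  · simp only [RelHom.coeFn_mk] at e
    split_ifs at e
    · exact f.injective (Subtype.ext e)
    · exact absurd e (K a b).ne
    · exact absurd e (K b a).ne'
    · exact g.injective (Subtype.ext e)

lemma bp_card (hK : ∀ S Z : Finset V, k ≤ S.card → k ≤ Z.card → ¬ ∀ a ∈ S, ∀ b ∈ Z, G.Adj a b)
    (hG : Reg G D d) (d0 : 0 < d) (D0 : 0 < D) {T T' : ℕ} {κ κ' e η : ℝ} (κ0 : 0 ≤ κ) (κ1 : 0 ≤ κ')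
    (hT : 2 * (k : ℝ) ≤ T * κ) (hT' : 2 * (k : ℝ) ≤ T' * κ') (h1 : ((T * 2 ^ T : ℕ) : ℝ) < d)
    (h2 : ((T' * 2 ^ T' : ℕ) : ℝ) < d) (h3 : κ * (D * d) ≤ e) (h4 : e ≤ d)
    (h5 : κ' * (D * d * T) * (D * d) ≤ η) (u : V) :
    ((univ.filter (BP G e η u)).card : ℝ) ≤ T' := by
  have a1 : ∀ x, (univ.filter fun x' => e ≤ (cn G x x').card).card ≤ T := fun x =>
    Grid.heavy_card hK hT (N := univ.filter (G.Adj x)) (by exact_mod_cast h1.trans_le (hG x).1)
      fun w hw => by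
        rw [filter_filter]
        exact (mul_le_mul_of_nonneg_left (hG x).2 κ0).trans (h3.trans (mem_filter.1 hw).2)
  obtain ⟨Y, a2, hY⟩ : ∃ Y : Finset V, (Y.card : ℝ) ≤ D * d * T ∧ ∀ x', x' ∈ Y ↔
      ∃ x ∈ univ.filter (G.Adj u), e ≤ (cn G x x').card :=
    ⟨_, (card_filter_exists_le univ _ (fun x' x => e ≤ (cn G x x').card) (b := T)
      fun x _ => by exact_mod_cast a1 x).trans (mul_le_mul_of_nonneg_right (hG u).2 (by positivity)),
      fun x' => by rw [mem_filter, and_iff_right (mem_univ _)]⟩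
  have a3 : (univ.filter (G.Adj u)).card ≤ Y.card := card_le_card fun x hx =>
    (hY x).2 ⟨x, hx, by rw [cn_self]; exact h4.trans (hG x).1⟩
  refine Nat.cast_le.2 (Grid.heavy_card hK hT' (N := Y)
    (lt_of_lt_of_le (by exact_mod_cast h2.trans_le (hG u).1) a3) fun w hw => ?_)
  have a4 := card_filter_exists_le univ (Y.filter (G.Adj w)) (fun y x' => G.Adj x' y) (b := D * d)
    fun x' _ => (hG x').2
  have a5 : η ≤ (Y.filter (G.Adj w)).card * (D * d) := by
    refine le_trans (le_trans (mem_filter.1 hw).2 (Nat.cast_le.2 (card_le_card fun y hy => ?_))) a4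
    obtain ⟨x, x', b1, b2, -, b4, b5⟩ := (mem_filter.1 hy).2
    exact mem_filter.2 ⟨mem_univ _, x', mem_filter.2
      ⟨(hY x').2 ⟨x, mem_filter.2 ⟨mem_univ _, b1⟩, b5⟩, b2⟩, b4⟩
  refine le_of_mul_le_mul_right (le_trans ?_ a5) (mul_pos D0 d0)
  exact le_trans (by gcongr) h5

lemma Core.upper (hc : Core L A h rt) (hk : Fintype.card W ≤ k) (k0 : 0 < k) (D : ℝ) :
    ∃ C : ℝ, 0 < C ∧ ∀ᶠ d : ℝ in atTop, ∀ (V : Type) [Fintype V] [Nonempty V] (G : SimpleGraph V),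
      Reg G D d → ¬ L ⊑ G → d ^ 2 ≤ C * Fintype.card V := by
  obtain ⟨K, hK⟩ := exists_nat_ge (max (32 * (k * (k + 1) + 1) * k * D)
    ((2 * (k * (k + 1) + k + 1) : ℕ) : ℝ))
  rw [max_le_iff, Nat.cast_le] at hK
  have K0 : 0 < K := by omega
  refine ⟨32 * k * K, by positivity, ?_⟩
  filter_upwards [eventually_ge_atTop (K : ℝ), eventually_ge_atTop (16 * ((k : ℝ) * (k + 1) + 1))]
    with d d1 d2 V _ _ G hG hn
  have n0 : (0 : ℝ) < Fintype.card V := by exact_mod_cast Fintype.card_pos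
  have := hc.dense hk k0 hG hn (σ := 1) zero_le_one ((Nat.cast_nonneg _).trans d1)
    (by linarith [hK.1]) (by linarith) hK.2 d1 (S := univ) (by simp)
  have a := sum_le_card_nsmul (univ : Finset V)
    (fun a => ((univ.filter (Cov G a)).card : ℝ)) (Fintype.card V) fun a _ => by
      exact_mod_cast card_le_univ _
  rw [nsmul_eq_mul, card_univ] at a
  refine le_of_mul_le_mul_right ?_ n0
  linarith [mul_le_mul_of_nonneg_left a (show (0 : ℝ) ≤ 32 * k * K by positivity)]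

lemma Core.shrink (hc : Core L A h rt) (hk : Fintype.card W ≤ k) (k0 : 0 < k) {D E C : ℝ}
    (D1 : 1 ≤ D) (E0 : 0 < E) (C0 : 0 < C) (σ : ℝ) : ∃ σ' : ℝ, 0 < σ → 0 < σ' ∧ σ' ≤ σ ∧
      2 * D * σ' ≤ σ ^ 2 ∧ ∀ᶠ d : ℝ in atTop, ∀ (V : Type) [Fintype V] (G : SimpleGraph V),
        Reg G D d → (Fintype.card V : ℝ) ≤ E * d ^ 2 → ¬ L ⊑ G → ∃ β : ℝ, 4 * σ' ≤ β ∧
          8 * σ' * k * D * C ≤ β ∧ ∀ S : Finset V, σ / 2 * Fintype.card V ≤ S.card →
            β * (Fintype.card V) ^ 2 ≤ ∑ a ∈ S, ((S.filter (Cov G a)).card : ℝ) := by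
  by_cases σ0 : 0 < σ
  swap
  · exact ⟨0, fun c => absurd c σ0⟩
  obtain ⟨K, hK⟩ := exists_nat_ge (max (32 * (k * (k + 1) + 1) * k * D / (σ / 2))
    ((2 * (k * (k + 1) + k + 1) : ℕ) : ℝ))
  rw [max_le_iff, Nat.cast_le, div_le_iff₀ (by positivity)] at hK
  have K0 : 0 < K := by omega
  obtain ⟨β, hβ⟩ : ∃ β : ℝ, β = (σ / 2) ^ 2 / (32 * k * K * E) := ⟨_, rfl⟩
  have β0 : 0 < β := by rw [hβ]; positivity
  refine ⟨min (min σ (σ ^ 2 / (2 * D))) (min (β / 4) (β / (8 * k * D * C))), fun _ =>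
    ⟨by positivity, (min_le_left _ _).trans (min_le_left _ _), ?_, ?_⟩⟩
  · rw [mul_comm, ← le_div_iff₀ (by positivity)]
    exact (min_le_left _ _).trans (min_le_right _ _)
  filter_upwards [eventually_ge_atTop (K : ℝ),
    eventually_ge_atTop (16 * ((k : ℝ) * (k + 1) + 1) / (σ / 2))] with d d1 d2 V _ G hG hE hn
  refine ⟨β, ?_, ?_, fun S hS => ?_⟩
  · rw [mul_comm, ← le_div_iff₀ (by positivity)]
    exact (min_le_right _ _).trans (min_le_left _ _)
  · have := (le_div_iff₀ (by positivity)).1 ((min_le_right (min σ (σ ^ 2 / (2 * D))) _).trans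
      (min_le_right (β / 4) (β / (8 * k * D * C))))
    linarith
  · rw [div_le_iff₀ (by positivity)] at d2
    have := hc.dense hk k0 hG hn (σ := σ / 2) (by positivity) ((Nat.cast_nonneg _).trans d1) hK.1
      (by linarith) hK.2 d1 hS
    refine le_of_mul_le_mul_left (le_trans ?_ this) (show (0 : ℝ) < 32 * k * K by positivity)
    calc 32 * k * K * (β * (Fintype.card V : ℝ) ^ 2)
        = (σ / 2) ^ 2 / E * Fintype.card V * Fintype.card V := by rw [hβ]; field_simp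
      _ ≤ (σ / 2) ^ 2 / E * (E * d ^ 2) * Fintype.card V := by gcongr
      _ = _ := by field_simp

lemma Core.small (hc : Core L A h rt) (hk : Fintype.card W ≤ k) (k0 : 0 < k)
    (hp : ∀ a a' b, A a → A a' → L.Adj a b → L.Adj a' b → h b = h a' → rt a = rt a' → a = a')
    {D E : ℝ} (D1 : 1 ≤ D) (E0 : 0 < E) :
    ∀ᶠ d : ℝ in atTop, ∀ (V : Type) [Fintype V] [Nonempty V] (G : SimpleGraph V),
      Reg G D d → (Fintype.card V : ℝ) ≤ E * d ^ 2 → L ⊑ G := by
  obtain ⟨C, C0, hC⟩ := hc.upper hk k0 D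
  choose f hf using hc.shrink hk k0 D1 E0 C0
  obtain ⟨s, s0, s1⟩ : ∃ s : ℕ → ℝ, s 0 = 1 ∧ ∀ t, s (t + 1) = f (s t) :=
    ⟨fun t => f^[t] 1, rfl, fun t => iterate_succ_apply' f t 1⟩
  have sp : ∀ t, 0 < s t := fun t => by
    induction t with
    | zero => rw [s0]; exact one_pos
    | succ t ih => rw [s1]; exact (hf _ ih).1
  have sa : Antitone s := antitone_nat_of_succ_le fun t => by rw [s1]; exact (hf _ (sp t)).2.1
  obtain ⟨m, hm⟩ : ∃ m, m = s (2 * k) := ⟨_, rfl⟩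
  have m0 : 0 < m := hm ▸ sp _
  have m1 : m ≤ 1 := by rw [hm, ← s0]; exact sa (Nat.zero_le _)
  have kp : (1 : ℝ) ≤ k := by exact_mod_cast k0
  obtain ⟨θ, hθ⟩ : ∃ θ : ℝ, θ = m / (4 * (k * (k * (k + 1)))) := ⟨_, rfl⟩
  have θ0 : 0 < θ := by rw [hθ]; positivity
  have θ1 : 4 * (k * (k * (k + 1))) * θ = m := by rw [hθ]; field_simp
  have k2 : (1 : ℝ) ≤ k * k := by nlinarith
  have k3 : (k : ℝ) * k ≤ k * (k * (k + 1)) := by nlinarith
  have θ2 : θ ≤ 1 := by nlinarith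
  obtain ⟨T, hT⟩ := exists_nat_ge (2 * (k : ℝ) / (θ / D))
  rw [div_le_iff₀ (by positivity)] at hT
  obtain ⟨T', hT'⟩ := exists_nat_ge (2 * (k : ℝ) / (θ / (C * D ^ 2 * (T + 1))))
  rw [div_le_iff₀ (by positivity)] at hT'
  filter_upwards [hC, (eventually_all_finset (range (2 * k + 1))).2 fun t _ => (hf _ (sp t)).2.2.2,
    eventually_gt_atTop ((T * 2 ^ T : ℕ) : ℝ), eventually_gt_atTop ((T' * 2 ^ T' : ℕ) : ℝ),
    eventually_ge_atTop (1 : ℝ), eventually_ge_atTop (4 * ((k : ℝ) * (k + 1) + k * T') / m),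
    eventually_ge_atTop (2 * C * ((k : ℝ) * (k + 1) + k * T' + k * (k * (k + 1) * D)) / m)]
    with d d1 d2 d3 d4 d5 d6 d7 V _ _ G hG hE
  by_contra hn
  rw [div_le_iff₀ m0] at d6 d7
  have d0 : 0 < d := by linarith
  have up := d1 V G hG hn
  have n0 : (0 : ℝ) < Fintype.card V := by exact_mod_cast Fintype.card_pos
  have hM := bp_card (hc.free hk hn) hG d0 (by linarith) (by positivity) (by positivity) hT hT' d3 d4
    (e := θ * d) (η := θ * Fintype.card V) (le_of_eq (by field_simp)) (by nlinarith) (by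
      calc θ / (C * D ^ 2 * (T + 1)) * (D * d * T) * (D * d)
          ≤ θ / (C * D ^ 2 * (T + 1)) * (D * d * (T + 1)) * (D * d) := by gcongr; linarith
        _ = θ / C * d ^ 2 := by field_simp
        _ ≤ θ / C * (C * Fintype.card V) := by gcongr
        _ = _ := by field_simp)
  refine hn (hc.embed (lab := rt) (rl := id) (I := True)
    (Rest := fun t => LRest G (θ * d) (θ * Fintype.card V) (s t))
    (Ph := fun t => LPh G d (θ * d) (θ * Fintype.card V) (s t))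
    ⟨⟨by simp, univ, by simp [s0], by simp⟩, fun t ht R H ψ Λ h1 h2 => ?_,
      fun t R ψ Λ X H => ⟨H.1, H.2.imp fun Z z => ⟨z.1, z.2.1⟩⟩, fun t ht R ψ Λ X H => ?_⟩ hk
    (fun _ _ => rfl) (fun _ => injective_id) hp)
  · obtain ⟨β, b1, b2, b3⟩ := d2 t (mem_range.2 (by omega)) V G hG hE hn
    have mt : m ≤ s t := hm ▸ sa ht
    rw [← s1] at b1 b2
    refine H.start hk hG d0.le (sp _).le (by positivity) b3 ?_ ?_ b1 ψ Λ h1 (h2 trivial)
    · have : k * k * θ ≤ s t / 2 := by nlinarith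
      nlinarith
    · have : 0 ≤ 8 * s (t + 1) * k * D := by have := sp (t + 1); positivity
      nlinarith [mul_le_mul_of_nonneg_left up this, mul_le_mul_of_nonneg_right b2 n0.le]
  · have mt : m ≤ s t := hm ▸ sa ht
    refine H.ext hk hG d0 (sp t) D1 (by positivity) (by nlinarith) (Nat.cast_nonneg T') hM ?_ ?_
      (sa (Nat.le_succ t)) (s1 t ▸ (hf _ (sp t)).2.2.1) (sp _)
    · nlinarith [mul_le_mul_of_nonneg_right mt d0.le]
    · have a1 : (k : ℝ) * (k + 1) + k * T' ≤ (k * (k + 1) + k * T') * d :=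
        le_mul_of_one_le_right (by positivity) d5
      refine le_of_mul_le_mul_left ?_ C0
      nlinarith [mul_le_mul_of_nonneg_right mt n0.le, mul_le_mul_of_nonneg_left up m0.le,
        mul_le_mul_of_nonneg_right d7 d0.le, mul_le_mul_of_nonneg_left a1 C0.le,
        mul_le_mul_of_nonneg_left (mul_le_mul_of_nonneg_right mt n0.le) C0.le]

lemma extr_le_of_reg {W : Type} {L : SimpleGraph W} {ε d₀ : ℝ} (ε0 : 0 < ε)
    (H : ∀ d, d₀ ≤ d → ∀ (V : Type) [Fintype V] [Nonempty V] (G : SimpleGraph V),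
      Reg G (2 ^ 24) d → ε ^ 2 * Fintype.card V ≤ 64 * d ^ 2 → L ⊑ G) {n : ℕ}
    (hn : 0 < n → 4096 * d₀ ^ 4 ≤ ε ^ 4 * n) :
    (extremalNumber n L : ℝ) ≤ ε * (n : ℝ) ^ (1 + 1 / ((2 : ℕ) : ℝ)) := by
  have key := extremalNumber_le_iff_of_nonneg (V := Fin n) L
    (m := ε * (n : ℝ) ^ (1 + 1 / ((2 : ℕ) : ℝ))) (by positivity)
  rw [Fintype.card_fin] at key
  refine key.2 fun G _ hG => ?_
  by_contra hc
  rw [not_le] at hc
  have e0 : (0 : ℝ) < G.edgeFinset.card := lt_of_le_of_lt (by positivity) hc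
  have n0 : 0 < n := by
    refine Nat.pos_of_ne_zero ?_
    rintro rfl
    obtain ⟨e, -⟩ := card_pos.1 (Nat.cast_pos.1 e0)
    induction e using Sym2.ind with
    | _ a b => exact a.elim0
  have : Nonempty (Fin n) := ⟨⟨0, n0⟩⟩
  obtain ⟨S, d, S0, d1, h1, h2, h3⟩ := exists_reg G ε0 (by
    have a : ((n : ℝ) ^ (1 + 1 / ((2 : ℕ) : ℝ))) ^ 2 = (n : ℝ) ^ 3 := by
      rw [← Real.rpow_natCast, ← Real.rpow_mul (by positivity), ← Real.rpow_natCast]
      norm_num
    rw [Fintype.card_fin, ← a, ← mul_pow, extrD_univ]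
    exact pow_le_pow_left₀ (by positivity) (by linarith) 2)
  have : Nonempty (S : Set (Fin n)) := ⟨⟨S0.choose, S0.choose_spec⟩⟩
  rw [Fintype.card_fin] at h3
  refine hG ((H d (le_of_pow_le_pow_left₀ (n := 4) (by norm_num) d1.le (by linarith [hn n0]))
    (S : Set (Fin n)) (G.induce S) (fun v => ?_) (by simpa using h2)).trans ⟨Copy.induce G _⟩)
  rw [← Grid.deg_eq, extr_ncard]
  exact h1 v v.2

lemma peel {W : Type} {L : SimpleGraph W} (hL : L.IsAcyclic) (S : Finset W) (hS : S.Nonempty) :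
    ∃ v ∈ S, ∀ x ∈ S, ∀ y ∈ S, L.Adj v x → L.Adj v y → x = y := by
  have : Nonempty (S : Set W) := ⟨⟨hS.choose, hS.choose_spec⟩⟩
  obtain ⟨u, v, p, hp, hm⟩ := Walk.exists_isPath_forall_isPath_length_le_length (L.induce (S : Set W))
  have key : ∀ x : (S : Set W), (L.induce (S : Set W)).Adj u x → x = p.snd := fun x e =>
    (hL.induce _).eq_snd_of_adj_start hp e (by_contra fun c => by
      have := hm _ _ _ (hp.cons c (h := e.symm))
      rw [Walk.length_cons] at this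
      omega)
  exact ⟨u, u.2, fun x hx y hy e e' =>
    congrArg Subtype.val ((key ⟨x, hx⟩ e).trans (key ⟨y, hy⟩ e').symm)⟩

lemma exists_core (hL : Layered L) : ∃ (A : W ⊕ W → Prop) (h : W ⊕ W → ℕ) (rt : W ⊕ W → W ⊕ W),
    Core (L ⊕g (⊥ : SimpleGraph W)) A h rt ∧
      ((∀ a b c d, L.Adj a b → L.Adj b c → L.Adj c d → L.Adj d a → a = c ∨ b = d) →
        ∀ a a' b, A a → A a' → (L ⊕g (⊥ : SimpleGraph W)).Adj a b →
          (L ⊕g (⊥ : SimpleGraph W)).Adj a' b → h b = h a' → rt a = rt a' → a = a') := by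
  obtain ⟨A, h, h1, h2, h3, h4⟩ := hL
  obtain ⟨r, r1, r2⟩ : ∃ r : W → W ⊕ W, (∀ a, r a = .inr a ∨ ∃ b, r a = .inl b ∧ L.Adj a b ∧ h b < h a) ∧
      ∀ a ∈ A, ∀ b, L.Adj a b → h b < h a → r a = .inl b := by
    refine ⟨fun a => if c : ∃ b, L.Adj a b ∧ h b < h a then .inl c.choose else .inr a,
      fun a => ?_, fun a ha b e e' => ?_⟩
    · by_cases c : ∃ b, L.Adj a b ∧ h b < h a
      · exact Or.inr ⟨_, dif_pos c, c.choose_spec⟩
      · exact Or.inl (dif_neg c)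
    · have c : ∃ b, L.Adj a b ∧ h b < h a := ⟨b, e, e'⟩
      dsimp only
      rw [dif_pos c, h4 a ha _ b c.choose_spec.1 e c.choose_spec.2 e']
  refine ⟨Sum.elim (· ∈ A) fun _ => False, Sum.elim (fun v => h v + 1) fun _ => 0,
    Sum.elim r .inr, ⟨?_, ?_, ?_, ?_, fun S hS hh => ?_⟩, ?_⟩
  · rintro (x | x) (y | y) e <;> simp at e
    exact h1 x y e
  · rintro (a | a) ha
    · rcases r1 a with e | ⟨b, e, e1, -⟩ <;> simp only [Sum.elim_inl, e, Sum.elim_inr, not_false_iff]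
      exact (h1 a b e1).1 ha
    · exact ha.elim
  · rintro (a | a) ha
    · rcases r1 a with e | ⟨b, e, -, e1⟩ <;> simp only [Sum.elim_inl, e, Sum.elim_inr] <;> omega
    · exact ha.elim
  · rintro (a | a) (b | b) ha e <;> simp at e
    rcases (h3 a ha b e).lt_or_eq with c | c
    · exact Or.inl (r2 a ha b e c).symm
    · exact Or.inr (by simp [c])
  · by_cases c : ∃ x, Sum.inr x ∈ S
    · obtain ⟨x, hx⟩ := c
      refine ⟨_, hx, ?_⟩
      rintro (y | y) - z - e <;> simp at e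
    obtain ⟨x | x, hx⟩ := hS
    swap
    · exact absurd ⟨x, hx⟩ c
    obtain ⟨v, v1, v2⟩ := peel (h2 (h x)) (univ.filter fun y => Sum.inl y.1 ∈ S)
      ⟨⟨x, rfl⟩, mem_filter.2 ⟨mem_univ _, hx⟩⟩
    refine ⟨_, (mem_filter.1 v1).2, ?_⟩
    rintro (y | y) hy (z | z) hz e e' <;> simp at e e'
    have := v2 ⟨y, by simpa using hh _ hy _ hx⟩ (mem_filter.2 ⟨mem_univ _, hy⟩)
      ⟨z, by simpa using hh _ hz _ hx⟩ (mem_filter.2 ⟨mem_univ _, hz⟩) e e'
    rw [Subtype.mk.inj this]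
  · rintro h5 (a | a) (a' | a') (b | b) ha ha' e e' c c' <;> simp at e e'
    simp only [Sum.elim_inl, add_left_inj] at c c'
    rcases r1 a with f | ⟨x, f, f1, -⟩ <;> rcases r1 a' with f' | ⟨y, f', f2, f3⟩ <;>
      rw [f, f'] at c' <;> simp at c'
    · rw [c']
    · subst c'
      rcases h5 a b a' x e e'.symm f2 f1.symm with g | g
      · rw [g]
      · rw [g] at c; omega

lemma Layered.up (hL : Layered L) : Up L 2 := by
  obtain ⟨A, h, rt, hc, -⟩ := exists_core hL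
  obtain ⟨C, C0, hC⟩ := hc.upper (Nat.le_succ _) (Nat.succ_pos _) (2 ^ 24)
  obtain ⟨d₀, hd⟩ := eventually_atTop.1 hC
  obtain ⟨ε, h1, h2⟩ : ∃ ε : ℝ, 64 * C + 1 ≤ ε ∧ 8 * |d₀| ≤ ε := ⟨_, le_max_left _ _, le_max_right _ _⟩
  refine ⟨ε, fun n => extr_le_of_reg (by linarith) (d₀ := |d₀|) (fun d d1 V _ _ G hG hE =>
    IsContained.trans (B := L ⊕g (⊥ : SimpleGraph W)) ⟨Embedding.sumInl.toCopy⟩ (by_contra fun hn => ?_)) fun n0 => ?_⟩
  · have := hd d ((le_abs_self _).trans d1) V G hG hn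
    have n0 : (0 : ℝ) < Fintype.card V := by exact_mod_cast Fintype.card_pos
    have : 64 * C + 1 ≤ ε ^ 2 := by nlinarith
    nlinarith
  · have a := pow_le_pow_left₀ (by positivity) h2 4
    have : (1 : ℝ) ≤ n := by exact_mod_cast n0
    nlinarith [pow_nonneg (show 0 ≤ ε by linarith) 4]

lemma Layered.littleO (hL : Layered L)
    (h4 : ∀ a b c d, L.Adj a b → L.Adj b c → L.Adj c d → L.Adj d a → a = c ∨ b = d) :
    (fun n : ℕ => (extremalNumber n L : ℝ)) =o[atTop]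
      fun n : ℕ => (n : ℝ) ^ (1 + 1 / ((2 : ℕ) : ℝ)) := by
  obtain ⟨A, h, rt, hc, hp⟩ := exists_core hL
  refine isLittleO_iff.2 fun ε ε0 => ?_
  obtain ⟨d₀, hd⟩ := eventually_atTop.1 (hc.small (Nat.le_succ _) (Nat.succ_pos _) (hp h4)
    (D := 2 ^ 24) (E := 64 / ε ^ 2) (by norm_num) (by positivity))
  filter_upwards [tendsto_natCast_atTop_atTop.eventually_ge_atTop (4096 * |d₀| ^ 4 / ε ^ 4)] with n hn
  rw [Real.norm_of_nonneg (by positivity), Real.norm_of_nonneg (by positivity)]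
  refine extr_le_of_reg ε0 (d₀ := |d₀|) (fun d d1 V _ _ G hG hE =>
    IsContained.trans ⟨Embedding.sumInl.toCopy⟩ (hd d ((le_abs_self _).trans d1) V G hG ?_))
    fun _ => ?_
  · rw [div_mul_eq_mul_div, le_div_iff₀ (by positivity)]
    linarith
  · rw [div_le_iff₀ (by positivity)] at hn
    linarith

lemma Layered.induce {W : Type} {L : SimpleGraph W} (hL : Layered L) (s : Set W) :
    Layered (L.induce s) := by
  obtain ⟨A, h, h1, h2, h3, h4⟩ := hL
  refine ⟨{x | x.1 ∈ A}, fun x => h x.1, fun x y e => h1 x y e, fun i => ?_,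
    fun a ha b e => h3 a ha b e, fun a ha b b' e e' c c' => Subtype.ext (h4 a ha b b' e e' c c')⟩
  let f : (L.induce s).induce {v | h v.1 = i} →g L.induce {v | h v = i} :=
    ⟨fun x => ⟨x.1.1, x.2⟩, fun e => e⟩
  exact (h2 i).comap f fun x y e => Subtype.ext (Subtype.ext (congrArg Subtype.val e :))

end Pool.Agent.Lib.MP_efdbfd_co.Lay
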