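import Pool.Agent.Lib.MP_efdbfd_co.GridComb

/-! Almost regular subgraphs for the exponent `3/2`. -/

set_option autoImplicit false
set_option linter.unusedSectionVars false

open Finset SimpleGraph Function
open scoped Classical

noncomputable section

namespace Pool.Agent.Lib.MP_efdbfd_co.Lay

variable {V : Type} [Fintype V] (G : SimpleGraph V)

lemma extrD_eq (S : Finset V) : extrD G S = ∑ u ∈ S, ((S.filter (G.Adj u)).card : ℝ) := by
  simp [extrD]

lemma extrD_nonneg (S : Finset V) : 0 ≤ extrD G S := by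
  rw [extrD_eq]; positivity

lemma core_sub (S0 : Finset V) {δ : ℝ} (h : 2 * δ * S0.card < extrD G S0) :
    ∃ S ⊆ S0, S.Nonempty ∧ ∀ v ∈ S, δ ≤ (S.filter (G.Adj v)).card := by
  obtain ⟨S, hS0, hS⟩ := exists_max_image S0.powerset
    (fun S => extrD G S - 2 * δ * S.card) ⟨∅, empty_mem_powerset _⟩
  rw [mem_powerset] at hS0
  refine ⟨S, hS0, nonempty_iff_ne_empty.2 fun e => ?_, fun v hv => ?_⟩
  · have := hS S0 (mem_powerset_self _)
    rw [e] at this
    simp only [extrD, sum_empty, card_empty, Nat.cast_zero, mul_zero, sub_zero] at this h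
    linarith
  · have := hS (S.erase v) (mem_powerset.2 ((erase_subset _ _).trans hS0))
    have e := extrD_erase G hv
    have c : (S.card : ℝ) = (S.erase v).card + 1 := by exact_mod_cast (card_erase_add_one hv).symm
    rw [e, c] at this
    linarith

lemma sum_le_parts {S : Finset V} {w : V → ℝ} {p : ℕ} {b : ℝ} (b0 : 0 ≤ b)
    (h : ∀ R ⊆ S, R.card ≤ p → ∑ v ∈ R, w v ≤ b) :
    ∀ (n : ℕ) (S' : Finset V), S' ⊆ S → S'.card ≤ n * p → ∑ v ∈ S', w v ≤ n * b := by
  intro n
  induction n with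
  | zero =>
    intro S' _ hc
    rw [zero_mul, Nat.le_zero, card_eq_zero] at hc
    simp [hc]
  | succ n ih =>
    intro S' hS hc
    by_cases e : S'.card ≤ p
    · have := h S' hS e
      push_cast
      nlinarith [mul_nonneg (Nat.cast_nonneg (α := ℝ) n) b0]
    · obtain ⟨R, hR, hRc⟩ := exists_subset_card_eq (not_le.1 e).le
      have h1 := h R (hR.trans hS) hRc.le
      have h2 := ih (S' \ R) (sdiff_subset.trans hS) (by
        rw [card_sdiff_of_subset hR, hRc, Nat.succ_mul] at *; omega)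
      rw [← sum_sdiff hR]
      push_cast
      linarith

lemma extrD_sdiff {S T : Finset V} (hT : T ⊆ S) :
    extrD G S ≤ extrD G (S \ T) + 2 * ∑ v ∈ S, ((T.filter (G.Adj v)).card : ℝ) := by
  have e1 : ∑ v ∈ T, ((S.filter (G.Adj v)).card : ℝ) = ∑ v ∈ S, ((T.filter (G.Adj v)).card : ℝ) := by
    simp only [card_filter]
    push_cast
    rw [sum_comm]
    exact sum_congr rfl fun _ _ => sum_congr rfl fun _ _ => by simp only [G.adj_comm]
  have e2 : ∑ v ∈ S \ T, ((S.filter (G.Adj v)).card : ℝ) ≤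
      extrD G (S \ T) + ∑ v ∈ S, ((T.filter (G.Adj v)).card : ℝ) := by
    refine le_trans ?_ (add_le_add_right (sum_le_sum_of_subset_of_nonneg (sdiff_subset (t := T))
      fun _ _ _ => by positivity) _)
    rw [extrD_eq, ← sum_add_distrib]
    refine sum_le_sum fun v _ => ?_
    rw [← Nat.cast_add, Nat.cast_le]
    refine le_trans (card_le_card fun x hx => ?_) (card_union_le _ _)
    simp only [mem_filter, mem_union, mem_sdiff] at hx ⊢
    tauto
  rw [extrD_eq G S, ← sum_sdiff hT, e1]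
  linarith

lemma cross_le (T R : Finset V) :
    ∑ v ∈ R, ((T.filter (G.Adj v)).card : ℝ) ≤ extrD G (T ∪ R) := by
  rw [extrD_eq]
  refine le_trans (sum_le_sum fun v _ => ?_) (sum_le_sum_of_subset_of_nonneg
    (subset_union_right (s₁ := T)) fun _ _ _ => by positivity)
  exact_mod_cast card_le_card (filter_subset_filter _ subset_union_left)

/-- A graph with `ε n^(3/2)` edges has an almost regular induced subgraph of the same kind. -/
lemma exists_reg [Nonempty V] {ε : ℝ} (hε : 0 < ε)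
    (h : ε ^ 2 * (Fintype.card V : ℝ) ^ 3 ≤ extrD G univ ^ 2) :
    ∃ (S : Finset V) (d : ℝ), S.Nonempty ∧ 0 < d ∧
      (∀ v ∈ S, d ≤ (S.filter (G.Adj v)).card ∧ ((S.filter (G.Adj v)).card : ℝ) ≤ 2 ^ 24 * d) ∧
      ε ^ 2 * S.card ≤ 64 * d ^ 2 ∧ ε ^ 4 * Fintype.card V ≤ 4096 * d ^ 4 := by
  obtain ⟨S, hS0, hS⟩ := exists_max_image (univ.filter fun S : Finset V => S.Nonempty)
    (fun S => extrD G S ^ 4 / (S.card : ℝ) ^ 5) ⟨univ, by simp⟩
  rw [mem_filter] at hS0
  obtain ⟨N, hN⟩ : ∃ N : ℝ, N = Fintype.card V := ⟨_, rfl⟩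
  obtain ⟨m, hm⟩ : ∃ m : ℝ, m = S.card := ⟨_, rfl⟩
  obtain ⟨e, he⟩ : ∃ e : ℝ, e = extrD G S := ⟨_, rfl⟩
  have N0 : 0 < N := by rw [hN]; exact_mod_cast Fintype.card_pos
  have m1 : 1 ≤ m := by rw [hm]; exact_mod_cast hS0.2.card_pos
  have mN : m ≤ N := by rw [hm, hN]; exact_mod_cast card_le_univ S
  have e0 : 0 ≤ e := he ▸ extrD_nonneg G S
  rw [← hm, ← he] at hS
  rw [← hN] at h ⊢
  have h1 : ε ^ 4 * N * m ^ 5 ≤ e ^ 4 := by
    have := hS univ (by simp)
    rw [card_univ, ← hN, div_le_div_iff₀ (by positivity) (by positivity)] at this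
    have h2 : (ε ^ 2 * N ^ 3) ^ 2 ≤ (extrD G univ ^ 2) ^ 2 := pow_le_pow_left₀ (by positivity) h 2
    refine le_of_mul_le_mul_right (le_trans ?_ this) (show 0 < N ^ 5 by positivity)
    calc ε ^ 4 * N * m ^ 5 * N ^ 5 = (ε ^ 2 * N ^ 3) ^ 2 * m ^ 5 := by ring
      _ ≤ (extrD G univ ^ 2) ^ 2 * m ^ 5 := by gcongr
      _ = _ := by ring
  have e1 : 0 < e := by
    refine e0.lt_of_ne fun h0 => ?_
    rw [← h0] at h1
    have : 0 < ε ^ 4 * N * m ^ 5 := by positivity
    linarith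
  obtain ⟨T, hT⟩ : ∃ T, T = S.filter fun v => 2 ^ 21 * e ≤ m * (S.filter (G.Adj v)).card :=
    ⟨_, rfl⟩
  have TS : T ⊆ S := hT ▸ filter_subset _ _
  have h2 : (T.card : ℝ) * 2 ^ 21 ≤ m := by
    have a1 : (T.card : ℝ) * (2 ^ 21 * e) ≤ ∑ v ∈ T, m * (S.filter (G.Adj v)).card := by
      rw [← nsmul_eq_mul]
      exact card_nsmul_le_sum _ _ _ fun v hv => by rw [hT] at hv; exact (mem_filter.1 hv).2
    have a2 : ∑ v ∈ T, m * (S.filter (G.Adj v)).card ≤ m * e := by
      rw [he, extrD_eq, ← mul_sum]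
      exact mul_le_mul_of_nonneg_left
        (sum_le_sum_of_subset_of_nonneg TS fun _ _ _ => by positivity) (by linarith)
    exact le_of_mul_le_mul_right (by linarith) e1
  have h3 : ∑ v ∈ S, ((T.filter (G.Adj v)).card : ℝ) ≤ e / 4 := by
    rcases T.eq_empty_or_nonempty with rfl | T0
    · simp; positivity
    have t1 : T.card ≤ S.card / 2 ^ 21 := by
      rw [Nat.le_div_iff_mul_le (by norm_num)]
      rw [hm] at h2
      exact_mod_cast h2
    have p0 : 0 < S.card / 2 ^ 21 := T0.card_pos.trans_le t1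
    refine (sum_le_parts (b := e / 2 ^ 25) (p := S.card / 2 ^ 21) (by positivity) (fun R hR hc => ?_) (2 ^ 22) S
      subset_rfl (by omega)).trans (by push_cast; linarith)
    refine (cross_le G T R).trans ?_
    have a1 := hS (T ∪ R) (by simp [T0])
    have a2 : ((T ∪ R).card : ℝ) ≤ m / 2 ^ 20 := by
      have := card_union_le T R
      have b : (T ∪ R).card * 2 ^ 20 ≤ S.card := by omega
      rw [le_div_iff₀ (by norm_num), hm]
      exact_mod_cast b
    have a3 : (0 : ℝ) < (T ∪ R).card := by exact_mod_cast (T0.mono subset_union_left).card_pos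
    rw [div_le_iff₀ (by positivity)] at a1
    refine le_of_pow_le_pow_left₀ (n := 4) (by norm_num) (by positivity) (a1.trans ?_)
    calc e ^ 4 / m ^ 5 * ((T ∪ R).card : ℝ) ^ 5 ≤ e ^ 4 / m ^ 5 * (m / 2 ^ 20) ^ 5 := by gcongr
      _ = _ := by field_simp
  have h4 := extrD_sdiff G TS
  have h5 : ((S \ T).card : ℝ) ≤ m := by rw [hm]; exact_mod_cast card_le_card sdiff_subset
  obtain ⟨S', s1, s2, s3⟩ := core_sub G (S \ T) (δ := e / (8 * m)) (by
    have : 2 * (e / (8 * m)) * ((S \ T).card : ℝ) ≤ 2 * (e / (8 * m)) * m := by gcongr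
    have b : 2 * (e / (8 * m)) * m = e / 4 := by field_simp; ring
    linarith)
  have h6 : ε ^ 4 * N * m ≤ 4096 * (e / (8 * m)) ^ 4 := by
    rw [div_pow, ← mul_div_assoc, le_div_iff₀ (by positivity)]
    linarith
  refine ⟨S', e / (8 * m), s2, by positivity, fun v hv => ⟨s3 v hv, ?_⟩, ?_, ?_⟩
  · have a1 := mem_sdiff.1 (s1 hv)
    have a2 : ¬ 2 ^ 21 * e ≤ m * (S.filter (G.Adj v)).card := fun c =>
      a1.2 (hT ▸ mem_filter.2 ⟨a1.1, c⟩)
    have a3 : ((S'.filter (G.Adj v)).card : ℝ) ≤ (S.filter (G.Adj v)).card := by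
      exact_mod_cast card_le_card (filter_subset_filter _ (s1.trans sdiff_subset))
    refine a3.trans ?_
    rw [← mul_div_assoc, le_div_iff₀ (by positivity)]
    linarith [not_le.1 a2]
  · have a1 : (S'.card : ℝ) ≤ m := le_trans (by exact_mod_cast card_le_card s1) h5
    refine le_trans (by gcongr) (le_of_pow_le_pow_left₀ (n := 2) (a := ε ^ 2 * m) (by norm_num)
      (by positivity) ?_)
    calc (ε ^ 2 * m) ^ 2 = ε ^ 4 * m * m := by ring
      _ ≤ ε ^ 4 * N * m := by gcongr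
      _ ≤ _ := h6
      _ = _ := by ring
  · refine le_trans ?_ h6
    exact le_mul_of_one_le_right (by positivity) m1

end Pool.Agent.Lib.MP_efdbfd_co.Lay
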